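import Pool.Agent.LevelLower.Numerics2

/-!
# Growth
-/

namespace LevelRec

open LevelLower Filter Topology

/-- Module G: growth. -/
theorem growth {s h H R C a b : ℕ} (hs : 1 ≤ s) (hC : 0 < C) (hH : 2 ≤ H) (hh : 0 < h)
    (hsys : ∀ K, ∃ T, C * R ^ K ≤ T ∧ HasSys2 s (h * H ^ K) T) (hb : 0 < b)
    (hR : H ^ a < R ^ b) :
    ∃ n₀ : ℕ, ∀ n ≥ n₀, ∀ s' ≥ s, (n : ℝ) ^ ((a : ℝ) / b) ≤ Psi s' n := by
  have hH0 : (0 : ℝ) < H := by
    have : 0 < H := by omega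
    exact_mod_cast this
  have hh0 : (0 : ℝ) < h := by exact_mod_cast hh
  have hC0 : (0 : ℝ) < C := by exact_mod_cast hC
  have hb0 : (0 : ℝ) < b := by exact_mod_cast hb
  have he0 : 0 ≤ (a : ℝ) / b := by positivity
  have hr0 : 0 < (H : ℝ) ^ ((a : ℝ) / b) := Real.rpow_pos_of_pos hH0 _
  have hrR : (H : ℝ) ^ ((a : ℝ) / b) < R := by
    have e1 : ((H : ℝ) ^ ((a : ℝ) / b)) ^ b = (H : ℝ) ^ a := by
      rw [← Real.rpow_natCast, ← Real.rpow_mul hH0.le, div_mul_cancel₀ _ hb0.ne',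
        Real.rpow_natCast]
    have e2 : ((H : ℝ) ^ ((a : ℝ) / b)) ^ b < (R : ℝ) ^ b := by
      rw [e1]
      exact_mod_cast hR
    exact lt_of_pow_lt_pow_left₀ b (Nat.cast_nonneg R) e2
  have hR0 : (0 : ℝ) < R := hr0.trans hrR
  have hRpos : 0 < R := by exact_mod_cast hR0
  -- eventually the recursion wins
  have hlim : Tendsto (fun K : ℕ => ((h * H : ℕ) : ℝ) ^ ((a : ℝ) / b) *
      ((H : ℝ) ^ ((a : ℝ) / b) / R) ^ K) atTop (𝓝 0) := by
    have h1 := tendsto_pow_atTop_nhds_zero_of_lt_one (r := (H : ℝ) ^ ((a : ℝ) / b) / R)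
      (by positivity) ((div_lt_one hR0).2 hrR)
    have h2 := h1.const_mul (((h * H : ℕ) : ℝ) ^ ((a : ℝ) / b))
    rwa [mul_zero] at h2
  obtain ⟨K₀, hK₀⟩ := eventually_atTop.1 (hlim.eventually_le_const hC0)
  refine ⟨h * H ^ K₀, fun n hn s' hs' => ?_⟩
  have hex : ∃ K, n < h * H ^ (K + 1) := by
    refine ⟨n, ?_⟩
    have h1 : n + 1 < H ^ (n + 1) := Nat.lt_pow_self (by omega)
    calc n < H ^ (n + 1) := by omega
      _ ≤ h * H ^ (n + 1) := Nat.le_mul_of_pos_left _ hh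
  classical
  obtain ⟨K, hK1, hK2⟩ : ∃ K, n < h * H ^ (K + 1) ∧ ∀ j < K, ¬ n < h * H ^ (j + 1) :=
    ⟨Nat.find hex, Nat.find_spec hex, fun j hj => Nat.find_min hex hj⟩
  have hKK : K₀ ≤ K := by
    by_contra hcon
    have h1 : h * H ^ (K + 1) ≤ h * H ^ K₀ :=
      Nat.mul_le_mul_left _ (Nat.pow_le_pow_right (by omega) (by omega))
    omega
  have hle : h * H ^ K ≤ n := by
    rcases K with _ | K
    · have : h * H ^ 0 ≤ h * H ^ K₀ :=
        Nat.mul_le_mul_left _ (Nat.pow_le_pow_right (by omega) (by omega))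
      omega
    · have := hK2 K (by omega)
      omega
  obtain ⟨T, hT, hsysT⟩ := hsys K
  have hTpos : 0 < T := lt_of_lt_of_le (by positivity) hT
  have hPsi := ((hsysT.mono hs').le (hs.trans hs') hTpos hle).Psi_le
  have h1 : (n : ℝ) ^ ((a : ℝ) / b) ≤ ((h * H : ℕ) : ℝ) ^ ((a : ℝ) / b) *
      ((H : ℝ) ^ ((a : ℝ) / b)) ^ K := by
    have h2 : (n : ℝ) ≤ ((h * H : ℕ) : ℝ) * (H : ℝ) ^ K := by
      have h3 : n ≤ (h * H) * H ^ K := by
        have : h * H ^ (K + 1) = (h * H) * H ^ K := by ring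
        omega
      exact_mod_cast h3
    calc (n : ℝ) ^ ((a : ℝ) / b) ≤ (((h * H : ℕ) : ℝ) * (H : ℝ) ^ K) ^ ((a : ℝ) / b) :=
          Real.rpow_le_rpow (Nat.cast_nonneg _) h2 he0
      _ = ((h * H : ℕ) : ℝ) ^ ((a : ℝ) / b) * ((H : ℝ) ^ K) ^ ((a : ℝ) / b) :=
          Real.mul_rpow (Nat.cast_nonneg _) (by positivity)
      _ = ((h * H : ℕ) : ℝ) ^ ((a : ℝ) / b) * ((H : ℝ) ^ ((a : ℝ) / b)) ^ K := by
          rw [← Real.rpow_natCast (H : ℝ) K, ← Real.rpow_natCast ((H : ℝ) ^ ((a : ℝ) / b)) K,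
            ← Real.rpow_mul hH0.le, ← Real.rpow_mul hH0.le, mul_comm (K : ℝ)]
  have h4 := hK₀ K hKK
  rw [div_pow, ← mul_div_assoc, div_le_iff₀ (by positivity)] at h4
  calc (n : ℝ) ^ ((a : ℝ) / b) ≤ C * (R : ℝ) ^ K := h1.trans h4
    _ ≤ T := by exact_mod_cast hT
    _ ≤ Psi s' n := by exact_mod_cast hPsi

end LevelRec
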