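import Pool.Agent.LevelRec.Defs

/-!
# Phase functions and speeds
-/

namespace LevelRec

open LevelLower

/-- Module E1: existence of phase functions for one pair -/
theorem exists_phs {D : ℕ → ℤ} {w : ℤ} {sg q : ℕ} (hw : 0 < w) (hq : 0 < q) (hsg : Odd sg)
    (hD : ∀ t, 2 * w ≤ q * (D (t + 1) - D t)) :
    ∃ φ, Phs D w sg φ ∧ ∀ t, 1 ≤ φ t ∧ φ t ≤ q * (sg + 1) := by
  have hqz : (0 : ℤ) < q := by exact_mod_cast hq
  have h2w : (0 : ℤ) < 2 * w := by linarith
  obtain ⟨f, hf⟩ : ∃ f : ℕ → ℕ, ∀ t, ((f t : ℕ) : ℤ) = max 0 (q * (D t + w) / (2 * w)) :=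
    ⟨fun t => (max 0 (q * (D t + w) / (2 * w))).toNat, fun t =>
      Int.toNat_of_nonneg (le_max_left _ _)⟩
  -- monotonicity of `D`
  have hDm : ∀ t, D t ≤ D (t + 1) := by
    intro t
    by_contra hc
    push Not at hc
    have h1 := hD t
    have h2 : (q : ℤ) * (D (t + 1) - D t) ≤ 0 :=
      mul_nonpos_of_nonneg_of_nonpos hqz.le (by linarith)
    linarith
  have hstep : ∀ t, q * (D t + w) / (2 * w) + 1 ≤ q * (D (t + 1) + w) / (2 * w) := by
    intro t
    rw [← Int.add_mul_ediv_right _ _ h2w.ne']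
    apply Int.ediv_le_ediv h2w
    have h1 := hD t
    nlinarith
  have hfs : ∀ t, f t ≤ f (t + 1) := by
    intro t
    have h1 := hstep t
    have h2 : ((f t : ℕ) : ℤ) ≤ ((f (t + 1) : ℕ) : ℤ) := by
      rw [hf, hf]
      exact max_le_max le_rfl (by linarith)
    exact_mod_cast h2
  have hfs' : ∀ t, -w < D t → f t + 1 ≤ f (t + 1) := by
    intro t ht
    have h1 := hstep t
    have h0 : 0 ≤ q * (D t + w) / (2 * w) :=
      Int.ediv_nonneg (mul_nonneg hqz.le (by linarith)) h2w.le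
    have h2 : ((f t : ℕ) : ℤ) + 1 ≤ ((f (t + 1) : ℕ) : ℤ) := by
      rw [hf, hf, max_eq_right h0]
      exact le_trans h1 (le_max_right _ _)
    exact_mod_cast h2
  have hflt : ∀ t, D t < w → f t + 1 ≤ q := by
    intro t ht
    have h2 : ((f t : ℕ) : ℤ) < q := by
      rw [hf]
      apply max_lt hqz
      apply Int.ediv_lt_of_lt_mul h2w
      nlinarith
    have : f t < q := by exact_mod_cast h2
    omega
  have hsg1 : 1 ≤ sg := hsg.pos
  have heven : Even (sg + 1) := hsg.add_one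
  have hle1 : ∀ t, D t < w → 1 + (sg + 1) * f t + sg ≤ q * (sg + 1) := by
    intro t ht
    have h1 := hflt t ht
    nlinarith
  set φ : ℕ → ℕ := fun t => if w ≤ D t then q * (sg + 1) else 1 + (sg + 1) * f t with hφ
  have hφ1 : ∀ t, w ≤ D t → φ t = q * (sg + 1) := fun t ht => if_pos ht
  have hφ2 : ∀ t, D t < w → φ t = 1 + (sg + 1) * f t := fun t ht => if_neg (not_le.mpr ht)
  have hodd : ∀ t, D t < w → Odd (φ t) := by
    intro t ht
    rw [hφ2 t ht, add_comm]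
    exact (heven.mul_right _).add_one
  have hmono : Monotone φ := by
    apply monotone_nat_of_le_succ
    intro t
    rcases le_or_gt w (D t) with h | h
    · rw [hφ1 t h, hφ1 (t + 1) (le_trans h (hDm t))]
    · rw [hφ2 t h]
      rcases le_or_gt w (D (t + 1)) with h' | h'
      · rw [hφ1 _ h']
        have := hle1 t h
        omega
      · rw [hφ2 _ h']
        have := Nat.mul_le_mul_left (sg + 1) (hfs t)
        omega
  have htop : ∀ t, -w < D t → D t < w → φ t + sg ≤ φ (t + 1) := by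
    intro t h0 h
    rw [hφ2 t h]
    rcases le_or_gt w (D (t + 1)) with h' | h'
    · rw [hφ1 _ h']
      exact hle1 t h
    · rw [hφ2 _ h']
      have := Nat.mul_le_mul_left (sg + 1) (hfs' t h0)
      rw [mul_add] at this
      omega
  refine ⟨φ, ⟨hmono, ?_, ?_, ?_⟩, ?_⟩
  · intro t ht
    exact ⟨φ t, hodd t (by linarith), le_rfl, hmono (Nat.le_succ t)⟩
  · intro t ht
    rcases le_or_gt w (D t) with h | h
    · refine ⟨φ t, ?_, le_rfl, hmono (Nat.le_succ t)⟩
      rw [hφ1 t h]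
      exact heven.mul_left _
    · refine ⟨φ t + 1, (hodd t h).add_one, Nat.le_succ _, ?_⟩
      have := htop t (by linarith) h
      omega
  · intro t ht
    rw [abs_lt] at ht
    exact ⟨hodd t ht.2, htop t ht.1 ht.2⟩
  · intro t
    rcases le_or_gt w (D t) with h | h
    · rw [hφ1 t h]
      refine ⟨?_, le_rfl⟩
      exact Nat.mul_pos hq (Nat.succ_pos _)
    · rw [hφ2 t h]
      have := hle1 t h
      omega

/-- bound for the slopes -/
def MbS (g m' D : ℕ) (Y : ℕ) : ℕ → ℕ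
  | 0 => 0
  | k + 1 => (g - 1) * (m' * Y ^ k + D * MbS g m' D Y k) + D * MbS g m' D Y k

/-- the speeds -/
def alS (g m' D Y : ℕ) (k : ℕ) (i : Fin g) : ℤ :=
  (2 * ((i : ℕ) : ℤ) - ((g : ℤ) - 1)) * ((m' * Y ^ k + D * MbS g m' D Y k : ℕ) : ℤ)

/-- the slope of `zeta` -/
def slopeS {g : ℕ} (al : ℕ → Fin g → ℤ) (D : ℕ) : ℕ → (ℕ → Fin g) → ℤ
  | 0, _ => 0
  | k + 1, κ => al k (κ k) + D * slopeS al D k κ

theorem zeta_affine {g : ℕ} (al : ℕ → Fin g → ℤ) (D c0 : ℕ) (k : ℕ) (κ : ℕ → Fin g) (t t' : ℕ) :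
    zeta al D c0 k κ t' - zeta al D c0 k κ t = ((t' : ℤ) - t) * slopeS al D k κ := by
  induction k generalizing t t' with
  | zero => simp [zeta, slopeS]
  | succ k ih =>
    have h := ih (D * t + c0) (D * t' + c0)
    simp only [zeta, slopeS]
    push_cast at h
    linear_combination h

theorem abs_alS_le {g : ℕ} (m' D Y k : ℕ) (i : Fin g) :
    |alS g m' D Y k i| ≤ (((g - 1) * (m' * Y ^ k + D * MbS g m' D Y k) : ℕ) : ℤ) := by
  have hi := i.2
  have hg : 1 ≤ g := by omega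
  unfold alS
  rw [abs_mul, Nat.cast_mul]
  have h1 : |(((m' * Y ^ k + D * MbS g m' D Y k : ℕ)) : ℤ)| =
      ((m' * Y ^ k + D * MbS g m' D Y k : ℕ) : ℤ) := abs_of_nonneg (Int.natCast_nonneg _)
  rw [h1]
  apply mul_le_mul_of_nonneg_right _ (Int.natCast_nonneg _)
  rw [abs_le, Nat.cast_sub hg]
  constructor <;> push_cast <;> omega

theorem abs_slopeS_le {g : ℕ} (m' D Y k : ℕ) (κ : ℕ → Fin g) :
    |slopeS (alS g m' D Y) D k κ| ≤ (MbS g m' D Y k : ℤ) := by
  induction k with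
  | zero => simp [slopeS, MbS]
  | succ k ih =>
    simp only [slopeS, MbS]
    refine (abs_add_le _ _).trans ?_
    rw [Nat.cast_add, Nat.cast_mul D]
    refine add_le_add (abs_alS_le _ _ _ _ _) ?_
    rw [abs_mul, abs_of_nonneg (Int.natCast_nonneg D)]
    exact mul_le_mul_of_nonneg_left ih (Int.natCast_nonneg D)

theorem sum_alS {g : ℕ} (m' D Y k : ℕ) : ∑ i, alS g m' D Y k i = 0 := by
  unfold alS
  rw [← Finset.sum_mul]
  have h : ∑ i : Fin g, (2 * ((i : ℕ) : ℤ) - ((g : ℤ) - 1)) = 0 := by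
    rw [Finset.sum_sub_distrib, ← Finset.mul_sum]
    rw [Fin.sum_univ_eq_sum_range (fun i => ((i : ℕ) : ℤ)) g]
    have h2 : (∑ i ∈ Finset.range g, ((i : ℕ) : ℤ)) * 2 = (g : ℤ) * ((g : ℤ) - 1) := by
      clear * -
      induction g with
      | zero => simp
      | succ n ih =>
        rw [Finset.sum_range_succ, add_mul, ih]
        push_cast
        ring
    rw [Finset.sum_const, Finset.card_univ, Fintype.card_fin, nsmul_eq_mul]
    linarith
  rw [h, zero_mul]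

theorem MbS_le {g m' D Y N₀ N₁ : ℕ} (hg : 0 < g)
    (h1 : N₀ * ((g - 1) * m') + g * (D * N₁) ≤ N₁ * Y) (k : ℕ) :
    N₀ * MbS g m' D Y (k + 1) ≤ (N₀ * ((g - 1) * m') + g * (D * N₁)) * Y ^ k ∧
      N₀ * MbS g m' D Y k ≤ N₁ * Y ^ k := by
  induction k with
  | zero =>
    simp only [MbS, pow_zero, mul_one, mul_zero, add_zero]
    exact ⟨Nat.le_add_right _ _, Nat.zero_le _⟩
  | succ k ih =>
    have h3 : N₀ * MbS g m' D Y (k + 1) ≤ N₁ * Y ^ (k + 1) := by
      refine ih.1.trans ?_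
      calc (N₀ * ((g - 1) * m') + g * (D * N₁)) * Y ^ k ≤ N₁ * Y * Y ^ k :=
            Nat.mul_le_mul_right _ h1
        _ = N₁ * Y ^ (k + 1) := by ring
    refine ⟨?_, h3⟩
    obtain ⟨g', rfl⟩ : ∃ g', g = g' + 1 := ⟨g - 1, by omega⟩
    have h4 : MbS (g' + 1) m' D Y (k + 1 + 1) =
        g' * (m' * Y ^ (k + 1) + D * MbS (g' + 1) m' D Y (k + 1)) +
          D * MbS (g' + 1) m' D Y (k + 1) := by
      rw [MbS, Nat.add_sub_cancel]
    rw [h4, Nat.add_sub_cancel]
    calc N₀ * (g' * (m' * Y ^ (k + 1) + D * MbS (g' + 1) m' D Y (k + 1)) +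
          D * MbS (g' + 1) m' D Y (k + 1)) =
        N₀ * (g' * m') * Y ^ (k + 1) +
          (g' + 1) * D * (N₀ * MbS (g' + 1) m' D Y (k + 1)) := by ring
      _ ≤ N₀ * (g' * m') * Y ^ (k + 1) + (g' + 1) * D * (N₁ * Y ^ (k + 1)) := by
          gcongr
      _ = (N₀ * (g' * m') + (g' + 1) * (D * N₁)) * Y ^ (k + 1) := by ring

/-- Module E: the speeds. `m = q * m'`; the relative speed of two classes is at least `2 * m / q`
times the width `(X * m) ^ k` of a block of level `k`. -/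
theorem exists_speeds {g m m' X D c0 c1 w q N₀ N₁ : ℕ} (hm : m = q * m') (hg : 0 < g)
    (hN : 0 < N₀) (hc0 : c0 ≤ c1) (hc1 : D ≤ c0 + c1 + 1)
    (h1 : N₀ * ((g - 1) * m') + g * (D * N₁) ≤ N₁ * (X * m))
    (h2 : c1 * (N₀ * ((g - 1) * m') + g * (D * N₁)) ≤ w * m * N₀) :
    ∃ al : ℕ → Fin g → ℤ, (∀ k, ∑ i, al k i = 0) ∧
      (∀ k κ T t, D * T ≤ t → t < D * (T + 1) →
        |zeta al D c0 (k + 1) κ t - zeta al D c0 (k + 1) κ (D * T + c0)| ≤
          (w : ℤ) * (m * ((X * m : ℕ) : ℤ) ^ k)) ∧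
      (∀ k κ κ' t, κ' k < κ k → 2 * ((m : ℤ) * ((X * m : ℕ) : ℤ) ^ k) ≤
        q * ((zeta al D c0 (k + 1) κ (t + 1) - zeta al D c0 (k + 1) κ' (t + 1)) -
          (zeta al D c0 (k + 1) κ t - zeta al D c0 (k + 1) κ' t))) := by
  refine ⟨alS g m' D (X * m), fun k => sum_alS _ _ _ _, ?_, ?_⟩
  · intro k κ T t ht1 ht2
    rw [zeta_affine, abs_mul]
    have hA : |((t : ℤ) - ((D * T + c0 : ℕ) : ℤ))| ≤ (c1 : ℤ) := by
      rw [mul_add, mul_one] at ht2
      rw [abs_le]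
      constructor <;> push_cast <;> zify at * <;> linarith
    have hB := abs_slopeS_le m' D (X * m) (k + 1) κ
    have hC : c1 * MbS g m' D (X * m) (k + 1) ≤ w * (m * (X * m) ^ k) := by
      have h3 := (MbS_le hg h1 k).1
      apply Nat.le_of_mul_le_mul_left _ hN
      calc N₀ * (c1 * MbS g m' D (X * m) (k + 1)) = c1 * (N₀ * MbS g m' D (X * m) (k + 1)) := by
            ring
        _ ≤ c1 * ((N₀ * ((g - 1) * m') + g * (D * N₁)) * (X * m) ^ k) :=
            Nat.mul_le_mul_left _ h3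
        _ = c1 * (N₀ * ((g - 1) * m') + g * (D * N₁)) * (X * m) ^ k := by ring
        _ ≤ w * m * N₀ * (X * m) ^ k := Nat.mul_le_mul_right _ h2
        _ = N₀ * (w * (m * (X * m) ^ k)) := by ring
    have hC' : (c1 : ℤ) * (MbS g m' D (X * m) (k + 1) : ℤ) ≤
        (w : ℤ) * (m * ((X * m : ℕ) : ℤ) ^ k) := by exact_mod_cast hC
    exact (mul_le_mul hA hB (abs_nonneg _) (Int.natCast_nonneg _)).trans hC'
  · intro k κ κ' t hlt
    have hz1 := zeta_affine (alS g m' D (X * m)) D c0 (k + 1) κ t (t + 1)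
    have hz2 := zeta_affine (alS g m' D (X * m)) D c0 (k + 1) κ' t (t + 1)
    have hb1 := abs_le.mp (abs_slopeS_le m' D (X * m) k κ)
    have hb2 := abs_le.mp (abs_slopeS_le m' D (X * m) k κ')
    set M : ℤ := (MbS g m' D (X * m) k : ℤ) with hM
    set s1 := slopeS (alS g m' D (X * m)) D k κ with hs1
    set s2 := slopeS (alS g m' D (X * m)) D k κ' with hs2
    have e1 : slopeS (alS g m' D (X * m)) D (k + 1) κ =
        alS g m' D (X * m) k (κ k) + D * s1 := rfl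
    have e2 : slopeS (alS g m' D (X * m)) D (k + 1) κ' =
        alS g m' D (X * m) k (κ' k) + D * s2 := rfl
    have hD0 : (0 : ℤ) ≤ D := Int.natCast_nonneg _
    have hcast : (((t + 1 : ℕ) : ℤ) - (t : ℤ)) = 1 := by push_cast; ring
    rw [hcast, one_mul, e1] at hz1
    rw [hcast, one_mul, e2] at hz2
    have hal : 2 * ((m' : ℤ) * ((X * m : ℕ) : ℤ) ^ k + D * M) ≤
        alS g m' D (X * m) k (κ k) - alS g m' D (X * m) k (κ' k) := by
      unfold alS
      have h5 : ((κ' k : ℕ) : ℤ) + 1 ≤ ((κ k : ℕ) : ℤ) := by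
        have : (κ' k : ℕ) < (κ k : ℕ) := hlt
        exact_mod_cast this
      have h6 : (0 : ℤ) ≤ ((m' * (X * m) ^ k + D * MbS g m' D (X * m) k : ℕ) : ℤ) :=
        Int.natCast_nonneg _
      have h7 : ((m' * (X * m) ^ k + D * MbS g m' D (X * m) k : ℕ) : ℤ) =
          (m' : ℤ) * ((X * m : ℕ) : ℤ) ^ k + D * M := by
        push_cast
        rfl
      rw [h7] at h6 ⊢
      nlinarith
    have hfin : 2 * ((m' : ℤ) * ((X * m : ℕ) : ℤ) ^ k) ≤
        (zeta (alS g m' D (X * m)) D c0 (k + 1) κ (t + 1) -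
          zeta (alS g m' D (X * m)) D c0 (k + 1) κ' (t + 1)) -
          (zeta (alS g m' D (X * m)) D c0 (k + 1) κ t -
            zeta (alS g m' D (X * m)) D c0 (k + 1) κ' t) := by
      have h8 : (D : ℤ) * s1 ≥ D * (-M) := mul_le_mul_of_nonneg_left hb1.1 hD0
      have h9 : (D : ℤ) * s2 ≤ D * M := mul_le_mul_of_nonneg_left hb2.2 hD0
      linarith
    have hq0 : (0 : ℤ) ≤ q := Int.natCast_nonneg _
    have h10 := mul_le_mul_of_nonneg_left hfin hq0
    have h11 : (m : ℤ) = q * m' := by exact_mod_cast hm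
    calc 2 * ((m : ℤ) * ((X * m : ℕ) : ℤ) ^ k) =
        q * (2 * ((m' : ℤ) * ((X * m : ℕ) : ℤ) ^ k)) := by
          generalize ((X * m : ℕ) : ℤ) ^ k = Q
          rw [h11]
          ring
      _ ≤ _ := h10

end LevelRec
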