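import Pool.Agent.LevelRec.Defs
import Pool.Agent.LevelLower.Realise2

/-!
# From a trace to an exchange system
-/

namespace LevelRec

open LevelLower

section toSysAux

variable {V : Type} [DecidableEq V]

theorem ts_posts_get (x : V → ℤ) (L : List (V × V)) (t : ℕ)
    (ht : t < (x :: posts x L).length) : (x :: posts x L)[t] = run x (L.take t) := by
  induction L generalizing x t with
  | nil =>
    have h0 : t = 0 := by simpa [posts] using ht
    subst h0
    rfl
  | cons e L ih =>
    cases t with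
    | zero => rfl
    | succ t => exact ih (stp x e) t (by simpa [posts] using ht)

theorem ts_posts_length (x : V → ℤ) (L : List (V × V)) : (posts x L).length = L.length := by
  induction L generalizing x with
  | nil => rfl
  | cons e L ih => simp only [posts, List.length_cons, ih]

theorem ts_valid_get (x : V → ℤ) (L : List (V × V)) (h : Valid x L) (t : ℕ)
    (ht : t < L.length) : run x (L.take t) (L[t]).1 = 0 ∧ run x (L.take t) (L[t]).2 = 1 ∧
      run x (L.take (t + 1)) = stp (run x (L.take t)) L[t] := by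
  induction L generalizing x t with
  | nil => simp at ht
  | cons e L ih =>
    cases t with
    | zero => exact ⟨h.1, h.2.1, rfl⟩
    | succ t => exact ih (stp x e) h.2.2 t (by simpa using ht)

theorem ts_run_01 (x : V → ℤ) (h : ∀ c, x c = 0 ∨ x c = 1) (L : List (V × V)) (c : V) :
    run x L c = 0 ∨ run x L c = 1 := by
  induction L generalizing x with
  | nil => exact h c
  | cons e L ih =>
    refine ih (stp x e) (fun c => ?_)
    unfold stp
    split_ifs
    · exact Or.inr rfl
    · exact Or.inl rfl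
    · exact h c

theorem ts_AC_shift {α : Type*} {f : α → ℤ} {a b : ℕ} {L : List α} (h : AC f a b L) (k : ℕ) :
    AC f (a + 2 * k) (b + 2 * k) L := by
  induction h with
  | nil h => exact .nil (by omega)
  | cons h hx _ ih =>
    refine .cons (by omega) ?_ ih
    rw [pow_add, pow_mul]
    simpa using hx

theorem ts_ph {U W : Finset V} {L : List (V × V)} {s : ℕ} {u v : V} {x : V → ℤ}
    (hx : Ini U W x) (h : Crt U W L u v 1 (1 + s)) (h0 : x u ≤ x v) {q : ℕ} (hq : Odd q) :
    Ph (fun t => run x (L.take t) u - run x (L.take t) v) 0 (L.length + 1) q (q + s) := by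
  obtain ⟨k, rfl⟩ := hq
  have h1 : AC (fun y : V → ℤ => y u - y v) (2 * k + 1) (2 * k + 1 + s) (x :: posts x L) := by
    have h2 := ts_AC_shift (h x hx) k
    rw [show 1 + 2 * k = 2 * k + 1 by ring, show 1 + s + 2 * k = 2 * k + 1 + s by ring] at h2
    refine .cons le_rfl ?_ h2
    rw [pow_succ, pow_mul]
    norm_num
    exact h0
  obtain ⟨φ, f1, f2, f3⟩ := h1.phase
  refine ⟨φ, f1, f2, fun t _ ht => ?_⟩
  have hlen : t < (x :: posts x L).length := by
    rw [List.length_cons, ts_posts_length]
    exact ht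
  have h3 := f3 t hlen
  rw [ts_posts_get] at h3
  exact h3

theorem ts_ph' {U W : Finset V} {L : List (V × V)} {s : ℕ} {u v : V} {x : V → ℤ}
    (hx : Ini U W x) (h : Crt U W L u v 1 (1 + s)) (h0 : x u ≤ x v) {q : ℕ} (hq : Even q) :
    Ph (fun t => run x (L.take t) v - run x (L.take t) u) 0 (L.length + 1) q (q + s) := by
  have h1 := ts_ph hx h h0 hq.add_one
  rw [show q + 1 + s = q + s + 1 by ring] at h1
  refine h1.neg.congr (fun t _ _ => ?_)
  ring

end toSysAux

/-- Module F: from a trace to an exchange system. `lt u v` = `u` starts below `v`. -/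
theorem toSys {V : Type} [DecidableEq V] {U W : Finset V} {L : List (V × V)} {s : ℕ}
    (hd : Disjoint U W) (hU : U.Nonempty) (hcard : U.card = W.card) (hL : XT U W L)
    (lt : V → V → Prop) (hirr : ∀ u, ¬ lt u u) (htr : ∀ u v w, lt u v → lt v w → lt u w)
    (htot : ∀ u v, (u ∈ U ∧ v ∈ U ∨ u ∈ W ∧ v ∈ W) → u ≠ v → lt u v ∨ lt v u)
    (hsame : ∀ u v, (u ∈ U ∧ v ∈ U ∨ u ∈ W ∧ v ∈ W) → lt u v → Crt U W L u v 1 (1 + s))
    (hcross : ∀ u ∈ U, ∀ v ∈ W, Crt U W L u v 1 (1 + s)) :
    HasSys2 s (2 * U.card) L.length := by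
  classical
  -- the first state
  obtain ⟨x0, hx0⟩ : ∃ x0 : V → ℤ, x0 = fun c => if c ∈ W then 1 else 0 := ⟨_, rfl⟩
  have hxW : ∀ c ∈ W, x0 c = 1 := fun c hc => by rw [hx0]; exact if_pos hc
  have hxU : ∀ c ∈ U, x0 c = 0 := fun c hc => by
    rw [hx0]
    exact if_neg (Finset.disjoint_left.1 hd hc)
  have hini : Ini U W x0 := ⟨hxU, hxW⟩
  have h01 : ∀ c, x0 c = 0 ∨ x0 c = 1 := fun c => by
    rw [hx0]
    dsimp only
    split_ifs
    · exact Or.inr rfl
    · exact Or.inl rfl
  obtain ⟨hval, hlast⟩ := hL.ok x0 hini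
  have hT : 0 < L.length := by
    rcases Nat.eq_zero_or_pos L.length with h | h
    · obtain ⟨c, hc⟩ := hU
      have h1 := hlast.2 c hc
      rw [List.length_eq_zero_iff.1 h] at h1
      have h2 : x0 c = 1 := h1
      rw [hxU c hc] at h2
      norm_num at h2
    · exact h
  -- the ranks
  obtain ⟨rk, hrk⟩ : ∃ rk : V → ℕ, rk = fun c => if c ∈ W then
      2 * (W.filter (fun d => lt c d)).card + 1 else 2 * (U.filter (fun d => lt d c)).card :=
    ⟨_, rfl⟩
  have hrkW : ∀ c ∈ W, rk c = 2 * (W.filter (fun d => lt c d)).card + 1 :=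
    fun c hc => by rw [hrk]; exact if_pos hc
  have hrkU : ∀ c ∈ U, rk c = 2 * (U.filter (fun d => lt d c)).card :=
    fun c hc => by rw [hrk]; exact if_neg (Finset.disjoint_left.1 hd hc)
  have hmonU : ∀ u ∈ U, ∀ v, lt u v → (U.filter (fun d => lt d u)).card <
      (U.filter (fun d => lt d v)).card := by
    intro u hu v huv
    refine Finset.card_lt_card ((Finset.ssubset_iff_of_subset ?_).2 ⟨u, ?_, ?_⟩)
    · intro d hd'
      rw [Finset.mem_filter] at hd' ⊢
      exact ⟨hd'.1, htr _ _ _ hd'.2 huv⟩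
    · exact Finset.mem_filter.2 ⟨hu, huv⟩
    · exact fun h => hirr _ (Finset.mem_filter.1 h).2
  have hmonW : ∀ v ∈ W, ∀ u, lt u v → (W.filter (fun d => lt v d)).card <
      (W.filter (fun d => lt u d)).card := by
    intro v hv u huv
    refine Finset.card_lt_card ((Finset.ssubset_iff_of_subset ?_).2 ⟨v, ?_, ?_⟩)
    · intro d hd'
      rw [Finset.mem_filter] at hd' ⊢
      exact ⟨hd'.1, htr _ _ _ huv hd'.2⟩
    · exact Finset.mem_filter.2 ⟨hv, huv⟩
    · exact fun h => hirr _ (Finset.mem_filter.1 h).2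
  have hltU : ∀ u ∈ U, ∀ v ∈ U, rk u < rk v → lt u v := by
    intro u hu v hv h
    rw [hrkU u hu, hrkU v hv] at h
    rcases eq_or_ne u v with rfl | hne
    · exact absurd h (lt_irrefl _)
    rcases htot u v (Or.inl ⟨hu, hv⟩) hne with h1 | h1
    · exact h1
    · have := hmonU v hv u h1
      omega
  have hltW : ∀ u ∈ W, ∀ v ∈ W, rk u < rk v → lt v u := by
    intro u hu v hv h
    rw [hrkW u hu, hrkW v hv] at h
    rcases eq_or_ne u v with rfl | hne
    · exact absurd h (lt_irrefl _)
    rcases htot u v (Or.inr ⟨hu, hv⟩) hne with h1 | h1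
    · have := hmonW v hv u h1
      omega
    · exact h1
  have hinj : ∀ u ∈ U ∪ W, ∀ v ∈ U ∪ W, rk u = rk v → u = v := by
    intro u hu v hv h
    by_contra hne
    rcases Finset.mem_union.1 hu with hu' | hu' <;> rcases Finset.mem_union.1 hv with hv' | hv'
    · rw [hrkU u hu', hrkU v hv'] at h
      rcases htot u v (Or.inl ⟨hu', hv'⟩) hne with h1 | h1
      · have := hmonU u hu' v h1
        omega
      · have := hmonU v hv' u h1
        omega
    · rw [hrkU u hu', hrkW v hv'] at h
      omega
    · rw [hrkW u hu', hrkU v hv'] at h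
      omega
    · rw [hrkW u hu', hrkW v hv'] at h
      rcases htot u v (Or.inr ⟨hu', hv'⟩) hne with h1 | h1
      · have := hmonW v hv' u h1
        omega
      · have := hmonW u hu' v h1
        omega
  -- the exchanges
  have hex : ∀ t < L.length, ∃ a b : {c // c ∈ U ∪ W},
      run x0 (L.take t) a = 0 ∧ run x0 (L.take (t + 1)) a = 1 ∧
      run x0 (L.take t) b = 1 ∧ run x0 (L.take (t + 1)) b = 0 ∧
      ∀ c : {c // c ∈ U ∪ W}, c ≠ a → c ≠ b →
        run x0 (L.take (t + 1)) c = run x0 (L.take t) c := by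
    intro t ht
    obtain ⟨h1, h2, h3⟩ := ts_valid_get x0 L hval t ht
    obtain ⟨h4, h5⟩ := hL.supp _ (List.getElem_mem ht)
    have hne : (L[t]).2 ≠ (L[t]).1 := fun h => by
      rw [h, h1] at h2
      norm_num at h2
    refine ⟨⟨(L[t]).1, Finset.mem_union.2 h4⟩, ⟨(L[t]).2, Finset.mem_union.2 h5⟩, h1, ?_, h2,
      ?_, ?_⟩
    · rw [h3]
      simp [stp]
    · rw [h3]
      simp [stp, hne]
    · intro c hc1 hc2
      have hc1' : (c : V) ≠ (L[t]).1 := fun h => hc1 (Subtype.ext h)
      have hc2' : (c : V) ≠ (L[t]).2 := fun h => hc2 (Subtype.ext h)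
      rw [h3]
      simp [stp, hc1', hc2']
  have hcU : Fintype.card {c // c ∈ U ∪ W} = 2 * U.card := by
    rw [Fintype.card_coe, Finset.card_union_of_disjoint hd, ← hcard]
    ring
  refine HasSys2.of_fintype (C := {c // c ∈ U ∪ W}) (K := U.card) hcU
    (w := ⟨fun _ => 0, fun _ => L.length, fun c => rk c⟩)
    (x := fun t c => run x0 (L.take t) c) ⟨?_, ?_, ?_, ?_, ?_, ?_⟩
  · intro t c
    exact ts_run_01 x0 h01 _ _
  · intro c
    exact ⟨hT, le_rfl⟩
  · intro t ht
    obtain ⟨a, b, h1, h2, h3, h4, h5⟩ := hex t ht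
    exact ⟨a, b, ⟨Nat.zero_le _, ht⟩, ⟨Nat.zero_le _, ht⟩, h1, h2, h3, h4, h5⟩
  · intro t ht
    dsimp only
    have key : ∀ t ≤ L.length, (Finset.univ.filter (fun c : {c // c ∈ U ∪ W} => True ∧
        run x0 (L.take t) c = 0)).card = U.card := by
      intro t
      induction t with
      | zero =>
        intro _
        refine Finset.card_bij (fun c _ => (c : V)) ?_ ?_ ?_
        · intro c hc
          have hc0 : x0 c = 0 := (Finset.mem_filter.1 hc).2.2
          rcases Finset.mem_union.1 c.2 with h | h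
          · exact h
          · rw [hxW _ h] at hc0
            norm_num at hc0
        · intro c _ c' _ h
          exact Subtype.ext h
        · intro c hc
          refine ⟨⟨c, Finset.mem_union_left _ hc⟩, ?_, rfl⟩
          exact Finset.mem_filter.2 ⟨Finset.mem_univ _, trivial, hxU c hc⟩
      | succ t ih =>
        intro ht
        refine Eq.trans ?_ (ih (by omega))
        obtain ⟨a, b, h1, h2, h3, h4, h5⟩ := hex t (by omega)
        exact card_step (fun _ : {c // c ∈ U ∪ W} => True)
          (y := fun c => run x0 (L.take t) c) (z := fun c => run x0 (L.take (t + 1)) c)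
          (a := a) (b := b) trivial trivial h1 h2 h3 h4 h5
    refine Eq.trans (congrArg Finset.card ?_) (key t ht.le)
    ext c
    simp only [Finset.mem_filter, Finset.mem_univ, true_and]
    constructor
    · intro h
      exact h.2.2
    · intro h
      exact ⟨Nat.zero_le _, ht, h⟩
  · intro a b hab q hq
    dsimp only at hq ⊢
    rw [min_self]
    have hrk' : rk a < rk b := by
      rcases hab with h | ⟨_, h⟩
      · exact absurd h (lt_irrefl _)
      · exact h
    rcases Finset.mem_union.1 a.2 with ha | ha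
    · have hq' : Odd q := by
        apply odd_of_neg_one_pow
        refine neg_one_pow_eq_neg_one_of2 hq.le ?_
        change 2 * x0 a - 1 < 0
        rw [hxU _ ha]
        norm_num
      rcases Finset.mem_union.1 b.2 with hb | hb
      · exact ts_ph hini (hsame _ _ (Or.inl ⟨ha, hb⟩) (hltU _ ha _ hb hrk'))
          (by rw [hxU _ ha, hxU _ hb]) hq'
      · exact ts_ph hini (hcross _ ha _ hb) (by rw [hxU _ ha, hxW _ hb]; norm_num) hq'
    · have hq' : Even q := by
        apply even_of_neg_one_pow
        refine neg_one_pow_eq_one_of2 hq.le ?_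
        change 0 < 2 * x0 a - 1
        rw [hxW _ ha]
        norm_num
      rcases Finset.mem_union.1 b.2 with hb | hb
      · exact ts_ph' hini (hcross _ hb _ ha) (by rw [hxU _ hb, hxW _ ha]; norm_num) hq'
      · exact ts_ph' hini (hsame _ _ (Or.inr ⟨hb, ha⟩) (hltW _ ha _ hb hrk'))
          (by rw [hxW _ ha, hxW _ hb]) hq'
  · intro a b hne _ hr q _
    exact absurd (Subtype.ext (hinj _ a.2 _ b.2 hr)) hne

end LevelRec
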