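import Pool.Agent.LevelRec.Step
import Pool.Agent.LevelRec.Speeds
import Pool.Agent.LevelRec.ToSys
import Pool.Agent.LevelRec.Growth

/-!
# The recursion: main theorem
-/

namespace LevelRec

open LevelLower

namespace Prm

variable {p : Prm}

/-- block exchanges at all levels -/
theorem ex_all (hc : p.c0 < p.D) (hsg : Odd p.sg) (hX : 2 * p.w ≤ p.X) (hX0 : 0 < p.X)
    (hm : 0 < p.m) (hal : ∀ k, ∑ i, p.al k i = 0) (hsh : p.Shift)
    {S : List (SStep (Role p.g p.m))} (hS : Seed p.g p.m p.D p.sg S) (k : ℕ) :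
    ∀ b P lam T t b' P' lam' T' t', p.D * T ≤ t → t < p.D * (T + 1) → p.D * T' ≤ t' →
      t' < p.D * (T' + 1) → Disjoint (p.blk b P k lam T) (p.blk b' P' k lam' T') →
      ∃ L, p.Spec k t t' (p.blk b P k lam T) (p.blk b' P' k lam' T') L ∧
        ((p.X - 2 * p.w) * S.countP (fun e => e.2)) ^ k ≤ L.length := by
  induction k with
  | zero =>
    intro b P lam T t b' P' lam' T' t' _ _ _ _ hd
    have h1 := p.card_blk hal b P 0 lam T
    have h2 := p.card_blk hal b' P' 0 lam' T'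
    have h3 : (p.blk b P 0 lam T).card = 1 := by
      have : ((p.blk b P 0 lam T).card : ℤ) = 1 := by rw [h1]; simp [W]
      exact_mod_cast this
    have h4 : (p.blk b' P' 0 lam' T').card = 1 := by
      have : ((p.blk b' P' 0 lam' T').card : ℤ) = 1 := by rw [h2]; simp [W]
      exact_mod_cast this
    obtain ⟨L, s1, s2, -⟩ := Spec.single (p := p) hc hsg 0 t t' hd (h3.trans h4.symm)
      (fun u hu v hv => ((mem_blk p).1 hu).1.trans ((mem_blk p).1 hv).1.symm)
      (fun u hu v hv => ((mem_blk p).1 hu).1.trans ((mem_blk p).1 hv).1.symm)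
    exact ⟨L, s1, by rw [s2, h3, pow_zero]⟩
  | succ k ih =>
    intro b P lam T t b' P' lam' T' t' h1 h2 h3 h4 hd
    obtain ⟨L, s1, s2⟩ := ex_succ hc hsg hX hal hsh (k := k)
      (E := S.countP (fun e => e.2) * ((p.X - 2 * p.w) * S.countP (fun e => e.2)) ^ k)
      (es_step hc hsg hX0 hm hal hS ih) b P lam T t b' P' lam' T' t' h1 h2 h3 h4 hd
    refine ⟨L, s1, le_trans (le_of_eq ?_) s2⟩
    rw [pow_succ]
    ring

/-- `u` starts below `v`: the class of `u` at the highest level where they differ is faster -/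
def Lt {g : ℕ} (u v : Cur g) : Prop :=
  (∃ j, (∀ i, j < i → u.ka i = v.ka i) ∧ v.ka j < u.ka j) ∨ (u.ka = v.ka ∧ u.rh < v.rh)

theorem Lt.irrefl {g : ℕ} (u : Cur g) : ¬ Lt u u := by
  rintro (⟨j, -, h⟩ | ⟨-, h⟩)
  · exact lt_irrefl _ h
  · exact lt_irrefl _ h

theorem Lt.trans {g : ℕ} {u v w : Cur g} (h : Lt u v) (h' : Lt v w) : Lt u w := by
  rcases h with ⟨j, h1, h2⟩ | ⟨h1, h2⟩ <;> rcases h' with ⟨j', h1', h2'⟩ | ⟨h1', h2'⟩
  · left
    rcases lt_trichotomy j j' with h | h | h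
    · exact ⟨j', fun i hi => (h1 i (h.trans hi)).trans (h1' i hi), by rw [h1 j' h]; exact h2'⟩
    · subst h
      exact ⟨j, fun i hi => (h1 i hi).trans (h1' i hi), h2'.trans h2⟩
    · exact ⟨j, fun i hi => (h1 i hi).trans (h1' i (h.trans hi)), by rw [← h1' j h]; exact h2⟩
  · left
    exact ⟨j, fun i hi => (h1 i hi).trans (congrFun h1' i), by rw [← h1']; exact h2⟩
  · left
    exact ⟨j', fun i hi => (congrFun h1 i).trans (h1' i hi), by rw [h1]; exact h2'⟩
  · right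
    exact ⟨h1.trans h1', h2.trans h2'⟩

theorem Lt.total {g K : ℕ} {u v : Cur g} (hs : u.sd = v.sd) (ht : ∀ i, K + 1 ≤ i → u.ka i = v.ka i)
    (hne : u ≠ v) : Lt u v ∨ Lt v u := by
  classical
  by_cases hka : u.ka = v.ka
  · rcases lt_trichotomy u.rh v.rh with h | h | h
    · exact Or.inl (Or.inr ⟨hka, h⟩)
    · exact absurd (Cur.ext hs hka h) hne
    · exact Or.inr (Or.inr ⟨hka.symm, h⟩)
  · have hex : ∃ i, u.ka i ≠ v.ka i := by
      by_contra hcon
      push Not at hcon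
      exact hka (funext hcon)
    obtain ⟨i₀, hi₀⟩ := hex
    have hi₀K : i₀ ≤ K := by
      by_contra hcon
      exact hi₀ (ht i₀ (by omega))
    set j := Nat.findGreatest (fun i => u.ka i ≠ v.ka i) K with hj
    have hj1 : u.ka j ≠ v.ka j := Nat.findGreatest_spec (P := fun i => u.ka i ≠ v.ka i) hi₀K hi₀
    have hj2 : ∀ i, j < i → u.ka i = v.ka i := by
      intro i hi
      rcases Nat.lt_or_ge K i with h | h
      · exact ht i h
      · by_contra hcon
        exact Nat.findGreatest_is_greatest (P := fun i => u.ka i ≠ v.ka i) hi h hcon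
    rcases lt_or_gt_of_ne hj1 with h | h
    · exact Or.inr (Or.inl ⟨j, fun i hi => (hj2 i hi).symm, h⟩)
    · exact Or.inl (Or.inl ⟨j, hj2, h⟩)

/-- existence of phase functions -/
theorem exists_good {q : ℕ} (hX : 0 < p.X) (hm : 0 < p.m) (hq : 0 < q) (hsg : Odd p.sg)
    (hspeed : ∀ k (κ κ' : ℕ → Fin p.g) t, κ' k < κ k → 2 * ((p.m : ℤ) * p.W k) ≤
      q * ((zeta p.al p.D p.c0 (k + 1) κ (t + 1) - zeta p.al p.D p.c0 (k + 1) κ' (t + 1)) -
        (zeta p.al p.D p.c0 (k + 1) κ t - zeta p.al p.D p.c0 (k + 1) κ' t))) (k : ℕ)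
    {u v : Cur p.g} : ∀ j < k, (∀ i, j < i → u.ka i = v.ka i) → v.ka j < u.ka j →
    ∃ ψ, p.Good k u v ψ ∧ ∀ t, 1 ≤ ψ t ∧ ψ t ≤ q * (p.sg + 1) := by
  induction k with
  | zero => intro j hj; omega
  | succ k ih =>
    intro j hj h1 h2
    rcases Nat.eq_or_lt_of_le (Nat.le_of_lt_succ hj) with h | h
    · subst h
      have hW := W_pos hX hm j
      have hw : (0 : ℤ) < p.m * p.W j := mul_pos (by exact_mod_cast hm) hW
      obtain ⟨φ, h3, h4⟩ := exists_phs (D := fun t => p.Z (j + 1) u t - p.Z (j + 1) v t) hw hq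
        hsg (fun t => by
          refine (hspeed j u.ka v.ka t h2).trans (le_of_eq ?_)
          unfold Z
          ring)
      exact ⟨φ, Or.inl ⟨h2, h3⟩, h4⟩
    · obtain ⟨ψ', h3, h4⟩ := ih j h h1 h2
      exact ⟨fun t => ψ' (p.D * t), Or.inr ⟨h1 k h, ψ', h3, fun t => rfl⟩, fun t => h4 _⟩

theorem main_prm {q : ℕ} (hc : p.c0 < p.D) (hsg : Odd p.sg) (hX : 2 * p.w < p.X)
    (hm : 0 < p.m) (hg : 0 < p.g) (hq : 0 < q) (hal : ∀ k, ∑ i, p.al k i = 0) (hsh : p.Shift)
    (hspeed : ∀ k (κ κ' : ℕ → Fin p.g) t, κ' k < κ k → 2 * ((p.m : ℤ) * p.W k) ≤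
      q * ((zeta p.al p.D p.c0 (k + 1) κ (t + 1) - zeta p.al p.D p.c0 (k + 1) κ' (t + 1)) -
        (zeta p.al p.D p.c0 (k + 1) κ t - zeta p.al p.D p.c0 (k + 1) κ' t)))
    {S : List (SStep (Role p.g p.m))} (hS : Seed p.g p.m p.D p.sg S) (K : ℕ) :
    ∃ T, S.countP (fun e => e.2) * ((p.X - 2 * p.w) * S.countP (fun e => e.2)) ^ K ≤ T ∧
      HasSys2 (q * (p.sg + 1) - 1) (2 * (p.g * p.m) * (p.g * p.m * p.X) ^ K) T := by
  have hX0 : 0 < p.X := by omega
  set P : ℕ → Fin p.g := fun _ => ⟨0, hg⟩ with hP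
  have hd : Disjoint (p.grp false P K 0 0) (p.grp true P K 0 0) := by
    rw [Finset.disjoint_left]
    intro c h1 h2
    have := ((mem_grp p).1 h1).1.symm.trans ((mem_grp p).1 h2).1
    simp at this
  obtain ⟨L, s1, s2⟩ := es_step hc hsg hX0 hm hal hS
    (ex_all hc hsg hX.le hX0 hm hal hsh hS K) false P 0 0 true P 0 0 hd
  refine ⟨L.length, s2, ?_⟩
  have hcU := p.card_grp hal false P K 0 0
  have hcW := p.card_grp hal true P K 0 0
  have hcard : (p.grp false P K 0 0).card = (p.grp true P K 0 0).card := by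
    exact_mod_cast hcU.trans hcW.symm
  have hcU' : (p.grp false P K 0 0).card = p.g * p.m * (p.g * p.m * p.X) ^ K := by
    have : ((p.grp false P K 0 0).card : ℤ) = ((p.g * p.m * (p.g * p.m * p.X) ^ K : ℕ) : ℤ) := by
      rw [hcU]
      unfold W
      push_cast
      rw [mul_pow, mul_pow, mul_pow, pow_succ]
      ring
    exact_mod_cast this
  have hpos : 0 < (p.grp false P K 0 0).card := by
    rw [hcU']
    positivity
  have h1s : 1 ≤ q * (p.sg + 1) := Nat.mul_pos hq (Nat.succ_pos _)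
  have hside : ∀ u v, (u ∈ p.grp false P K 0 0 ∧ v ∈ p.grp false P K 0 0 ∨
      u ∈ p.grp true P K 0 0 ∧ v ∈ p.grp true P K 0 0) → u.sd = v.sd ∧
      (∀ i, K + 1 ≤ i → u.ka i = v.ka i) ∧
      p.PP (K + 1) 0 (p.grp false P K 0 0) (p.grp true P K 0 0) L u v := by
    rintro u v (⟨hu, hv⟩ | ⟨hu, hv⟩)
    · have mu := (mem_grp p).1 hu
      have mv := (mem_grp p).1 hv
      exact ⟨mu.1.trans mv.1.symm, fun i hi => (mu.2.1 i hi).trans (mv.2.1 i hi).symm,
        s1.ppU u hu v hv⟩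
    · have mu := (mem_grp p).1 hu
      have mv := (mem_grp p).1 hv
      exact ⟨mu.1.trans mv.1.symm, fun i hi => (mu.2.1 i hi).trans (mv.2.1 i hi).symm,
        s1.ppW u hu v hv⟩
  have := toSys (s := q * (p.sg + 1) - 1) hd (Finset.card_pos.1 hpos) hcard s1.xt Lt Lt.irrefl
    (fun u v w => Lt.trans) ?_ ?_ ?_
  · rw [hcU'] at this
    have e : 2 * (p.g * p.m * (p.g * p.m * p.X) ^ K) =
        2 * (p.g * p.m) * (p.g * p.m * p.X) ^ K := by ring
    rwa [e] at this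
  · intro u v huv hne
    obtain ⟨a1, a2, -⟩ := hside u v huv
    exact Lt.total a1 a2 hne
  · intro u v huv hlt
    obtain ⟨a1, a2, a3⟩ := hside u v huv
    rcases hlt with ⟨j, h1, h2⟩ | ⟨h1, h2⟩
    · have hj : j < K + 1 := by
        by_contra hcon
        rw [a2 j (by omega)] at h2
        exact lt_irrefl _ h2
      obtain ⟨ψ, h3, h4⟩ := exists_good hX0 hm hq hsg hspeed (K + 1) j hj h1 h2
      intro x hx
      refine ((a3.1 ψ h3 x hx).mono_left (h4 _).1).mono_right ?_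
      have := (h4 (0 + 1)).2
      omega
    · intro x hx
      refine ac_nonpos ⟨1, odd_one, le_rfl, by omega⟩ (fun y hy => ?_)
      have := a3.2 h1 h2.le x hx y hy
      omega
  · intro u hu v hv x hx
    refine (s1.cross u hu v hv 1 odd_one x hx).mono_right ?_
    have : p.sg + 1 ≤ q * (p.sg + 1) := Nat.le_mul_of_pos_left _ hq
    omega

end Prm

/-- **The recursion.** A seed gives exchange systems of all sizes. -/
theorem main_rec {g m m' q X D c0 c1 w N₀ N₁ sg : ℕ} {S : List (SStep (Role g m))}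
    (hS : Seed g m D sg S) (hm : m = q * m') (hm0 : 0 < m) (hg : 0 < g) (hN : 0 < N₀)
    (hcD : c0 < D) (hc0 : c0 ≤ c1) (hc1 : D ≤ c0 + c1 + 1)
    (h1 : N₀ * ((g - 1) * m') + g * (D * N₁) ≤ N₁ * (X * m))
    (h2 : c1 * (N₀ * ((g - 1) * m') + g * (D * N₁)) ≤ w * m * N₀) (hsg : Odd sg)
    (hX : 2 * w < X) (K : ℕ) :
    ∃ T, (S.countP (fun e => e.2)) * ((X - 2 * w) * S.countP (fun e => e.2)) ^ K ≤ T ∧
      HasSys2 (q * (sg + 1) - 1) (2 * (g * m) * (g * m * X) ^ K) T := by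
  obtain ⟨al, a1, a2, a3⟩ := exists_speeds (X := X) (D := D) (c0 := c0) (c1 := c1) (w := w)
    hm hg hN hc0 hc1 h1 h2
  have hq : 0 < q := by
    rcases Nat.eq_zero_or_pos q with h | h
    · rw [h, Nat.zero_mul] at hm
      omega
    · exact h
  exact Prm.main_prm (p := ⟨g, m, X, w, D, c0, sg, al⟩) hcD hsg hX hm0 hg hq a1 a2 a3 hS K

end LevelRec
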