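import Pool.Agent.LevelRec.SeedFrac
import Pool.Agent.LevelRec.Main
import Pool.Agent.LevelRec.Growth

/-!
# Lower bounds whose exponent grows with `s`
-/

namespace LevelRec

open LevelLower

theorem exists_pred_pow (l : ℕ) : ∃ k, 2 ^ l = k + 1 := ⟨2 ^ l - 1, by
  have : 0 < 2 ^ l := by positivity
  omega⟩

/-- fast drift: two curves share a group once on each level -/
theorem frac_fast (l : ℕ) (hl : 1 ≤ l) {a b : ℕ} (hb : 0 < b)
    (h : (2 * l + 3) * a < (3 * l + 1) * b) :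
    ∃ n₀ : ℕ, ∀ n ≥ n₀, ∀ s' ≥ 4 * l - 1, (n : ℝ) ^ ((a : ℝ) / b) ≤ Psi s' n := by
  obtain ⟨k, hk⟩ := exists_pred_pow l
  have hS := seed_seedF l hl
  have hsys : ∀ K, ∃ T, 4 ^ l * (2 ^ (3 * l + 1)) ^ K ≤ T ∧
      HasSys2 (4 * l - 1) (4 * 2 ^ l * (2 ^ (2 * l + 3)) ^ K) T := by
    intro K
    obtain ⟨T, h1, h2⟩ := main_rec (q := 1) (m' := 2 ^ l) (X := 4 * 2 ^ l) (w := 2 ^ l)
      (c0 := k) (c1 := k) (N₀ := 4 * k ^ 2 + 4 * k + 2) (N₁ := 2 ^ l) hS (by ring)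
      (by positivity) (by norm_num) (by positivity) (by omega) le_rfl (by omega)
      (by
        have e : 2 * 2 ^ l - 1 = 2 * k + 1 := by omega
        rw [e, hk]
        apply le_of_eq
        ring)
      (by
        have e : 2 * 2 ^ l - 1 = 2 * k + 1 := by omega
        rw [e, hk]
        nlinarith [sq_nonneg (k + 1)])
      (odd_sg hl)
      (by
        have : 0 < 2 ^ l := by positivity
        omega) K
    rw [countP_seedF] at h1
    refine ⟨T, ?_, ?_⟩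
    · have e : (4 * 2 ^ l - 2 * 2 ^ l) * 4 ^ l = 2 ^ (3 * l + 1) := by
        have e1 : 4 * 2 ^ l - 2 * 2 ^ l = 2 * 2 ^ l := by omega
        rw [e1, show (4 : ℕ) = 2 ^ 2 by norm_num, ← pow_mul, ← pow_succ', ← pow_add]
        congr 1
        omega
      rwa [e] at h1
    · have e1 : 1 * (4 * l - 1 + 1) - 1 = 4 * l - 1 := by omega
      have e2 : 2 * (2 * 2 ^ l) = 4 * 2 ^ l := by ring
      have e3 : 2 * 2 ^ l * (4 * 2 ^ l) = 2 ^ (2 * l + 3) := by
        rw [pow_add, show 2 * l = l + l by ring, pow_add]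
        ring
      rwa [e1, e2, e3] at h2
  refine growth (s := 4 * l - 1) (by omega) (by positivity) ?_ (by positivity) hsys hb ?_
  · calc 2 = 2 ^ 1 := by norm_num
      _ ≤ 2 ^ (2 * l + 3) := Nat.pow_le_pow_right (by norm_num) (by omega)
  · rw [← pow_mul, ← pow_mul]
    exact Nat.pow_lt_pow_right (by norm_num) h

/-- slow drift: two curves share a group `2 ^ l` times on one level -/
theorem frac_slow (l : ℕ) (hl : 1 ≤ l) {a b : ℕ} (hb : 0 < b)
    (h : (l + 4) * a < (2 * l + 2) * b) :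
    ∃ n₀ : ℕ, ∀ n ≥ n₀, ∀ s' ≥ 4 * l * 2 ^ l - 1, (n : ℝ) ^ ((a : ℝ) / b) ≤ Psi s' n := by
  obtain ⟨k, hk⟩ := exists_pred_pow l
  have hS := seed_seedF l hl
  have hsys : ∀ K, ∃ T, 4 ^ l * (2 ^ (2 * l + 2)) ^ K ≤ T ∧
      HasSys2 (4 * l * 2 ^ l - 1) (4 * 2 ^ l * (2 ^ (l + 4)) ^ K) T := by
    intro K
    obtain ⟨T, h1, h2⟩ := main_rec (q := 2 ^ l) (m' := 1) (X := 8) (w := 2)
      (c0 := k) (c1 := k) (N₀ := 4 * k + 6) (N₁ := 1) hS (by ring)
      (by positivity) (by norm_num) (by positivity) (by omega) le_rfl (by omega)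
      (by
        have e : 2 * 2 ^ l - 1 = 2 * k + 1 := by omega
        rw [e, hk]
        omega)
      (by
        have e : 2 * 2 ^ l - 1 = 2 * k + 1 := by omega
        rw [e, hk]
        nlinarith [sq_nonneg (k + 1)])
      (odd_sg hl) (by norm_num) K
    rw [countP_seedF] at h1
    refine ⟨T, ?_, ?_⟩
    · have e : (8 - 2 * 2) * 4 ^ l = 2 ^ (2 * l + 2) := by
        rw [show (4 : ℕ) = 2 ^ 2 by norm_num, ← pow_mul, pow_add]
        ring
      rwa [e] at h1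
    · have e1 : 2 ^ l * (4 * l - 1 + 1) - 1 = 4 * l * 2 ^ l - 1 := by
        rw [Nat.sub_add_cancel (by omega)]
        ring_nf
      have e2 : 2 * (2 * 2 ^ l) = 4 * 2 ^ l := by ring
      have e3 : 2 * 2 ^ l * 8 = 2 ^ (l + 4) := by
        rw [pow_add]
        ring
      rwa [e1, e2, e3] at h2
  have hpos : 0 < 2 ^ l := by positivity
  have hs1 : 1 ≤ 4 * l * 2 ^ l - 1 := by
    have : 1 * 1 ≤ l * 2 ^ l := Nat.mul_le_mul hl hpos
    have : 4 * l * 2 ^ l = 4 * (l * 2 ^ l) := by ring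
    omega
  refine growth (s := 4 * l * 2 ^ l - 1) hs1 (by positivity) ?_ (by positivity) hsys hb ?_
  · calc 2 = 2 ^ 1 := by norm_num
      _ ≤ 2 ^ (l + 4) := Nat.pow_le_pow_right (by norm_num) (by omega)
  · rw [← pow_mul, ← pow_mul]
    exact Nat.pow_lt_pow_right (by norm_num) h

/-- the exponent tends to `3 / 2` with an error `O(1 / s)` -/
theorem main_fast (s : ℕ) (hs : 3 ≤ s) :
    ∃ n₀ : ℕ, ∀ n ≥ n₀, (n : ℝ) ^ (3 / 2 - 7 / ((s : ℝ) + 3)) ≤ Psi s n := by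
  obtain ⟨l, hl⟩ : ∃ l, l = (s + 1) / 4 := ⟨_, rfl⟩
  have h1 : 1 ≤ l := by omega
  have h2 : 4 * l - 1 ≤ s := by omega
  have h3 : s ≤ 4 * l + 2 := by omega
  obtain ⟨d, hd⟩ : ∃ d, 3 * s = d + 5 := ⟨3 * s - 5, by omega⟩
  obtain ⟨n₀, hn₀⟩ := frac_fast l h1 (a := d) (b := 2 * (s + 3)) (by omega) (by nlinarith)
  refine ⟨n₀, fun n hn => ?_⟩
  have h := hn₀ n hn s h2
  have e : (3 / 2 - 7 / ((s : ℝ) + 3)) = (d : ℝ) / ((2 * (s + 3) : ℕ) : ℝ) := by
    have hd' : (3 : ℝ) * s = d + 5 := by exact_mod_cast hd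
    have hpos : (s : ℝ) + 3 ≠ 0 := by positivity
    push_cast
    rw [div_sub_div _ _ two_ne_zero hpos]
    congr 1
    linarith
  rw [e]
  exact h

theorem exists_level (s : ℕ) (hs : 7 ≤ s) :
    ∃ l, 1 ≤ l ∧ 4 * l * 2 ^ l ≤ s + 1 ∧ s + 1 < 4 * (l + 1) * 2 ^ (l + 1) := by
  have hex : ∃ l, s + 1 < 4 * (l + 1) * 2 ^ (l + 1) := by
    refine ⟨s, ?_⟩
    have h1 : 1 ≤ 2 ^ (s + 1) := Nat.one_le_two_pow
    calc s + 1 < 4 * (s + 1) * 1 := by omega
      _ ≤ 4 * (s + 1) * 2 ^ (s + 1) := Nat.mul_le_mul_left _ h1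
  classical
  have h1 := Nat.find_spec hex
  set l := Nat.find hex with hl
  have hl0 : l ≠ 0 := by
    intro h0
    rw [h0] at h1
    norm_num at h1
    omega
  refine ⟨l, by omega, ?_, h1⟩
  have h2 := Nat.find_min hex (m := l - 1) (by omega)
  rw [not_lt, show l - 1 + 1 = l by omega] at h2
  exact h2

theorem log_lt (l s : ℕ) (hl : 1 ≤ l) (hs : 0 < s) (h : s + 1 < 4 * (l + 1) * 2 ^ (l + 1)) :
    6 * Real.log s < 5 * ((l : ℝ) + 4) := by
  have h0 : (0 : ℝ) < s := by exact_mod_cast hs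
  have h1 : (s : ℝ) < 4 * ((l : ℝ) + 1) * 2 ^ (l + 1) := by
    have : ((s : ℕ) : ℝ) < ((4 * (l + 1) * 2 ^ (l + 1) : ℕ) : ℝ) := by
      exact_mod_cast (by omega : s < 4 * (l + 1) * 2 ^ (l + 1))
    push_cast at this
    exact this
  have hl0 : (0 : ℝ) < (l : ℝ) + 1 := by positivity
  have h2 : Real.log s < Real.log (4 * ((l : ℝ) + 1) * 2 ^ (l + 1)) := Real.log_lt_log h0 h1
  have h3 : Real.log (4 * ((l : ℝ) + 1) * 2 ^ (l + 1)) =
      ((l : ℝ) + 3) * Real.log 2 + Real.log ((l : ℝ) + 1) := by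
    rw [Real.log_mul (by positivity) (by positivity), Real.log_mul (by norm_num) hl0.ne',
      Real.log_pow, show (4 : ℝ) = 2 ^ 2 by norm_num, Real.log_pow]
    push_cast
    ring
  have h4 : Real.log ((l : ℝ) + 1) ≤ 3 * Real.log 2 + (((l : ℝ) + 1) / 8 - 1) := by
    have h5 := Real.log_le_sub_one_of_pos (x := ((l : ℝ) + 1) / 8) (by positivity)
    rw [Real.log_div hl0.ne' (by norm_num), show (8 : ℝ) = 2 ^ 3 by norm_num, Real.log_pow] at h5
    push_cast at h5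
    norm_num at h5 ⊢
    linarith
  have h6 := Real.log_two_lt_d9
  have h7 : (1 : ℝ) ≤ l := by exact_mod_cast hl
  nlinarith

/-- the exponent tends to `2` as `s` grows -/
theorem main_slow (s : ℕ) (hs : 7 ≤ s) :
    ∃ n₀ : ℕ, ∀ n ≥ n₀, (n : ℝ) ^ (2 - 5 / Real.log s) ≤ Psi s n := by
  obtain ⟨l, hl, h1, h2⟩ := exists_level s hs
  have hlog : 0 < Real.log s := Real.log_pos (by exact_mod_cast (by omega : 1 < s))
  have h3 := log_lt l s hl (by omega) h2
  have hl0 : (0 : ℝ) < (l : ℝ) + 4 := by positivity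
  have h4 : max (2 - 5 / Real.log s) 0 < (2 * (l : ℝ) + 2) / ((l : ℝ) + 4) := by
    apply max_lt
    · rw [lt_div_iff₀ hl0, sub_mul, div_mul_eq_mul_div, sub_lt_iff_lt_add, ← sub_lt_iff_lt_add',
        lt_div_iff₀ hlog]
      nlinarith
    · positivity
  obtain ⟨r, h5, h6⟩ := exists_rat_btwn h4
  have h7 : (0 : ℝ) < r := (le_max_right _ _).trans_lt h5
  have h7' : 0 < r := by exact_mod_cast h7
  have h8 : (r : ℝ) = ((r.num.toNat : ℕ) : ℝ) / ((r.den : ℕ) : ℝ) := by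
    have e1 : ((r.num.toNat : ℕ) : ℤ) = r.num := Int.toNat_of_nonneg (Rat.num_pos.2 h7').le
    have e2 : ((r.num.toNat : ℕ) : ℝ) = (r.num : ℝ) := by exact_mod_cast congrArg (Int.cast (R := ℝ)) e1
    rw [e2]
    exact_mod_cast (Rat.num_div_den r).symm
  have hden : (0 : ℝ) < ((r.den : ℕ) : ℝ) := by exact_mod_cast r.den_pos
  obtain ⟨n₀, hn₀⟩ := frac_slow l hl (a := r.num.toNat) (b := r.den) r.den_pos (by
    rw [h8, div_lt_div_iff₀ hden hl0] at h6
    have h9 : ((((l + 4) * r.num.toNat : ℕ)) : ℝ) < (((2 * l + 2) * r.den : ℕ) : ℝ) := by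
      push_cast
      linarith
    exact_mod_cast h9)
  refine ⟨max n₀ 1, fun n hn => ?_⟩
  have h := hn₀ n ((le_max_left _ _).trans hn) s (by omega)
  rw [← h8] at h
  refine le_trans (Real.rpow_le_rpow_of_exponent_le ?_ ((le_max_left _ _).trans h5.le)) h
  exact_mod_cast (le_max_right n₀ 1).trans hn

end LevelRec
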