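import Pool.Agent.LevelRec.SeedChk
import Pool.Agent.LevelRec.Main

/-!
# The lower bound for every `s ≥ 1`
-/

namespace LevelRec

open LevelLower

/-- roles by numbers: side `false` has the numbers `0..9` (`2 * class + index`), side `true` the
numbers `10..19` -/
def rl33 (n : ℕ) : Role 5 2 := (decide (10 ≤ n), Fin.ofNat 5 ((n % 10) / 2), Fin.ofNat 2 (n % 2))

/-- a seed with `10 + 10` roles and `33` exchanges, every role is used at most `5` times -/
def seed33 : List (SStep (Role 5 2)) :=
  ([(1, 18), (18, 16), (0, 18), (3, 0), (5, 3), (7, 5), (5, 1), (1, 19), (3, 1), (1, 17), (17, 14),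
    (19, 17), (0, 19), (19, 15), (15, 12), (17, 15), (15, 13), (13, 10), (14, 13), (18, 14),
    (14, 11), (16, 14), (2, 16), (16, 15), (4, 16), (6, 4), (9, 6), (6, 2), (2, 18), (4, 17),
    (8, 4), (4, 2), (2, 19)] : List (ℕ × ℕ)).map (fun e => ((rl33 e.1, rl33 e.2), true))

set_option maxRecDepth 100000 in
theorem seed33_seed : Seed 5 2 5 1 seed33 := by
  refine ⟨by decide +kernel, by decide +kernel, by decide +kernel, by decide +kernel, ?_,
    by decide +kernel⟩
  have : ∀ r r' : Role 5 2, Prec r r' → gph 1 r r' y0 1 seed33 ≤ 1 + 1 := by decide +kernel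
  exact fun r r' h => sac_of_gph _ _ _ (this r r' h)

theorem countP_seed33 : seed33.countP (fun e => e.2) = 33 := by decide +kernel

theorem sys33 (K : ℕ) : ∃ T, 33 * 4059 ^ K ≤ T ∧ HasSys2 1 (20 * 1410 ^ K) T := by
  have h := main_rec (X := 141) (c0 := 2) (c1 := 2) (w := 9) (N₀ := 25) (N₁ := 1) (q := 1)
    (m' := 2) seed33_seed (by norm_num) (by norm_num) (by norm_num) (by norm_num) (by norm_num)
    (by norm_num) (by norm_num) (by norm_num) (by norm_num) odd_one (by norm_num) K
  rw [countP_seed33] at h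
  norm_num at h
  exact h

/-- **Lower bound for the complexity of a level**, for every `s ≥ 1`. -/
theorem main_one : ∃ n₀ : ℕ, ∀ n ≥ n₀, ∀ s ≥ 1, (n : ℝ) ^ (8 / 7 : ℝ) ≤ Psi s n := by
  obtain ⟨n₀, h⟩ := growth (s := 1) (h := 20) (H := 1410) (R := 4059) (C := 33) (a := 8) (b := 7)
    le_rfl (by norm_num) (by norm_num) (by norm_num) sys33 (by norm_num) (by norm_num)
  refine ⟨n₀, fun n hn s hs => ?_⟩
  have := h n hn s hs
  push_cast at this
  exact this

end LevelRec
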