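import Pool.Agent.LevelRec.Defs

/-!
# Cardinalities of blocks and groups (module B)
-/

namespace LevelRec

open LevelLower

theorem zeta_congr {g : ℕ} (al : ℕ → Fin g → ℤ) (D c0 : ℕ) :
    ∀ (k : ℕ) (κ κ' : ℕ → Fin g) (t : ℕ), (∀ i, i < k → κ i = κ' i) →
      zeta al D c0 k κ t = zeta al D c0 k κ' t
  | 0, _, _, _, _ => rfl
  | k + 1, κ, κ', t, h => by
    have h1 : κ k = κ' k := h k (Nat.lt_succ_self k)
    have h2 := zeta_congr al D c0 k κ κ' (D * t + c0) (fun i hi => h i (Nat.lt_succ_of_lt hi))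
    simp only [zeta, h1, h2]

/-- Module B -/
theorem sum_zeta {g : ℕ} {al : ℕ → Fin g → ℤ} (D c0 : ℕ) (hal : ∀ k, ∑ i, al k i = 0)
    (P : ℕ → Fin g) (k t : ℕ) :
    ∑ f : Fin k → Fin g, zeta al D c0 k (glue k f P) t = 0 := by
  induction k generalizing t with
  | zero => simp [zeta]
  | succ k ih =>
    rw [← (Fin.snocEquiv (fun _ : Fin (k + 1) => Fin g)).sum_comp, Fintype.sum_prod_type]
    have key : ∀ (a : Fin g) (f : Fin k → Fin g),
        zeta al D c0 (k + 1) (glue (k + 1)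
          ((Fin.snocEquiv (fun _ : Fin (k + 1) => Fin g)) (a, f)) P) t =
        t * al k a + zeta al D c0 k (glue k f P) (D * t + c0) := by
      intro a f
      have h1 : glue (k + 1) ((Fin.snocEquiv (fun _ : Fin (k + 1) => Fin g)) (a, f)) P k = a := by
        rw [glue_lt _ _ (Nat.lt_succ_self k)]
        change (Fin.snoc (α := fun _ : Fin (k + 1) => Fin g) f a) (Fin.last k) = a
        exact Fin.snoc_last _ _
      have h2 : zeta al D c0 k (glue (k + 1)
          ((Fin.snocEquiv (fun _ : Fin (k + 1) => Fin g)) (a, f)) P) (D * t + c0) =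
          zeta al D c0 k (glue k f P) (D * t + c0) := by
        apply zeta_congr
        intro i hi
        rw [glue_lt _ _ (Nat.lt_succ_of_lt hi), glue_lt _ _ hi]
        change (Fin.snoc (α := fun _ : Fin (k + 1) => Fin g) f a)
          (Fin.castSucc (⟨i, hi⟩ : Fin k)) = f ⟨i, hi⟩
        exact Fin.snoc_castSucc _ _ _
      simp only [zeta, h1, h2]
    have e : ∀ a : Fin g, ∑ f : Fin k → Fin g, zeta al D c0 (k + 1) (glue (k + 1)
          ((Fin.snocEquiv (fun _ : Fin (k + 1) => Fin g)) (a, f)) P) t =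
        (Fintype.card (Fin k → Fin g) : ℤ) * (t * al k a) := by
      intro a
      rw [Finset.sum_congr rfl (fun f _ => key a f), Finset.sum_add_distrib, ih,
        Finset.sum_const, add_zero, nsmul_eq_mul]
      rfl
    rw [Finset.sum_congr rfl (fun a _ => e a), ← Finset.mul_sum, ← Finset.mul_sum, hal]
    simp

/-- the cardinality of a box -/
theorem card_box_eq {g : ℕ} (b : Bool) (P : ℕ → Fin g) (k : ℕ) (A B : (ℕ → Fin g) → ℤ)
    (h : ∀ κ, A κ ≤ B κ) :
    ((box b P k A B).card : ℤ) = ∑ f : Fin k → Fin g, (B (glue k f P) - A (glue k f P)) := by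
  rw [card_box, Nat.cast_sum]
  refine Finset.sum_congr rfl fun f _ => ?_
  exact Int.toNat_of_nonneg (sub_nonneg.mpr (h _))

namespace Prm

variable (p : Prm)

theorem W_nonneg (k : ℕ) : 0 ≤ p.W k := by
  unfold W
  positivity

theorem W_succ (k : ℕ) : p.W (k + 1) = p.X * (p.m * p.W k) := by
  unfold W
  rw [pow_succ]
  push_cast
  ring

theorem card_fun (k : ℕ) : ((Finset.univ : Finset (Fin k → Fin p.g)).card : ℤ) =
    (p.g : ℤ) ^ k := by
  rw [Finset.card_univ, Fintype.card_fun, Fintype.card_fin, Fintype.card_fin]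
  push_cast
  rfl

/-- Module B: all blocks of level `k` have the same number of curves -/
theorem card_blk (hal : ∀ k, ∑ i, p.al k i = 0) (b : Bool) (P : ℕ → Fin p.g) (k : ℕ) (lam : ℤ)
    (T : ℕ) : ((p.blk b P k lam T).card : ℤ) = (p.g : ℤ) ^ k * p.W k := by
  have _ := hal
  have hW := p.W_nonneg k
  unfold blk
  rw [card_box_eq _ _ _ _ _ (fun κ => by linarith), ← p.card_fun k]
  rw [Finset.sum_congr rfl (fun f _ => (by ring : _ = p.W k)), Finset.sum_const, nsmul_eq_mul]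

/-- Module B -/
theorem card_grp (hal : ∀ k, ∑ i, p.al k i = 0) (b : Bool) (P : ℕ → Fin p.g) (k : ℕ) (mu : ℤ)
    (t : ℕ) : ((p.grp b P k mu t).card : ℤ) = (p.g : ℤ) ^ (k + 1) * (p.m * p.W k) := by
  have _ := hal
  have hW := mul_nonneg (Int.natCast_nonneg p.m) (p.W_nonneg k)
  unfold grp
  rw [card_box_eq _ _ _ _ _ (fun κ => by linarith), ← p.card_fun (k + 1)]
  rw [Finset.sum_congr rfl (fun f _ => (by ring : _ = (p.m : ℤ) * p.W k)), Finset.sum_const,
    nsmul_eq_mul]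

/-- the lowest part of a block of level `k + 1` at clock `t` -/
noncomputable def bot (b : Bool) (P : ℕ → Fin p.g) (k : ℕ) (lam : ℤ) (T t : ℕ) :
    Finset (Cur p.g) :=
  box b P (k + 1) (fun κ => lam - zeta p.al p.D p.c0 (k + 1) κ (p.D * T + p.c0))
    (fun κ => lam + p.w * (p.m * p.W k) - zeta p.al p.D p.c0 (k + 1) κ t)

/-- `i` consecutive groups, starting with the group `j` -/
noncomputable def mid (b : Bool) (P : ℕ → Fin p.g) (k : ℕ) (lam : ℤ) (t j i : ℕ) :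
    Finset (Cur p.g) :=
  box b P (k + 1) (fun κ => lam + j * (p.m * p.W k) - zeta p.al p.D p.c0 (k + 1) κ t)
    (fun κ => lam + ((j + i : ℕ) : ℤ) * (p.m * p.W k) - zeta p.al p.D p.c0 (k + 1) κ t)

/-- the highest part of a block of level `k + 1` at clock `t` -/
noncomputable def top (b : Bool) (P : ℕ → Fin p.g) (k : ℕ) (lam : ℤ) (T t : ℕ) :
    Finset (Cur p.g) :=
  box b P (k + 1) (fun κ => lam + ((p.X : ℤ) - p.w) * (p.m * p.W k) -
      zeta p.al p.D p.c0 (k + 1) κ t)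
    (fun κ => lam + p.W (k + 1) - zeta p.al p.D p.c0 (k + 1) κ (p.D * T + p.c0))

/-- Module B: the parts of a block -/
theorem blk_eq (hX : 2 * p.w ≤ p.X)
    (hshift : ∀ k κ T t, p.D * T ≤ t → t < p.D * (T + 1) →
      |zeta p.al p.D p.c0 (k + 1) κ t - zeta p.al p.D p.c0 (k + 1) κ (p.D * T + p.c0)| ≤
        p.w * (p.m * p.W k))
    (b : Bool) (P : ℕ → Fin p.g) (k : ℕ) (lam : ℤ) {T t : ℕ} (h1 : p.D * T ≤ t)
    (h2 : t < p.D * (T + 1)) : p.blk b P (k + 1) lam T =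
      p.bot b P k lam T t ∪ (p.mid b P k lam t p.w (p.X - 2 * p.w) ∪ p.top b P k lam T t) := by
  ext c
  have hs := abs_le.mp (hshift k c.ka T t h1 h2)
  have hM : 0 ≤ (p.m : ℤ) * p.W k := mul_nonneg (Int.natCast_nonneg p.m) (p.W_nonneg k)
  have hcast : ((p.w + (p.X - 2 * p.w) : ℕ) : ℤ) = (p.X : ℤ) - p.w := by omega
  have hXz : 2 * (p.w : ℤ) ≤ p.X := by exact_mod_cast hX
  have hmul : 2 * (p.w : ℤ) * (p.m * p.W k) ≤ p.X * (p.m * p.W k) :=
    mul_le_mul_of_nonneg_right hXz hM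
  rw [Finset.mem_union, Finset.mem_union]
  unfold blk bot mid top
  simp only [mem_box]
  rw [hcast, p.W_succ k]
  set z := zeta p.al p.D p.c0 (k + 1) c.ka t with hz
  set z0 := zeta p.al p.D p.c0 (k + 1) c.ka (p.D * T + p.c0) with hz0
  set M := (p.m : ℤ) * p.W k with hMdef
  have e : ((p.X : ℤ) - p.w) * M = p.X * M - p.w * M := by ring
  have e2 : 2 * (p.w : ℤ) * M = p.w * M + p.w * M := by ring
  rw [e2] at hmul
  rw [e]
  set wM := (p.w : ℤ) * M with hwM
  set XM := (p.X : ℤ) * M with hXM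
  constructor
  · rintro ⟨ha, hb, hc, hd⟩
    rcases lt_or_ge c.rh (lam + wM - z) with h | h
    · exact Or.inl ⟨ha, hb, hc, h⟩
    · rcases lt_or_ge c.rh (lam + (XM - wM) - z) with h' | h'
      · exact Or.inr (Or.inl ⟨ha, hb, h, h'⟩)
      · exact Or.inr (Or.inr ⟨ha, hb, h', hd⟩)
  · rintro (⟨ha, hb, hc, hd⟩ | ⟨ha, hb, hc, hd⟩ | ⟨ha, hb, hc, hd⟩)
    · exact ⟨ha, hb, hc, by linarith [hs.1, hs.2]⟩
    · exact ⟨ha, hb, by linarith [hs.1, hs.2], by linarith [hs.1, hs.2]⟩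
    · exact ⟨ha, hb, by linarith [hs.1, hs.2], hd⟩

/-- Module B -/
theorem card_bot (hal : ∀ k, ∑ i, p.al k i = 0) (hX : 2 * p.w ≤ p.X)
    (hshift : ∀ k κ T t, p.D * T ≤ t → t < p.D * (T + 1) →
      |zeta p.al p.D p.c0 (k + 1) κ t - zeta p.al p.D p.c0 (k + 1) κ (p.D * T + p.c0)| ≤
        p.w * (p.m * p.W k))
    (b : Bool) (P : ℕ → Fin p.g) (k : ℕ) (lam : ℤ) {T t : ℕ} (h1 : p.D * T ≤ t)
    (h2 : t < p.D * (T + 1)) :
    ((p.bot b P k lam T t).card : ℤ) = (p.g : ℤ) ^ (k + 1) * (p.w * (p.m * p.W k)) := by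
  have _ := hX
  unfold bot
  rw [card_box_eq _ _ _ _ _ (fun κ => by
    have hs := abs_le.mp (hshift k κ T t h1 h2)
    linarith [hs.1, hs.2]), ← p.card_fun (k + 1)]
  have e : ∀ f : Fin (k + 1) → Fin p.g,
      (lam + p.w * (p.m * p.W k) - zeta p.al p.D p.c0 (k + 1) (glue (k + 1) f P) t) -
        (lam - zeta p.al p.D p.c0 (k + 1) (glue (k + 1) f P) (p.D * T + p.c0)) =
      (p.w * (p.m * p.W k) + zeta p.al p.D p.c0 (k + 1) (glue (k + 1) f P) (p.D * T + p.c0)) -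
        zeta p.al p.D p.c0 (k + 1) (glue (k + 1) f P) t := fun f => by ring
  rw [Finset.sum_congr rfl (fun f _ => e f), Finset.sum_sub_distrib, Finset.sum_add_distrib,
    sum_zeta _ _ hal, sum_zeta _ _ hal, Finset.sum_const, nsmul_eq_mul]
  ring

/-- Module B -/
theorem card_top (hal : ∀ k, ∑ i, p.al k i = 0) (hX : 2 * p.w ≤ p.X)
    (hshift : ∀ k κ T t, p.D * T ≤ t → t < p.D * (T + 1) →
      |zeta p.al p.D p.c0 (k + 1) κ t - zeta p.al p.D p.c0 (k + 1) κ (p.D * T + p.c0)| ≤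
        p.w * (p.m * p.W k))
    (b : Bool) (P : ℕ → Fin p.g) (k : ℕ) (lam : ℤ) {T t : ℕ} (h1 : p.D * T ≤ t)
    (h2 : t < p.D * (T + 1)) :
    ((p.top b P k lam T t).card : ℤ) = (p.g : ℤ) ^ (k + 1) * (p.w * (p.m * p.W k)) := by
  have _ := hX
  unfold top
  rw [card_box_eq _ _ _ _ _ (fun κ => by
    have hs := abs_le.mp (hshift k κ T t h1 h2)
    rw [p.W_succ k]
    have e : ((p.X : ℤ) - p.w) * (p.m * p.W k) =
      p.X * (p.m * p.W k) - p.w * (p.m * p.W k) := by ring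
    rw [e]
    linarith [hs.1, hs.2]), ← p.card_fun (k + 1)]
  have e : ∀ f : Fin (k + 1) → Fin p.g,
      (lam + p.W (k + 1) - zeta p.al p.D p.c0 (k + 1) (glue (k + 1) f P) (p.D * T + p.c0)) -
        (lam + ((p.X : ℤ) - p.w) * (p.m * p.W k) -
          zeta p.al p.D p.c0 (k + 1) (glue (k + 1) f P) t) =
      (p.w * (p.m * p.W k) + zeta p.al p.D p.c0 (k + 1) (glue (k + 1) f P) t) -
        zeta p.al p.D p.c0 (k + 1) (glue (k + 1) f P) (p.D * T + p.c0) := fun f => by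
    rw [p.W_succ k]; ring
  rw [Finset.sum_congr rfl (fun f _ => e f), Finset.sum_sub_distrib, Finset.sum_add_distrib,
    sum_zeta _ _ hal, sum_zeta _ _ hal, Finset.sum_const, nsmul_eq_mul]
  ring

end Prm

end LevelRec
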