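import Pool.Agent.LevelLower.Cert

/-!
# Recursive exchange systems: definitions

A *trace* is a list of exchanges `(up, down)`; a *state* is a function with values `0` (below the
gap) and `1` (above the gap).
-/

namespace LevelRec

open LevelLower

section trace

variable {V : Type} [DecidableEq V]

/-- one exchange: `e.1` goes up, `e.2` goes down -/
def stp (x : V → ℤ) (e : V × V) : V → ℤ := fun c => if c = e.1 then 1 else if c = e.2 then 0 else x c

/-- the last state of a trace -/
def run (x : V → ℤ) : List (V × V) → V → ℤ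
  | [] => x
  | e :: L => run (stp x e) L

/-- the states after each step -/
def posts (x : V → ℤ) : List (V × V) → List (V → ℤ)
  | [] => []
  | e :: L => stp x e :: posts (stp x e) L

/-- every step exchanges a curve below the gap with one above it -/
def Valid (x : V → ℤ) : List (V × V) → Prop
  | [] => True
  | e :: L => x e.1 = 0 ∧ x e.2 = 1 ∧ Valid (stp x e) L

/-- the curves of `U` are below the gap, those of `W` above it -/
def Ini (U W : Finset V) (x : V → ℤ) : Prop := (∀ c ∈ U, x c = 0) ∧ ∀ c ∈ W, x c = 1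

/-- the trace `L` exchanges `U` with `W` -/
structure XT (U W : Finset V) (L : List (V × V)) : Prop where
  supp : ∀ e ∈ L, (e.1 ∈ U ∨ e.1 ∈ W) ∧ (e.2 ∈ U ∨ e.2 ∈ W)
  ok : ∀ x, Ini U W x → Valid x L ∧ Ini W U (run x L)

/-- sign certificate for a pair -/
def Crt (U W : Finset V) (L : List (V × V)) (u v : V) (a b : ℕ) : Prop :=
  ∀ x, Ini U W x → AC (fun y : V → ℤ => y u - y v) a b (posts x L)

/-- `u` is never above the gap when `v` is below it (after the first step) -/
def Le (U W : Finset V) (L : List (V × V)) (u v : V) : Prop :=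
  ∀ x, Ini U W x → ∀ y ∈ posts x L, y u ≤ y v

end trace

/-- A curve: side, classes at the levels `0, 1, ...`, intercept. -/
@[ext] structure Cur (g : ℕ) where
  sd : Bool
  ka : ℕ → Fin g
  rh : ℤ

noncomputable instance (g : ℕ) : DecidableEq (Cur g) := Classical.decEq _

/-- Phase functions for a pair: `D` is the difference of the heights as a function of the clock,
`w` the width of a group. -/
structure Phs (D : ℕ → ℤ) (w : ℤ) (sg : ℕ) (φ : ℕ → ℕ) : Prop where
  mono : Monotone φ
  neg : ∀ t, D t ≤ 0 → ∃ p, Odd p ∧ φ t ≤ p ∧ p ≤ φ (t + 1)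
  pos : ∀ t, 0 ≤ D t → ∃ p, Even p ∧ φ t ≤ p ∧ p ≤ φ (t + 1)
  top : ∀ t, |D t| < w → Odd (φ t) ∧ φ t + sg ≤ φ (t + 1)

/-- the part of the height that depends on the classes; `D` = length of the clock at each level,
`c0` = the central value of the clock -/
def zeta {g : ℕ} (al : ℕ → Fin g → ℤ) (D c0 : ℕ) : ℕ → (ℕ → Fin g) → ℕ → ℤ
  | 0, _, _ => 0
  | k + 1, κ, t => t * al k (κ k) + zeta al D c0 k κ (D * t + c0)

/-- the parameters of a construction -/
structure Prm where
  /-- number of classes -/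
  g : ℕ
  /-- parallel roles in each class -/
  m : ℕ
  /-- groups in a block -/
  X : ℕ
  /-- groups lost on either end -/
  w : ℕ
  /-- length of the clock -/
  D : ℕ
  /-- central value of the clock -/
  c0 : ℕ
  /-- crossings of a pair of roles -/
  sg : ℕ
  /-- speeds -/
  al : ℕ → Fin g → ℤ

/-- a role: side, class, index -/
abbrev Role (g m : ℕ) := Bool × Fin g × Fin m

namespace Prm

variable (p : Prm)

/-- the width of a block of level `k` -/
def W (k : ℕ) : ℤ := ((p.X * p.m : ℕ) : ℤ) ^ k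

/-- the height of a curve at level `k` and clock `t` -/
def Z (k : ℕ) (c : Cur p.g) (t : ℕ) : ℤ := c.rh + zeta p.al p.D p.c0 k c.ka t

/-- phase functions of a pair at level `k`; the first curve is the faster one -/
def Good : (k : ℕ) → Cur p.g → Cur p.g → (ℕ → ℕ) → Prop
  | 0, _, _, _ => False
  | k + 1, u, v, ψ =>
    (v.ka k < u.ka k ∧ Phs (fun t => p.Z (k + 1) u t - p.Z (k + 1) v t) (p.m * p.W k) p.sg ψ) ∨
    (u.ka k = v.ka k ∧ ∃ ψ', Good k u v ψ' ∧ ∀ t, ψ t = ψ' (p.D * t))

/-- the pair condition at level `k` and clock `t` for two curves of the same set -/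
def PP (k t : ℕ) (U W : Finset (Cur p.g)) (L : List (Cur p.g × Cur p.g)) (u v : Cur p.g) :
    Prop :=
  (∀ ψ, p.Good k u v ψ → Crt U W L u v (ψ t) (ψ (t + 1))) ∧
  (u.ka = v.ka → u.rh ≤ v.rh → Le U W L u v)

/-- the trace `L` exchanges `U` with `W`, with the pair conditions at level `k` and the clocks `t`
for `U` and `t'` for `W` -/
structure Spec (k t t' : ℕ) (U W : Finset (Cur p.g)) (L : List (Cur p.g × Cur p.g)) : Prop where
  xt : XT U W L
  cross : ∀ u ∈ U, ∀ v ∈ W, ∀ a, Odd a → Crt U W L u v a (a + p.sg)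
  ppU : ∀ u ∈ U, ∀ v ∈ U, p.PP k t U W L u v
  ppW : ∀ u ∈ W, ∀ v ∈ W, p.PP k t' U W L u v

end Prm

/-- glue the classes below `k` with the tail `P` -/
def glue {g : ℕ} (k : ℕ) (f : Fin k → Fin g) (P : ℕ → Fin g) : ℕ → Fin g :=
  fun i => if h : i < k then f ⟨i, h⟩ else P i

theorem glue_lt {g k : ℕ} (f : Fin k → Fin g) (P : ℕ → Fin g) {i : ℕ} (h : i < k) :
    glue k f P i = f ⟨i, h⟩ := dif_pos h

theorem glue_ge {g k : ℕ} (f : Fin k → Fin g) (P : ℕ → Fin g) {i : ℕ} (h : k ≤ i) :
    glue k f P i = P i := dif_neg (by omega)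

theorem glue_inj {g k : ℕ} (P : ℕ → Fin g) : Function.Injective (fun f => glue (g := g) k f P) := by
  intro f f' h
  funext i
  have := congrFun h i
  simpa [glue] using this

/-- all curves of side `b` with tail `P` above `k` and intercept in `[A, B)` -/
noncomputable def box {g : ℕ} (b : Bool) (P : ℕ → Fin g) (k : ℕ) (A B : (ℕ → Fin g) → ℤ) :
    Finset (Cur g) :=
  ((Finset.univ : Finset (Fin k → Fin g)).sigma (fun f => Finset.Ico (A (glue k f P))
    (B (glue k f P)))).image (fun q => ⟨b, glue k q.1 P, q.2⟩)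

theorem mem_box {g : ℕ} {b : Bool} {P : ℕ → Fin g} {k : ℕ} {A B : (ℕ → Fin g) → ℤ} {c : Cur g} :
    c ∈ box b P k A B ↔ c.sd = b ∧ (∀ i, k ≤ i → c.ka i = P i) ∧ A c.ka ≤ c.rh ∧
      c.rh < B c.ka := by
  unfold box
  simp only [Finset.mem_image, Finset.mem_sigma, Finset.mem_univ, true_and, Finset.mem_Ico]
  constructor
  · rintro ⟨⟨f, r⟩, ⟨h1, h2⟩, rfl⟩
    exact ⟨rfl, fun i hi => glue_ge f P hi, h1, h2⟩
  · rintro ⟨h1, h2, h3, h4⟩
    have e : glue k (fun i : Fin k => c.ka i) P = c.ka := by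
      funext i
      rcases lt_or_ge i k with h | h
      · rw [glue_lt _ _ h]
      · rw [glue_ge _ _ h, h2 i h]
    refine ⟨⟨fun i => c.ka i, c.rh⟩, ⟨?_, ?_⟩, ?_⟩
    · dsimp only
      rw [e]
      exact h3
    · dsimp only
      rw [e]
      exact h4
    · dsimp only
      rw [e, ← h1]

theorem card_box {g : ℕ} (b : Bool) (P : ℕ → Fin g) (k : ℕ) (A B : (ℕ → Fin g) → ℤ) :
    (box b P k A B).card = ∑ f : Fin k → Fin g, (B (glue k f P) - A (glue k f P)).toNat := by
  unfold box
  rw [Finset.card_image_of_injective, Finset.card_sigma]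
  · simp only [Int.card_Ico]
  · rintro ⟨f, r⟩ ⟨f', r'⟩ h
    simp only [Cur.mk.injEq, true_and] at h
    have := glue_inj P h.1
    obtain ⟨_, rfl⟩ := h
    subst this
    rfl

namespace Prm

variable (p : Prm)

/-- a block of level `k`: all curves of side `b` with tail `P` and height in `[lam, lam + W k)` at
the centre of the clock `T` -/
noncomputable def blk (b : Bool) (P : ℕ → Fin p.g) (k : ℕ) (lam : ℤ) (T : ℕ) :
    Finset (Cur p.g) :=
  box b P k (fun κ => lam - zeta p.al p.D p.c0 k κ (p.D * T + p.c0))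
    (fun κ => lam + p.W k - zeta p.al p.D p.c0 k κ (p.D * T + p.c0))

/-- a group of level `k`: all curves of side `b` with tail `P` and height in `[mu, mu + m * W k)`
at the clock `t` of level `k + 1` -/
noncomputable def grp (b : Bool) (P : ℕ → Fin p.g) (k : ℕ) (mu : ℤ) (t : ℕ) :
    Finset (Cur p.g) :=
  box b P (k + 1) (fun κ => mu - zeta p.al p.D p.c0 (k + 1) κ t)
    (fun κ => mu + p.m * p.W k - zeta p.al p.D p.c0 (k + 1) κ t)

theorem mem_blk {b : Bool} {P : ℕ → Fin p.g} {k : ℕ} {lam : ℤ} {T : ℕ} {c : Cur p.g} :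
    c ∈ p.blk b P k lam T ↔ c.sd = b ∧ (∀ i, k ≤ i → c.ka i = P i) ∧
      lam ≤ p.Z k c (p.D * T + p.c0) ∧ p.Z k c (p.D * T + p.c0) < lam + p.W k := by
  unfold blk Z
  rw [mem_box]
  constructor
  · rintro ⟨h1, h2, h3, h4⟩
    exact ⟨h1, h2, by omega, by omega⟩
  · rintro ⟨h1, h2, h3, h4⟩
    exact ⟨h1, h2, by omega, by omega⟩

theorem mem_grp {b : Bool} {P : ℕ → Fin p.g} {k : ℕ} {mu : ℤ} {t : ℕ} {c : Cur p.g} :
    c ∈ p.grp b P k mu t ↔ c.sd = b ∧ (∀ i, k + 1 ≤ i → c.ka i = P i) ∧
      mu ≤ p.Z (k + 1) c t ∧ p.Z (k + 1) c t < mu + p.m * p.W k := by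
  unfold grp Z
  rw [mem_box]
  constructor
  · rintro ⟨h1, h2, h3, h4⟩
    exact ⟨h1, h2, by omega, by omega⟩
  · rintro ⟨h1, h2, h3, h4⟩
    exact ⟨h1, h2, by omega, by omega⟩

end Prm

/-- An exchange of the seed: the role going up, the role going down, and whether it is expanded
recursively (pure) or by single exchanges. -/
abbrev SStep (R : Type) := (R × R) × Bool

/-- Sign certificate of a pair of roles along a seed: as `AC`, but a pure exchange of the pair
uses `sg` phases. -/
def SAC {R : Type} [DecidableEq R] (sg : ℕ) (r r' : R) : (R → ℤ) → ℕ → ℕ → List (SStep R) → Prop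
  | _, a, b, [] => a ≤ b
  | y, a, b, e :: S => ∃ a', a ≤ a' ∧ ((e.2 = true ∧ e.1 = (r, r')) → a + sg ≤ a') ∧
      0 ≤ (-1) ^ a' * (stp y e.1 r - stp y e.1 r') ∧ SAC sg r r' (stp y e.1) a' b S

/-- the precedence of roles -/
def Prec {g m : ℕ} (r r' : Role g m) : Prop :=
  (r.1 = false ∧ r'.1 = true) ∨ (r.1 = r'.1 ∧ r'.2.1 < r.2.1)

/-- the number of exchanges of a role -/
def cnt {R : Type} [DecidableEq R] (r : R) (S : List (SStep R)) : ℕ :=
  S.countP (fun e => decide (e.1.1 = r ∨ e.1.2 = r))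

/-- the first state of the roles -/
def y0 {g m : ℕ} : Role g m → ℤ := fun r => if r.1 then 1 else 0

/-- a seed: every role is used at most `D` times, a pair of roles crosses at most `sg` times -/
structure Seed (g m D sg : ℕ) (S : List (SStep (Role g m))) : Prop where
  valid : Valid y0 (S.map Prod.fst)
  last : ∀ r, run y0 (S.map Prod.fst) r = 1 - y0 r
  cnt_le : ∀ r, cnt r S ≤ D
  pure : ∀ e ∈ S, e.2 = true → Prec e.1.1 e.1.2
  sac : ∀ r r', Prec r r' → SAC sg r r' y0 1 (1 + sg) S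
  par : ∀ y ∈ posts y0 (S.map Prod.fst), ∀ b k, ∀ i j : Fin m, i ≤ j → y (b, k, i) ≤ y (b, k, j)

end LevelRec
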