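import Pool.Agent.LevelRec.Defs

/-!
# Expansion of a seed
-/

namespace LevelRec

open LevelLower

section basics

variable {V : Type} [DecidableEq V]

theorem xp_posts_append (x : V → ℤ) (L M : List (V × V)) :
    posts x (L ++ M) = posts x L ++ posts (run x L) M := by
  induction L generalizing x with
  | nil => rfl
  | cons e L ih => simp only [List.cons_append, posts, run, ih]

theorem xp_run_append (x : V → ℤ) (L M : List (V × V)) :
    run x (L ++ M) = run (run x L) M := by
  induction L generalizing x with
  | nil => rfl
  | cons e L ih => simp only [List.cons_append, run, ih]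

theorem xp_valid_append (x : V → ℤ) (L M : List (V × V)) (h : Valid x L)
    (h' : Valid (run x L) M) : Valid x (L ++ M) := by
  induction L generalizing x with
  | nil => exact h'
  | cons e L ih =>
    obtain ⟨h1, h2, h3⟩ := h
    exact ⟨h1, h2, ih _ h3 h'⟩

theorem xp_const (x : V → ℤ) (L : List (V × V)) (c : V) (hc : ∀ e ∈ L, e.1 ≠ c ∧ e.2 ≠ c) :
    run x L c = x c ∧ ∀ z ∈ posts x L, z c = x c := by
  induction L generalizing x with
  | nil => exact ⟨rfl, by simp [posts]⟩
  | cons e L ih =>
    obtain ⟨h1, h2⟩ := hc e (by simp)
    have h3 : stp x e c = x c := by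
      unfold stp
      rw [if_neg (Ne.symm h1), if_neg (Ne.symm h2)]
    obtain ⟨h4, h5⟩ := ih (stp x e) (fun e' he' => hc e' (by simp [he']))
    refine ⟨by rw [run, h4, h3], ?_⟩
    intro z hz
    rw [posts, List.mem_cons] at hz
    rcases hz with rfl | hz
    · exact h3
    · rw [h5 z hz, h3]

theorem xp_01 (x : V → ℤ) (L : List (V × V)) (c : V) (hc : x c = 0 ∨ x c = 1) :
    ∀ z ∈ posts x L, z c = 0 ∨ z c = 1 := by
  induction L generalizing x with
  | nil => simp [posts]
  | cons e L ih =>
    have h3 : stp x e c = 0 ∨ stp x e c = 1 := by
      unfold stp
      split_ifs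
      · exact Or.inr rfl
      · exact Or.inl rfl
      · exact hc
    intro z hz
    rw [posts, List.mem_cons] at hz
    rcases hz with rfl | hz
    · exact h3
    · exact ih (stp x e) h3 z hz

end basics

theorem xp_even {a : ℕ} (h : (0:ℤ) ≤ (-1) ^ a * 1) : Even a := by
  rcases Nat.even_or_odd a with ha | ha
  · exact ha
  · rw [ha.neg_one_pow] at h; omega

theorem xp_odd {a : ℕ} (h : (0:ℤ) ≤ (-1) ^ a * (-1)) : Odd a := by
  rcases Nat.even_or_odd a with ha | ha
  · rw [ha.neg_one_pow] at h; omega
  · exact ha

/-- nonnegative values, with an even phase at one of the ends -/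
theorem xp_nonneg {α : Type} {f : α → ℤ} {a b : ℕ} {L : List α} (hab : a ≤ b)
    (h : Even a ∨ Even b) (hf : ∀ z ∈ L, 0 ≤ f z) : AC f a b L := by
  rcases h with h | h
  · refine AC.const le_rfl hab (fun z hz => ?_)
    rw [h.neg_one_pow, one_mul]; exact hf z hz
  · refine AC.const hab le_rfl (fun z hz => ?_)
    rw [h.neg_one_pow, one_mul]; exact hf z hz

theorem xp_nonpos {α : Type} {f : α → ℤ} {a b : ℕ} {L : List α} (hab : a ≤ b)
    (h : Odd a ∨ Odd b) (hf : ∀ z ∈ L, f z ≤ 0) : AC f a b L := by
  rcases h with h | h
  · refine AC.const le_rfl hab (fun z hz => ?_)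
    rw [h.neg_one_pow]; have := hf z hz; omega
  · refine AC.const hab le_rfl (fun z hz => ?_)
    rw [h.neg_one_pow]; have := hf z hz; omega

/-- Module C: the expansion of a seed. `B r` = block of the role `r`, `n r` = number of exchanges
of `r` done so far (so `n r` is the clock of `B r`), `G r u v ψ` = `ψ` is a phase function for the
pair `u v` of `B r`, `Q r u v` = `u` and `v` are parallel curves of `B r`. -/
theorem expand {V R : Type} [DecidableEq V] [DecidableEq R] {D sg E : ℕ} {B : R → Finset V}
    (hB : ∀ r r', r ≠ r' → Disjoint (B r) (B r')) {G : R → V → V → (ℕ → ℕ) → Prop}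
    (hG : ∀ r u v ψ, G r u v ψ → Monotone ψ) {Q : R → V → V → Prop} (hsg : Odd sg)
    (hpure : ∀ p q : R, p ≠ q → ∀ n n', n < D → n' < D → ∃ L, XT (B p) (B q) L ∧ E ≤ L.length ∧
      (∀ u ∈ B p, ∀ v ∈ B q, ∀ a, Odd a → Crt (B p) (B q) L u v a (a + sg)) ∧
      (∀ u ∈ B p, ∀ v ∈ B p, (∀ ψ, G p u v ψ → Crt (B p) (B q) L u v (ψ n) (ψ (n + 1))) ∧
        (Q p u v → Le (B p) (B q) L u v)) ∧
      (∀ u ∈ B q, ∀ v ∈ B q, (∀ ψ, G q u v ψ → Crt (B p) (B q) L u v (ψ n') (ψ (n' + 1))) ∧
        (Q q u v → Le (B p) (B q) L u v)))
    (hsing : ∀ p q : R, p ≠ q → ∀ n n', n < D → n' < D → ∃ L, XT (B p) (B q) L ∧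
      (∀ u ∈ B p, ∀ v ∈ B q, ∀ a, Odd a → Crt (B p) (B q) L u v a (a + 1)) ∧
      (∀ u ∈ B p, ∀ v ∈ B p, (∀ ψ, G p u v ψ → Crt (B p) (B q) L u v (ψ n) (ψ (n + 1))) ∧
        (Q p u v → Le (B p) (B q) L u v)) ∧
      (∀ u ∈ B q, ∀ v ∈ B q, (∀ ψ, G q u v ψ → Crt (B p) (B q) L u v (ψ n') (ψ (n' + 1))) ∧
        (Q q u v → Le (B p) (B q) L u v)))
    (S : List (SStep R)) (y : R → ℤ) (hy : ∀ r, y r = 0 ∨ y r = 1)
    (hv : Valid y (S.map Prod.fst)) (n : R → ℕ) (hn : ∀ r, n r + cnt r S ≤ D) :
    ∃ L : List (V × V), (∀ e ∈ L, (∃ r, e.1 ∈ B r) ∧ ∃ r, e.2 ∈ B r) ∧
      S.countP (fun e => e.2) * E ≤ L.length ∧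
      ∀ x : V → ℤ, (∀ r, ∀ c ∈ B r, x c = y r) →
        Valid x L ∧ (∀ r, ∀ c ∈ B r, run x L c = run y (S.map Prod.fst) r) ∧
        (∀ r, ∀ u ∈ B r, ∀ v ∈ B r,
          (∀ ψ, G r u v ψ → AC (fun z : V → ℤ => z u - z v) (ψ (n r)) (ψ (n r + cnt r S))
            (posts x L)) ∧
          (Q r u v → ∀ z ∈ posts x L, z u ≤ z v)) ∧
        (∀ r r', r ≠ r' → ∀ u ∈ B r, ∀ v ∈ B r',
          (∀ a b, 0 ≤ (-1) ^ a * (y r - y r') →
            (∀ e ∈ S, e.2 = true → e.1 = (r', r) → False) → SAC sg r r' y a b S →
            AC (fun z : V → ℤ => z u - z v) a b (posts x L)) ∧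
          (y r ≤ y r' → (∀ z ∈ posts y (S.map Prod.fst), z r ≤ z r') →
            ∀ z ∈ posts x L, z u ≤ z v)) := by
  induction S generalizing y n with
  | nil =>
    refine ⟨[], by simp, by simp, ?_⟩
    intro x hx
    refine ⟨trivial, fun r c hc => hx r c hc, ?_, ?_⟩
    · intro r u hu v hv
      refine ⟨fun ψ hψ => .nil (hG r u v ψ hψ (Nat.le_add_right _ _)), ?_⟩
      intro _ z hz
      simp [posts] at hz
    · intro r r' hr u hu v hv
      refine ⟨fun a b _ _ h => .nil h, ?_⟩
      intro _ _ z hz
      simp [posts] at hz
  | cons s S ih =>
    obtain ⟨⟨p, q⟩, bl⟩ := s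
    simp only [List.map_cons, Valid] at hv
    obtain ⟨hyp, hyq, hv'⟩ := hv
    have hpq : p ≠ q := by
      rintro rfl
      rw [hyp] at hyq
      exact absurd hyq (by norm_num)
    set y' : R → ℤ := stp y (p, q) with hy'
    have hy'p : y' p = 1 := by simp [hy', stp]
    have hy'q : y' q = 0 := by simp [hy', stp, Ne.symm hpq]
    have hy'r : ∀ r, r ≠ p → r ≠ q → y' r = y r := by
      intro r h1 h2
      simp [hy', stp, h1, h2]
    have hy'01 : ∀ r, y' r = 0 ∨ y' r = 1 := by
      intro r
      by_cases h1 : r = p
      · subst h1; exact Or.inr hy'p
      · by_cases h2 : r = q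
        · subst h2; exact Or.inl hy'q
        · rw [hy'r r h1 h2]; exact hy r
    set n' : R → ℕ := fun r => n r + (if p = r ∨ q = r then 1 else 0) with hn'
    have hcnt : ∀ r, n' r + cnt r S = n r + cnt r (((p, q), bl) :: S) := by
      intro r
      simp only [hn', cnt, List.countP_cons, decide_eq_true_eq]
      omega
    have hnp : n p < D := by
      have := hn p
      rw [← hcnt p] at this
      simp only [hn', true_or, if_true] at this
      omega
    have hnq : n q < D := by
      have := hn q
      rw [← hcnt q] at this
      simp only [hn', or_true, if_true] at this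
      omega
    obtain ⟨L', hL'1, hL'2, hL'3⟩ := ih y' hy'01 hv' n' (fun r => by rw [hcnt r]; exact hn r)
    -- the first exchange
    obtain ⟨L₀, hXT, hlen, hcross, hPP, hQQ⟩ : ∃ L, XT (B p) (B q) L ∧
        (bl = true → E ≤ L.length) ∧
        (∀ u ∈ B p, ∀ v ∈ B q, ∀ a, Odd a →
          Crt (B p) (B q) L u v a (a + (if bl = true then sg else 1))) ∧
        (∀ u ∈ B p, ∀ v ∈ B p,
          (∀ ψ, G p u v ψ → Crt (B p) (B q) L u v (ψ (n p)) (ψ (n p + 1))) ∧
          (Q p u v → Le (B p) (B q) L u v)) ∧
        (∀ u ∈ B q, ∀ v ∈ B q,
          (∀ ψ, G q u v ψ → Crt (B p) (B q) L u v (ψ (n q)) (ψ (n q + 1))) ∧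
          (Q q u v → Le (B p) (B q) L u v)) := by
      rcases bl with _ | _
      · obtain ⟨L, h1, h3, h4, h5⟩ := hsing p q hpq (n p) (n q) hnp hnq
        exact ⟨L, h1, by simp, by simpa using h3, h4, h5⟩
      · obtain ⟨L, h1, h2, h3, h4, h5⟩ := hpure p q hpq (n p) (n q) hnp hnq
        exact ⟨L, h1, fun _ => h2, by simpa using h3, h4, h5⟩
    refine ⟨L₀ ++ L', ?_, ?_, ?_⟩
    · intro e he
      rw [List.mem_append] at he
      rcases he with he | he
      · obtain ⟨h1, h2⟩ := hXT.supp e he
        exact ⟨h1.elim (fun h => ⟨p, h⟩) (fun h => ⟨q, h⟩),
          h2.elim (fun h => ⟨p, h⟩) (fun h => ⟨q, h⟩)⟩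
      · exact hL'1 e he
    · rw [List.countP_cons, List.length_append]
      rcases bl with _ | _
      · simp only [Bool.false_eq_true, if_false, add_zero]
        omega
      · have := hlen rfl
        simp only [if_true, add_mul, one_mul]
        omega
    · intro x hx
      have hIni : Ini (B p) (B q) x := ⟨fun c hc => by rw [hx p c hc, hyp],
        fun c hc => by rw [hx q c hc, hyq]⟩
      obtain ⟨hval, hend⟩ := hXT.ok x hIni
      have hconst : ∀ r, r ≠ p → r ≠ q → ∀ c ∈ B r, run x L₀ c = y r ∧
          ∀ z ∈ posts x L₀, z c = y r := by
        intro r h1 h2 c hc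
        have h3 := xp_const x L₀ c (fun e he => by
          obtain ⟨h4, h5⟩ := hXT.supp e he
          constructor
          · rintro rfl
            rcases h4 with h | h
            · exact Finset.disjoint_left.1 (hB r p h1) hc h
            · exact Finset.disjoint_left.1 (hB r q h2) hc h
          · rintro rfl
            rcases h5 with h | h
            · exact Finset.disjoint_left.1 (hB r p h1) hc h
            · exact Finset.disjoint_left.1 (hB r q h2) hc h)
        rw [hx r c hc] at h3
        exact h3
      have hx1 : ∀ r, ∀ c ∈ B r, run x L₀ c = y' r := by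
        intro r c hc
        by_cases h1 : r = p
        · subst h1
          rw [hy'p]; exact hend.2 c hc
        · by_cases h2 : r = q
          · subst h2
            rw [hy'q]; exact hend.1 c hc
          · rw [hy'r r h1 h2]
            exact (hconst r h1 h2 c hc).1
      obtain ⟨k1, k2, k3, k4⟩ := hL'3 (run x L₀) hx1
      have h01 : ∀ r, ∀ c ∈ B r, ∀ z ∈ posts x L₀, z c = 0 ∨ z c = 1 := by
        intro r c hc
        refine xp_01 x L₀ c ?_
        rw [hx r c hc]; exact hy r
      refine ⟨xp_valid_append _ _ _ hval k1, ?_, ?_, ?_⟩
      · intro r c hc
        rw [xp_run_append, k2 r c hc]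
        rfl
      · intro r u hu v hv
        obtain ⟨k5, k6⟩ := k3 r u hu v hv
        rw [xp_posts_append]
        constructor
        · intro ψ hψ
          have k7 := k5 ψ hψ
          rw [hcnt r] at k7
          refine AC.append ?_ k7
          by_cases h1 : r = p
          · subst h1
            have : n' r = n r + 1 := by simp [hn']
            rw [this]
            exact (hPP u hu v hv).1 ψ hψ x hIni
          · by_cases h2 : r = q
            · subst h2
              have : n' r = n r + 1 := by simp [hn']
              rw [this]
              exact (hQQ u hu v hv).1 ψ hψ x hIni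
            · have h3 : n' r = n r := by simp [hn', Ne.symm h1, Ne.symm h2]
              rw [h3]
              refine AC.const le_rfl le_rfl (fun z hz => ?_)
              rw [(hconst r h1 h2 u hu).2 z hz, (hconst r h1 h2 v hv).2 z hz]
              simp
        · intro hQ z hz
          rw [List.mem_append] at hz
          rcases hz with hz | hz
          · by_cases h1 : r = p
            · subst h1
              exact (hPP u hu v hv).2 hQ x hIni z hz
            · by_cases h2 : r = q
              · subst h2
                exact (hQQ u hu v hv).2 hQ x hIni z hz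
              · rw [(hconst r h1 h2 u hu).2 z hz, (hconst r h1 h2 v hv).2 z hz]
          · exact k6 hQ z hz
      · intro r r' hr u hu v hv
        obtain ⟨k5, k6⟩ := k4 r r' hr u hu v hv
        rw [xp_posts_append]
        constructor
        · intro a b ha hne hS
          obtain ⟨a', haa, hpu, ha', hS'⟩ := hS
          refine AC.append ?_ (k5 a' b ha' (fun e he => hne e (by simp [he])) hS')
          change 0 ≤ (-1) ^ a' * (y' r - y' r') at ha'
          by_cases h1 : r = p
          · subst h1
            by_cases h2 : r' = q
            · -- the direct exchange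
              subst h2
              rw [hyp, hyq] at ha
              rw [hy'p, hy'q] at ha'
              have hao : Odd a := xp_odd (by simpa using ha)
              have hae : Even a' := xp_even (by simpa using ha')
              have h5 := hcross u hu v hv a hao x hIni
              refine h5.mono_right ?_
              rcases bl with _ | _
              · simp only [Bool.false_eq_true, if_false]
                rcases Nat.lt_or_ge a a' with h | h
                · omega
                · have : a = a' := by omega
                  subst this
                  exact absurd hae (Nat.not_even_iff_odd.2 hao)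
              · simp only [if_true]
                exact hpu ⟨rfl, rfl⟩
            · have h3 : r' ≠ r := Ne.symm hr
              rw [hyp] at ha
              rw [hy'p, hy'r r' h3 h2] at ha'
              have hc := (hconst r' h3 h2 v hv).2
              rcases hy r' with h4 | h4
              · rw [h4] at ha'
                refine xp_nonneg haa (Or.inr (xp_even (by simpa using ha'))) (fun z hz => ?_)
                have := h01 r u hu z hz
                rw [hc z hz, h4]; omega
              · rw [h4] at ha
                refine xp_nonpos haa (Or.inl (xp_odd (by simpa using ha))) (fun z hz => ?_)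
                have := h01 r u hu z hz
                rw [hc z hz, h4]; omega
          · by_cases h2 : r = q
            · subst h2
              by_cases h3 : r' = p
              · -- the direct exchange, in the other order
                subst h3
                have hbl : bl = false := by
                  rcases bl with _ | _
                  · rfl
                  · exact (hne ((r', r), true) (List.mem_cons_self ..) rfl rfl).elim
                subst hbl
                rw [hyp, hyq] at ha
                rw [hy'p, hy'q] at ha'
                have hao : Even a := xp_even (by simpa using ha)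
                have hae : Odd a' := xp_odd (by simpa using ha')
                have h5 := hcross v hv u hu (a + 1) hao.add_one x hIni
                simp only [Bool.false_eq_true, if_false] at h5
                have h6 := h5.neg
                refine (h6.congr (g := fun z : V → ℤ => z u - z v) (fun z _ => (neg_sub (z v) (z u)).symm)).mono_right ?_
                rcases Nat.lt_or_ge a a' with h | h
                · omega
                · have : a = a' := by omega
                  subst this
                  exact absurd hao (Nat.not_even_iff_odd.2 hae)
              · have h4 : r' ≠ r := Ne.symm hr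
                rw [hyq] at ha
                rw [hy'q, hy'r r' h3 h4] at ha'
                have hc := (hconst r' h3 h4 v hv).2
                rcases hy r' with h5 | h5
                · rw [h5] at ha
                  refine xp_nonneg haa (Or.inl (xp_even (by simpa using ha))) (fun z hz => ?_)
                  have := h01 r u hu z hz
                  rw [hc z hz, h5]; omega
                · rw [h5] at ha'
                  refine xp_nonpos haa (Or.inr (xp_odd (by simpa using ha'))) (fun z hz => ?_)
                  have := h01 r u hu z hz
                  rw [hc z hz, h5]; omega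
            · have hc := (hconst r h1 h2 u hu).2
              rw [hy'r r h1 h2] at ha'
              by_cases h3 : r' = p
              · subst h3
                rw [hyp] at ha
                rw [hy'p] at ha'
                rcases hy r with h5 | h5
                · rw [h5] at ha'
                  refine xp_nonpos haa (Or.inr (xp_odd (by simpa using ha'))) (fun z hz => ?_)
                  have := h01 r' v hv z hz
                  rw [hc z hz, h5]; omega
                · rw [h5] at ha
                  refine xp_nonneg haa (Or.inl (xp_even (by simpa using ha))) (fun z hz => ?_)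
                  have := h01 r' v hv z hz
                  rw [hc z hz, h5]; omega
              · by_cases h4 : r' = q
                · subst h4
                  rw [hyq] at ha
                  rw [hy'q] at ha'
                  rcases hy r with h5 | h5
                  · rw [h5] at ha
                    refine xp_nonpos haa (Or.inl (xp_odd (by simpa using ha))) (fun z hz => ?_)
                    have := h01 r' v hv z hz
                    rw [hc z hz, h5]; omega
                  · rw [h5] at ha'
                    refine xp_nonneg haa (Or.inr (xp_even (by simpa using ha'))) (fun z hz => ?_)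
                    have := h01 r' v hv z hz
                    rw [hc z hz, h5]; omega
                · have hc' := (hconst r' h3 h4 v hv).2
                  refine AC.const le_rfl haa (fun z hz => ?_)
                  rw [hc z hz, hc' z hz]
                  exact ha
        · intro hle hall z hz
          have hle' : y' r ≤ y' r' := hall y' (by simp [posts, hy'])
          rw [List.mem_append] at hz
          rcases hz with hz | hz
          · have hzu := h01 r u hu z hz
            have hzv := h01 r' v hv z hz
            by_cases h1 : r = p
            · subst h1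
              by_cases h2 : r' = q
              · subst h2
                rw [hy'p, hy'q] at hle'
                omega
              · rw [hy'p, hy'r r' (Ne.symm hr) h2] at hle'
                rw [(hconst r' (Ne.symm hr) h2 v hv).2 z hz]
                omega
            · by_cases h2 : r = q
              · subst h2
                by_cases h3 : r' = p
                · subst h3
                  rw [hyq, hyp] at hle
                  omega
                · rw [hyq] at hle
                  rw [(hconst r' h3 (Ne.symm hr) v hv).2 z hz]
                  omega
              · rw [(hconst r h1 h2 u hu).2 z hz]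
                by_cases h3 : r' = p
                · subst h3
                  rw [hyp] at hle
                  omega
                · by_cases h4 : r' = q
                  · subst h4
                    rw [hy'q, hy'r r h1 h2] at hle'
                    omega
                  · rw [(hconst r' h3 h4 v hv).2 z hz]
                    exact hle
          · refine k6 hle' (fun w hw => hall w ?_) z hz
            simp only [List.map_cons, posts, List.mem_cons]
            exact Or.inr hw

end LevelRec
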