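import Pool.Agent.LevelRec.Trace
import Pool.Agent.LevelRec.Box

/-!
# The recursion: from groups to blocks
-/

namespace LevelRec

open LevelLower

namespace Prm

variable {p : Prm}

theorem Z_succ (k : ℕ) (c : Cur p.g) (t : ℕ) :
    p.Z (k + 1) c t = t * p.al k (c.ka k) + p.Z k c (p.D * t + p.c0) := by
  unfold Z
  simp only [zeta]
  ring

theorem Good.mono : ∀ {k : ℕ} {u v : Cur p.g} {ψ : ℕ → ℕ}, p.Good k u v ψ → Monotone ψ
  | 0, _, _, _, h => h.elim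
  | k + 1, u, v, ψ, h => by
    rcases h with ⟨_, h⟩ | ⟨_, ψ', h, h'⟩
    · exact h.mono
    · intro a b hab
      rw [h', h']
      exact h.mono (Nat.mul_le_mul_left _ hab)

theorem Good.negp (hc : p.c0 < p.D) : ∀ {k : ℕ} {u v : Cur p.g} {ψ : ℕ → ℕ}, p.Good k u v ψ →
    ∀ t, p.Z k u t ≤ p.Z k v t → ∃ q, Odd q ∧ ψ t ≤ q ∧ q ≤ ψ (t + 1)
  | 0, _, _, _, h => h.elim
  | k + 1, u, v, ψ, h => by
    intro t ht
    rcases h with ⟨_, h⟩ | ⟨hk, ψ', h, h'⟩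
    · exact h.neg t (by omega)
    · rw [Z_succ, Z_succ, hk] at ht
      obtain ⟨q, h1, h2, h3⟩ := h.negp hc (p.D * t + p.c0) (by omega)
      refine ⟨q, h1, ?_, ?_⟩
      · rw [h']
        exact (h.mono (by omega)).trans h2
      · rw [h']
        refine h3.trans (h.mono ?_)
        rw [Nat.mul_add, Nat.mul_one]
        omega

theorem Good.posp (hc : p.c0 < p.D) : ∀ {k : ℕ} {u v : Cur p.g} {ψ : ℕ → ℕ}, p.Good k u v ψ →
    ∀ t, p.Z k v t ≤ p.Z k u t → ∃ q, Even q ∧ ψ t ≤ q ∧ q ≤ ψ (t + 1)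
  | 0, _, _, _, h => h.elim
  | k + 1, u, v, ψ, h => by
    intro t ht
    rcases h with ⟨_, h⟩ | ⟨hk, ψ', h, h'⟩
    · exact h.pos t (by omega)
    · rw [Z_succ, Z_succ, hk] at ht
      obtain ⟨q, h1, h2, h3⟩ := h.posp hc (p.D * t + p.c0) (by omega)
      refine ⟨q, h1, ?_, ?_⟩
      · rw [h']
        exact (h.mono (by omega)).trans h2
      · rw [h']
        refine h3.trans (h.mono ?_)
        rw [Nat.mul_add, Nat.mul_one]
        omega

theorem PP.of_le (hc : p.c0 < p.D) {k t : ℕ} {U W : Finset (Cur p.g)}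
    {L : List (Cur p.g × Cur p.g)} {u v : Cur p.g} (hZ : p.Z k u t ≤ p.Z k v t)
    (h : Le U W L u v) : p.PP k t U W L u v := by
  refine ⟨fun ψ hψ x hx => ?_, fun _ _ => h⟩
  refine ac_nonpos (hψ.negp hc t hZ) (fun y hy => ?_)
  have := h x hx y hy
  omega

theorem PP.of_ge (hc : p.c0 < p.D) {k t : ℕ} {U W : Finset (Cur p.g)}
    {L : List (Cur p.g × Cur p.g)} {u v : Cur p.g} (hs : u.sd = v.sd)
    (hZ : p.Z k v t ≤ p.Z k u t) (h : Le U W L v u) : p.PP k t U W L u v := by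
  refine ⟨fun ψ hψ x hx => ?_, fun h1 h2 => ?_⟩
  · refine ac_nonneg (hψ.posp hc t hZ) (fun y hy => ?_)
    have := h x hx y hy
    omega
  · have h3 : v.rh ≤ u.rh := by
      unfold Z at hZ
      rw [h1] at hZ
      omega
    have h4 : u = v := Cur.ext hs h1 (le_antisymm h2 h3)
    subst h4
    exact h

theorem PP.of_or (hc : p.c0 < p.D) {k t : ℕ} {U W : Finset (Cur p.g)}
    {L : List (Cur p.g × Cur p.g)} {u v : Cur p.g} (hs : u.sd = v.sd)
    (h : (p.Z k u t ≤ p.Z k v t ∧ Le U W L u v) ∨ (p.Z k v t ≤ p.Z k u t ∧ Le U W L v u)) :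
    p.PP k t U W L u v := by
  rcases h with h | h
  · exact PP.of_le hc h.1 h.2
  · exact PP.of_ge hc hs h.1 h.2

/-- concatenation -/
theorem Spec.merge (hc : p.c0 < p.D) (hsg : Odd p.sg) {k t t' : ℕ}
    {U₁ W₁ U₂ W₂ : Finset (Cur p.g)} {L₁ L₂ : List (Cur p.g × Cur p.g)}
    (h₁ : p.Spec k t t' U₁ W₁ L₁) (h₂ : p.Spec k t t' U₂ W₂ L₂)
    (hd : Disjoint (U₁ ∪ W₁) (U₂ ∪ W₂))
    (hU : ∀ u ∈ U₁, ∀ v ∈ U₂, u.sd = v.sd ∧ p.Z k v t ≤ p.Z k u t)
    (hW : ∀ u ∈ W₁, ∀ v ∈ W₂, u.sd = v.sd ∧ p.Z k u t' ≤ p.Z k v t') :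
    p.Spec k t t' (U₁ ∪ U₂) (W₁ ∪ W₂) (L₁ ++ L₂) := by
  refine ⟨h₁.xt.merge h₂.xt hd, cross_merge h₁.xt h₂.xt hd hsg h₁.cross h₂.cross, ?_, ?_⟩
  · intro u hu v hv
    rcases Finset.mem_union.1 hu with hu | hu <;> rcases Finset.mem_union.1 hv with hv | hv
    · exact ⟨fun ψ hψ => crt_U1U1 h₁.xt h₂.xt hd hu hv ((h₁.ppU u hu v hv).1 ψ hψ),
        fun a b => le_U1U1 h₁.xt h₂.xt hd hu hv ((h₁.ppU u hu v hv).2 a b)⟩
    · exact PP.of_ge hc (hU u hu v hv).1 (hU u hu v hv).2 (le_U2U1 h₁.xt h₂.xt hd hv hu)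
    · exact PP.of_le hc (hU v hv u hu).2 (le_U2U1 h₁.xt h₂.xt hd hu hv)
    · exact ⟨fun ψ hψ => crt_U2U2 h₁.xt h₂.xt hd hu hv ((h₂.ppU u hu v hv).1 ψ hψ),
        fun a b => le_U2U2 h₁.xt h₂.xt hd hu hv ((h₂.ppU u hu v hv).2 a b)⟩
  · intro u hu v hv
    rcases Finset.mem_union.1 hu with hu | hu <;> rcases Finset.mem_union.1 hv with hv | hv
    · exact ⟨fun ψ hψ => crt_W1W1 h₁.xt h₂.xt hd hu hv ((h₁.ppW u hu v hv).1 ψ hψ),
        fun a b => le_W1W1 h₁.xt h₂.xt hd hu hv ((h₁.ppW u hu v hv).2 a b)⟩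
    · exact PP.of_le hc (hW u hu v hv).2 (le_W1W2 h₁.xt h₂.xt hd hu hv)
    · exact PP.of_ge hc (hW v hv u hu).1.symm (hW v hv u hu).2 (le_W1W2 h₁.xt h₂.xt hd hv hu)
    · exact ⟨fun ψ hψ => crt_W2W2 h₁.xt h₂.xt hd hu hv ((h₂.ppW u hu v hv).1 ψ hψ),
        fun a b => le_W2W2 h₁.xt h₂.xt hd hu hv ((h₂.ppW u hu v hv).2 a b)⟩

/-- single exchanges -/
theorem Spec.single (hc : p.c0 < p.D) (hsg : Odd p.sg) (k t t' : ℕ) {A B : Finset (Cur p.g)}
    (hAB : Disjoint A B) (hcard : A.card = B.card) (hA : ∀ u ∈ A, ∀ v ∈ A, u.sd = v.sd)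
    (hB : ∀ u ∈ B, ∀ v ∈ B, u.sd = v.sd) :
    ∃ L, p.Spec k t t' A B L ∧ L.length = A.card ∧
      ∀ u ∈ A, ∀ v ∈ B, ∀ a, Odd a → Crt A B L u v a (a + 1) := by
  obtain ⟨L, h1, h0, h2, h3, h4⟩ := exists_single A B hAB hcard (fun c => p.Z k c t)
    (fun c => p.Z k c t')
  refine ⟨L, ⟨h1, ?_, ?_, ?_⟩, h0, h2⟩
  · intro u hu v hv a ha x hx
    exact (h2 u hu v hv a ha x hx).mono_right (by have := hsg.pos; omega)
  · intro u hu v hv
    exact PP.of_or hc (hA u hu v hv) (h3 u hu v hv)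
  · intro u hu v hv
    exact PP.of_or hc (hB u hu v hv) (h4 u hu v hv)

theorem mem_mid {b : Bool} {P : ℕ → Fin p.g} {k : ℕ} {lam : ℤ} {t j i : ℕ} {c : Cur p.g} :
    c ∈ p.mid b P k lam t j i ↔ c.sd = b ∧ (∀ i, k + 1 ≤ i → c.ka i = P i) ∧
      lam + j * (p.m * p.W k) ≤ p.Z (k + 1) c t ∧
      p.Z (k + 1) c t < lam + ((j + i : ℕ) : ℤ) * (p.m * p.W k) := by
  unfold mid Z
  rw [mem_box]
  constructor
  · rintro ⟨h1, h2, h3, h4⟩
    exact ⟨h1, h2, by omega, by omega⟩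
  · rintro ⟨h1, h2, h3, h4⟩
    exact ⟨h1, h2, by omega, by omega⟩

theorem mid_zero {b : Bool} {P : ℕ → Fin p.g} {k : ℕ} {lam : ℤ} {t j : ℕ} :
    p.mid b P k lam t j 0 = ∅ := by
  ext c
  rw [mem_mid]
  simp only [Nat.add_zero, Finset.notMem_empty, iff_false]
  rintro ⟨-, -, h1, h2⟩
  omega

theorem mW_nonneg (k : ℕ) : 0 ≤ (p.m : ℤ) * p.W k :=
  mul_nonneg (Int.natCast_nonneg _) (p.W_nonneg k)

theorem mid_succ_top {b : Bool} {P : ℕ → Fin p.g} {k : ℕ} {lam : ℤ} {t j i : ℕ} :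
    p.mid b P k lam t j (i + 1) =
      p.grp b P k (lam + ((j + i : ℕ) : ℤ) * (p.m * p.W k)) t ∪ p.mid b P k lam t j i := by
  have h0 := p.mW_nonneg k
  ext c
  rw [Finset.mem_union, mem_mid, mem_mid, mem_grp]
  push_cast
  generalize (p.m : ℤ) * p.W k = w at *
  have e1 : ((j : ℤ) + (i + 1)) * w = (j + i) * w + w := by ring
  have e2 : (j : ℤ) * w ≤ (j + i) * w := by nlinarith [mul_nonneg (Int.natCast_nonneg i) h0]
  rw [e1]
  generalize ((j : ℤ) + i) * w = q at *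
  generalize (j : ℤ) * w = r at *
  constructor
  · rintro ⟨h1, h2, h3, h4⟩
    rcases lt_or_ge (p.Z (k + 1) c t) (lam + q) with h | h
    · exact Or.inr ⟨h1, h2, h3, h⟩
    · exact Or.inl ⟨h1, h2, h, by omega⟩
  · rintro (⟨h1, h2, h3, h4⟩ | ⟨h1, h2, h3, h4⟩)
    · exact ⟨h1, h2, by omega, by omega⟩
    · exact ⟨h1, h2, h3, by omega⟩

theorem mid_succ_bot {b : Bool} {P : ℕ → Fin p.g} {k : ℕ} {lam : ℤ} {t j i : ℕ} :
    p.mid b P k lam t j (i + 1) =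
      p.grp b P k (lam + (j : ℤ) * (p.m * p.W k)) t ∪ p.mid b P k lam t (j + 1) i := by
  have h0 := p.mW_nonneg k
  ext c
  rw [Finset.mem_union, mem_mid, mem_mid, mem_grp]
  push_cast
  generalize (p.m : ℤ) * p.W k = w at *
  have e1 : ((j : ℤ) + (i + 1)) * w = j * w + w + i * w := by ring
  have e2 : ((j : ℤ) + 1 + i) * w = j * w + w + i * w := by ring
  have e3 : ((j : ℤ) + 1) * w = j * w + w := by ring
  have e4 : 0 ≤ (i : ℤ) * w := mul_nonneg (Int.natCast_nonneg i) h0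
  rw [e1, e2, e3]
  generalize (i : ℤ) * w = q at *
  generalize (j : ℤ) * w = r at *
  constructor
  · rintro ⟨h1, h2, h3, h4⟩
    rcases lt_or_ge (p.Z (k + 1) c t) (lam + r + w) with h | h
    · exact Or.inl ⟨h1, h2, h3, h⟩
    · exact Or.inr ⟨h1, h2, by omega, by omega⟩
  · rintro (⟨h1, h2, h3, h4⟩ | ⟨h1, h2, h3, h4⟩)
    · exact ⟨h1, h2, h3, by omega⟩
    · exact ⟨h1, h2, by omega, by omega⟩

theorem Spec.empty (k t t' : ℕ) : p.Spec k t t' ∅ ∅ [] :=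
  ⟨xt_nil, by simp, by simp, by simp⟩

/-- consecutive groups -/
theorem exists_mid (hc : p.c0 < p.D) (hsg : Odd p.sg) {k E : ℕ}
    (hES : ∀ b P mu t b' P' mu' t', Disjoint (p.grp b P k mu t) (p.grp b' P' k mu' t') →
      ∃ L, p.Spec (k + 1) t t' (p.grp b P k mu t) (p.grp b' P' k mu' t') L ∧ E ≤ L.length)
    (b : Bool) (P : ℕ → Fin p.g) (lam : ℤ) (t : ℕ) (b' : Bool) (P' : ℕ → Fin p.g) (lam' : ℤ)
    (t' : ℕ) (i : ℕ) : ∀ j j', Disjoint (p.mid b P k lam t j i) (p.mid b' P' k lam' t' j' i) →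
    ∃ L, p.Spec (k + 1) t t' (p.mid b P k lam t j i) (p.mid b' P' k lam' t' j' i) L ∧
      i * E ≤ L.length := by
  induction i with
  | zero =>
    intro j j' _
    rw [mid_zero, mid_zero]
    exact ⟨[], Spec.empty _ _ _, by simp⟩
  | succ i ih =>
    intro j j' hd
    have hw := p.mW_nonneg k
    rw [mid_succ_top (b := b), mid_succ_bot (b := b')] at hd ⊢
    have hd1 := hd.mono Finset.subset_union_left Finset.subset_union_left
    have hd2 := hd.mono Finset.subset_union_right Finset.subset_union_right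
    obtain ⟨L₁, s1, l1⟩ := hES b P (lam + ((j + i : ℕ) : ℤ) * (p.m * p.W k)) t b' P'
      (lam' + (j' : ℤ) * (p.m * p.W k)) t' hd1
    obtain ⟨L₂, s2, l2⟩ := ih j (j' + 1) hd2
    have oU : ∀ u ∈ p.grp b P k (lam + ((j + i : ℕ) : ℤ) * (p.m * p.W k)) t,
        ∀ v ∈ p.mid b P k lam t j i, u.sd = v.sd ∧ p.Z (k + 1) v t < p.Z (k + 1) u t := by
      intro u hu v hv
      rw [mem_grp] at hu
      rw [mem_mid] at hv
      exact ⟨hu.1.trans hv.1.symm, by omega⟩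
    have oW : ∀ u ∈ p.grp b' P' k (lam' + (j' : ℤ) * (p.m * p.W k)) t',
        ∀ v ∈ p.mid b' P' k lam' t' (j' + 1) i, u.sd = v.sd ∧
        p.Z (k + 1) u t' < p.Z (k + 1) v t' := by
      intro u hu v hv
      rw [mem_grp] at hu
      rw [mem_mid] at hv
      refine ⟨hu.1.trans hv.1.symm, ?_⟩
      have e3 : (((j' + 1 : ℕ) : ℤ)) * (p.m * p.W k) = j' * (p.m * p.W k) + p.m * p.W k := by
        push_cast; ring
      rw [e3] at hv
      omega
    refine ⟨L₁ ++ L₂, s1.merge hc hsg s2 ?_ (fun u hu v hv => ⟨(oU u hu v hv).1,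
      (oU u hu v hv).2.le⟩) (fun u hu v hv => ⟨(oW u hu v hv).1, (oW u hu v hv).2.le⟩), ?_⟩
    · rw [Finset.disjoint_left]
      intro c h1 h2
      rcases Finset.mem_union.1 h1 with h1 | h1 <;> rcases Finset.mem_union.1 h2 with h2 | h2
      · exact absurd (oU c h1 c h2).2 (lt_irrefl _)
      · exact Finset.disjoint_left.1 hd (Finset.mem_union_left _ h1) (Finset.mem_union_right _ h2)
      · exact Finset.disjoint_left.1 hd (Finset.mem_union_right _ h2) (Finset.mem_union_left _ h1)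
      · exact absurd (oW c h1 c h2).2 (lt_irrefl _)
    · rw [List.length_append, Nat.succ_mul]
      omega

theorem mem_bot_iff {b : Bool} {P : ℕ → Fin p.g} {k : ℕ} {lam : ℤ} {T t : ℕ} {c : Cur p.g} :
    c ∈ p.bot b P k lam T t ↔ c.sd = b ∧ (∀ i, k + 1 ≤ i → c.ka i = P i) ∧
      lam ≤ p.Z (k + 1) c (p.D * T + p.c0) ∧
      p.Z (k + 1) c t < lam + p.w * (p.m * p.W k) := by
  unfold bot Z
  rw [mem_box]
  constructor
  · rintro ⟨h1, h2, h3, h4⟩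
    exact ⟨h1, h2, by omega, by omega⟩
  · rintro ⟨h1, h2, h3, h4⟩
    exact ⟨h1, h2, by omega, by omega⟩

theorem mem_top_iff {b : Bool} {P : ℕ → Fin p.g} {k : ℕ} {lam : ℤ} {T t : ℕ} {c : Cur p.g} :
    c ∈ p.top b P k lam T t ↔ c.sd = b ∧ (∀ i, k + 1 ≤ i → c.ka i = P i) ∧
      lam + ((p.X : ℤ) - p.w) * (p.m * p.W k) ≤ p.Z (k + 1) c t ∧
      p.Z (k + 1) c (p.D * T + p.c0) < lam + p.W (k + 1) := by
  unfold top Z
  rw [mem_box]
  constructor
  · rintro ⟨h1, h2, h3, h4⟩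
    exact ⟨h1, h2, by omega, by omega⟩
  · rintro ⟨h1, h2, h3, h4⟩
    exact ⟨h1, h2, by omega, by omega⟩

/-- the condition on the drift of the heights -/
def Shift (p : Prm) : Prop := ∀ k κ T t, p.D * T ≤ t → t < p.D * (T + 1) →
  |zeta p.al p.D p.c0 (k + 1) κ t - zeta p.al p.D p.c0 (k + 1) κ (p.D * T + p.c0)| ≤
    p.w * (p.m * p.W k)

/-- from groups to blocks -/
theorem ex_succ (hc : p.c0 < p.D) (hsg : Odd p.sg) (hX : 2 * p.w ≤ p.X)
    (hal : ∀ k, ∑ i, p.al k i = 0) (hsh : p.Shift) {k E : ℕ}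
    (hES : ∀ b P mu t b' P' mu' t', Disjoint (p.grp b P k mu t) (p.grp b' P' k mu' t') →
      ∃ L, p.Spec (k + 1) t t' (p.grp b P k mu t) (p.grp b' P' k mu' t') L ∧ E ≤ L.length)
    (b : Bool) (P : ℕ → Fin p.g) (lam : ℤ) (T t : ℕ) (b' : Bool) (P' : ℕ → Fin p.g) (lam' : ℤ)
    (T' t' : ℕ) (h1 : p.D * T ≤ t) (h2 : t < p.D * (T + 1)) (h1' : p.D * T' ≤ t')
    (h2' : t' < p.D * (T' + 1))
    (hd : Disjoint (p.blk b P (k + 1) lam T) (p.blk b' P' (k + 1) lam' T')) :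
    ∃ L, p.Spec (k + 1) t t' (p.blk b P (k + 1) lam T) (p.blk b' P' (k + 1) lam' T') L ∧
      (p.X - 2 * p.w) * E ≤ L.length := by
  have hw := p.mW_nonneg k
  have e1 : p.blk b P (k + 1) lam T = p.top b P k lam T t ∪
      (p.mid b P k lam t p.w (p.X - 2 * p.w) ∪ p.bot b P k lam T t) := by
    rw [p.blk_eq hX hsh b P k lam h1 h2]
    ext c
    simp only [Finset.mem_union]
    tauto
  have e2 := p.blk_eq hX hsh b' P' k lam' h1' h2'
  have c1 := p.card_top hal hX hsh b P k lam h1 h2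
  have c2 := p.card_bot hal hX hsh b P k lam h1 h2
  have c1' := p.card_top hal hX hsh b' P' k lam' h1' h2'
  have c2' := p.card_bot hal hX hsh b' P' k lam' h1' h2'
  rw [e1, e2] at hd ⊢
  have hdd : ∀ c, c ∈ p.top b P k lam T t ∨ (c ∈ p.mid b P k lam t p.w (p.X - 2 * p.w) ∨
      c ∈ p.bot b P k lam T t) → c ∈ p.bot b' P' k lam' T' t' ∨
      (c ∈ p.mid b' P' k lam' t' p.w (p.X - 2 * p.w) ∨ c ∈ p.top b' P' k lam' T' t') → False := by
    intro c a1 a2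
    rw [Finset.disjoint_left] at hd
    have := @hd c
    simp only [Finset.mem_union] at this
    exact this a1 a2
  obtain ⟨L₁, s1, -, -⟩ := Spec.single (p := p) hc hsg (k + 1) t t' (A := p.top b P k lam T t)
    (B := p.bot b' P' k lam' T' t')
    (Finset.disjoint_left.2 fun c a1 a2 => hdd c (Or.inl a1) (Or.inl a2))
    (by exact_mod_cast c1.trans c2'.symm)
    (fun u hu v hv => (mem_top_iff.1 hu).1.trans (mem_top_iff.1 hv).1.symm)
    (fun u hu v hv => (mem_bot_iff.1 hu).1.trans (mem_bot_iff.1 hv).1.symm)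
  obtain ⟨L₂, s2, l2⟩ := exists_mid hc hsg hES b P lam t b' P' lam' t' (p.X - 2 * p.w) p.w p.w
    (Finset.disjoint_left.2 fun c a1 a2 => hdd c (Or.inr (Or.inl a1)) (Or.inr (Or.inl a2)))
  obtain ⟨L₃, s3, -, -⟩ := Spec.single (p := p) hc hsg (k + 1) t t' (A := p.bot b P k lam T t)
    (B := p.top b' P' k lam' T' t')
    (Finset.disjoint_left.2 fun c a1 a2 => hdd c (Or.inr (Or.inr a1)) (Or.inr (Or.inr a2)))
    (by exact_mod_cast c2.trans c1'.symm)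
    (fun u hu v hv => (mem_bot_iff.1 hu).1.trans (mem_bot_iff.1 hv).1.symm)
    (fun u hu v hv => (mem_top_iff.1 hu).1.trans (mem_top_iff.1 hv).1.symm)
  have hXw : (((p.w + (p.X - 2 * p.w) : ℕ) : ℤ)) = (p.X : ℤ) - p.w := by omega
  have hwX : (p.w : ℤ) * (p.m * p.W k) ≤ ((p.X : ℤ) - p.w) * (p.m * p.W k) :=
    mul_le_mul_of_nonneg_right (by omega) hw
  -- orders
  have o1 : ∀ u ∈ p.mid b P k lam t p.w (p.X - 2 * p.w), ∀ v ∈ p.bot b P k lam T t,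
      u.sd = v.sd ∧ p.Z (k + 1) v t < p.Z (k + 1) u t := by
    intro u hu v hv
    rw [mem_mid] at hu
    rw [mem_bot_iff] at hv
    exact ⟨hu.1.trans hv.1.symm, by omega⟩
  have o2 : ∀ u ∈ p.mid b' P' k lam' t' p.w (p.X - 2 * p.w), ∀ v ∈ p.top b' P' k lam' T' t',
      u.sd = v.sd ∧ p.Z (k + 1) u t' < p.Z (k + 1) v t' := by
    intro u hu v hv
    rw [mem_mid, hXw] at hu
    rw [mem_top_iff] at hv
    exact ⟨hu.1.trans hv.1.symm, by omega⟩
  have o3 : ∀ u ∈ p.top b P k lam T t, ∀ v ∈ p.mid b P k lam t p.w (p.X - 2 * p.w) ∪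
      p.bot b P k lam T t, u.sd = v.sd ∧ p.Z (k + 1) v t < p.Z (k + 1) u t := by
    intro u hu v hv
    rw [mem_top_iff] at hu
    rcases Finset.mem_union.1 hv with hv | hv
    · rw [mem_mid, hXw] at hv
      exact ⟨hu.1.trans hv.1.symm, by omega⟩
    · rw [mem_bot_iff] at hv
      exact ⟨hu.1.trans hv.1.symm, by omega⟩
  have o4 : ∀ u ∈ p.bot b' P' k lam' T' t', ∀ v ∈ p.mid b' P' k lam' t' p.w (p.X - 2 * p.w) ∪
      p.top b' P' k lam' T' t', u.sd = v.sd ∧ p.Z (k + 1) u t' < p.Z (k + 1) v t' := by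
    intro u hu v hv
    rw [mem_bot_iff] at hu
    rcases Finset.mem_union.1 hv with hv | hv
    · rw [mem_mid] at hv
      exact ⟨hu.1.trans hv.1.symm, by omega⟩
    · rw [mem_top_iff] at hv
      exact ⟨hu.1.trans hv.1.symm, by omega⟩
  have s23 := s2.merge hc hsg s3 (by
    rw [Finset.disjoint_left]
    intro c a1 a2
    rcases Finset.mem_union.1 a1 with a1 | a1 <;> rcases Finset.mem_union.1 a2 with a2 | a2
    · exact absurd (o1 c a1 c a2).2 (lt_irrefl _)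
    · exact hdd c (Or.inr (Or.inl a1)) (Or.inr (Or.inr a2))
    · exact hdd c (Or.inr (Or.inr a2)) (Or.inr (Or.inl a1))
    · exact absurd (o2 c a1 c a2).2 (lt_irrefl _))
    (fun u hu v hv => ⟨(o1 u hu v hv).1, (o1 u hu v hv).2.le⟩)
    (fun u hu v hv => ⟨(o2 u hu v hv).1, (o2 u hu v hv).2.le⟩)
  have s123 := s1.merge hc hsg s23 (by
    rw [Finset.disjoint_left]
    intro c a1 a2
    rcases Finset.mem_union.1 a1 with a1 | a1 <;> rcases Finset.mem_union.1 a2 with a2 | a2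
    · exact absurd (o3 c a1 c a2).2 (lt_irrefl _)
    · exact hdd c (Or.inl a1) (Or.inr (Finset.mem_union.1 a2))
    · exact hdd c (Or.inr (Finset.mem_union.1 a2)) (Or.inl a1)
    · exact absurd (o4 c a1 c a2).2 (lt_irrefl _))
    (fun u hu v hv => ⟨(o3 u hu v hv).1, (o3 u hu v hv).2.le⟩)
    (fun u hu v hv => ⟨(o4 u hu v hv).1, (o4 u hu v hv).2.le⟩)
  refine ⟨_, s123, ?_⟩
  simp only [List.length_append]
  omega

end Prm

end LevelRec
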