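import Pool.Agent.LevelRec.Defs

/-!
# Checking a concrete seed
-/

namespace LevelRec

open LevelLower

/-- greedy phases of a pair -/
def gph {R : Type} [DecidableEq R] (sg : ℕ) (r r' : R) : (R → ℤ) → ℕ → List (SStep R) → ℕ
  | _, a, [] => a
  | y, a, e :: S =>
    gph sg r r' (stp y e.1)
      (if 0 ≤ (-1) ^ (if e.2 = true ∧ e.1 = (r, r') then a + sg else a) *
          (stp y e.1 r - stp y e.1 r')
        then (if e.2 = true ∧ e.1 = (r, r') then a + sg else a)
        else (if e.2 = true ∧ e.1 = (r, r') then a + sg else a) + 1) S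

theorem sac_of_gph {R : Type} [DecidableEq R] {sg : ℕ} {r r' : R} {b : ℕ}
    (S : List (SStep R)) : ∀ (y : R → ℤ) (a : ℕ), gph sg r r' y a S ≤ b →
    SAC sg r r' y a b S := by
  induction S with
  | nil => intro y a h; exact h
  | cons e S ih =>
    intro y a h
    simp only [gph] at h
    set a0 := if e.2 = true ∧ e.1 = (r, r') then a + sg else a with ha0
    have h0 : a ≤ a0 := by
      rw [ha0]
      split_ifs <;> omega
    have h1 : (e.2 = true ∧ e.1 = (r, r')) → a + sg ≤ a0 := by
      intro hh
      rw [ha0, if_pos hh]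
    by_cases hF : 0 ≤ (-1 : ℤ) ^ a0 * (stp y e.1 r - stp y e.1 r')
    · rw [if_pos hF] at h
      exact ⟨a0, h0, h1, hF, ih _ _ h⟩
    · rw [if_neg hF] at h
      refine ⟨a0 + 1, by omega, fun hh => (h1 hh).trans (by omega), ?_, ih _ _ h⟩
      rw [pow_succ]
      have : (-1 : ℤ) ^ a0 * -1 * (stp y e.1 r - stp y e.1 r') =
          - ((-1 : ℤ) ^ a0 * (stp y e.1 r - stp y e.1 r')) := by ring
      rw [this]
      omega

instance {g m : ℕ} (r r' : Role g m) : Decidable (Prec r r') := by
  unfold Prec
  infer_instance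

instance {V : Type} [DecidableEq V] (x : V → ℤ) (L : List (V × V)) : Decidable (Valid x L) := by
  induction L generalizing x with
  | nil => exact isTrue trivial
  | cons e L ih =>
    have := ih (stp x e)
    exact inferInstanceAs (Decidable (_ ∧ _ ∧ _))

end LevelRec
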