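import Pool.Agent.LevelRec.Trace
import Pool.Agent.LevelLower.Path2

/-!
# The fractal seed

Two classes, `m = 2 ^ l` parallel roles in each class and on each side. `P i` (columns), `Q j`
(rows) and `K k` (diagonals); the state is given by a lattice point which moves along the square
path; a diagonal move is a pure exchange of a column and a row.
-/

namespace LevelRec

open LevelLower

/-- the roles: columns, diagonals, rows -/
inductive Ro
  | P (i : ℤ)
  | K (k : ℤ)
  | Q (j : ℤ)
  deriving DecidableEq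

/-- the moves -/
inductive Mv
  | D
  | W
  | S

/-- the effect of a move -/
def ap : Mv → ℤ × ℤ → ℤ × ℤ
  | .D, p => (p.1 + 1, p.2 + 1)
  | .W, p => (p.1 - 1, p.2)
  | .S, p => (p.1, p.2 - 1)

/-- the exchange of a move -/
def ex : Mv → ℤ × ℤ → Ro × Ro
  | .D, p => (.P p.1, .Q p.2)
  | .W, p => (.K (p.2 - p.1), .P (p.1 - 1))
  | .S, p => (.Q (p.2 - 1), .K (p.2 - p.1 - 1))

/-- pure exchanges -/
def isD : Mv → Bool
  | .D => true
  | _ => false

/-- the state of the roles at a lattice point -/
def stR (p : ℤ × ℤ) : Ro → ℤ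
  | .P i => if i < p.1 then 1 else 0
  | .K k => if k < p.2 - p.1 then 1 else 0
  | .Q j => if p.2 ≤ j then 1 else 0

theorem stp_ex (d : Mv) (p : ℤ × ℤ) : stp (stR p) (ex d p) = stR (ap d p) := by
  funext c
  cases d <;> cases c <;> simp only [stp, ex, stR, ap, Ro.P.injEq, Ro.K.injEq, Ro.Q.injEq,
    reduceCtorEq, if_false] <;> split_ifs <;> omega

theorem valid_ex (d : Mv) (p : ℤ × ℤ) : stR p (ex d p).1 = 0 ∧ stR p (ex d p).2 = 1 := by
  cases d <;> simp only [ex, stR] <;> constructor <;> split_ifs <;> omega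

/-- the lattice points after each move -/
def wk : ℤ × ℤ → List Mv → List (ℤ × ℤ)
  | _, [] => []
  | p, d :: L => ap d p :: wk (ap d p) L

/-- the end point -/
def en : ℤ × ℤ → List Mv → ℤ × ℤ
  | p, [] => p
  | p, d :: L => en (ap d p) L

/-- the exchanges of a walk -/
def tr : ℤ × ℤ → List Mv → List (SStep Ro)
  | _, [] => []
  | p, d :: L => (ex d p, isD d) :: tr (ap d p) L

theorem tr_append (p : ℤ × ℤ) (L M : List Mv) : tr p (L ++ M) = tr p L ++ tr (en p L) M := by
  induction L generalizing p with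
  | nil => rfl
  | cons d L ih => simp [tr, en, ih]

theorem en_append (p : ℤ × ℤ) (L M : List Mv) : en p (L ++ M) = en (en p L) M := by
  induction L generalizing p with
  | nil => rfl
  | cons d L ih => simp [en, ih]

theorem wk_append (p : ℤ × ℤ) (L M : List Mv) : wk p (L ++ M) = wk p L ++ wk (en p L) M := by
  induction L generalizing p with
  | nil => rfl
  | cons d L ih => simp [wk, en, ih]

theorem posts_tr (p : ℤ × ℤ) (L : List Mv) :
    posts (stR p) ((tr p L).map Prod.fst) = (wk p L).map stR := by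
  induction L generalizing p with
  | nil => rfl
  | cons d L ih => simp [tr, wk, posts, stp_ex, ih]

theorem run_tr (p : ℤ × ℤ) (L : List Mv) :
    run (stR p) ((tr p L).map Prod.fst) = stR (en p L) := by
  induction L generalizing p with
  | nil => rfl
  | cons d L ih => simp [tr, en, run, stp_ex, ih]

theorem valid_tr (p : ℤ × ℤ) (L : List Mv) : Valid (stR p) ((tr p L).map Prod.fst) := by
  induction L generalizing p with
  | nil => trivial
  | cons d L ih =>
    simp only [tr, List.map_cons, Valid, stp_ex]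
    exact ⟨(valid_ex d p).1, (valid_ex d p).2, ih _⟩

/-! ### Relation to the square path -/

/-- a move as a walk with unit steps -/
def emb : Mv → List Dir
  | .D => [.N, .E]
  | .W => [.W]
  | .S => [.S]

theorem en_emb (p : ℤ × ℤ) (L : List Mv) : LevelLower.run p (L.flatMap emb) = en p L := by
  induction L generalizing p with
  | nil => rfl
  | cons d L ih =>
    cases d <;> simp [emb, LevelLower.run, mv, en, ap, ih]

theorem wk_sublist (p : ℤ × ℤ) (L : List Mv) :
    (p :: wk p L).Sublist (walk p (L.flatMap emb) ++ [en p L]) := by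
  induction L generalizing p with
  | nil => simp [wk, walk, en]
  | cons d L ih =>
    cases d
    · simp only [wk, List.flatMap_cons, emb, List.cons_append, List.nil_append, walk, mv, en]
      refine List.Sublist.cons_cons _ (List.Sublist.cons _ ?_)
      exact ih _
    · simp only [wk, List.flatMap_cons, emb, List.cons_append, List.nil_append, walk, mv, en]
      exact List.Sublist.cons_cons _ (ih _)
    · simp only [wk, List.flatMap_cons, emb, List.cons_append, List.nil_append, walk, mv, en]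
      exact List.Sublist.cons_cons _ (ih _)

/-- the path -/
def F : ℕ → List Mv
  | 0 => [.D]
  | l + 1 => F l ++ (List.replicate (2 ^ l) .W ++ (F l ++ (List.replicate (2 * 2 ^ l) .S ++
      (F l ++ (List.replicate (2 ^ l) .W ++ F l)))))

theorem flatMap_rep_W (n : ℕ) : (List.replicate n Mv.W).flatMap emb = List.replicate n Dir.W := by
  induction n with
  | zero => rfl
  | succ n ih => simp [List.replicate_succ, emb, ih]

theorem flatMap_rep_S (n : ℕ) : (List.replicate n Mv.S).flatMap emb = List.replicate n Dir.S := by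
  induction n with
  | zero => rfl
  | succ n ih => simp [List.replicate_succ, emb, ih]

theorem flatMap_F (l : ℕ) : (F l).flatMap emb = Q2 0 l := by
  induction l with
  | zero => simp [F, Q2, emb]
  | succ l ih =>
    simp only [F, Q2, List.flatMap_append, ih, flatMap_rep_W, flatMap_rep_S]

theorem en_F (l : ℕ) (x y : ℤ) : en (x, y) (F l) = (x + 2 ^ l, y + 2 ^ l) := by
  rw [← en_emb, flatMap_F, run_Q2]

theorem en_rep_W (x y : ℤ) (n : ℕ) : en (x, y) (List.replicate n .W) = (x - n, y) := by
  rw [← en_emb, flatMap_rep_W, run_rep_W]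

theorem en_rep_S (x y : ℤ) (n : ℕ) : en (x, y) (List.replicate n .S) = (x, y - n) := by
  rw [← en_emb, flatMap_rep_S, run_rep_S]

theorem tr_F_succ (l : ℕ) (x y : ℤ) : tr (x, y) (F (l + 1)) =
    tr (x, y) (F l) ++ (tr (x + 2 ^ l, y + 2 ^ l) (List.replicate (2 ^ l) .W) ++
    (tr (x, y + 2 ^ l) (F l) ++
    (tr (x + 2 ^ l, y + 2 * 2 ^ l) (List.replicate (2 * 2 ^ l) .S) ++
    (tr (x + 2 ^ l, y) (F l) ++
    (tr (x + 2 * 2 ^ l, y + 2 ^ l) (List.replicate (2 ^ l) .W) ++
    tr (x + 2 ^ l, y + 2 ^ l) (F l)))))) := by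
  rw [F, tr_append, tr_append, tr_append, tr_append, tr_append, tr_append]
  simp only [en_F, en_rep_W, en_rep_S]
  push_cast
  have e1 : x + 2 ^ l - 2 ^ l = x := by ring
  have e2 : y + 2 ^ l + 2 ^ l = y + 2 * 2 ^ l := by ring
  have e3 : y + 2 * 2 ^ l - 2 * 2 ^ l = y := by ring
  have e4 : x + 2 ^ l + 2 ^ l = x + 2 * 2 ^ l := by ring
  have e5 : x + 2 * 2 ^ l - 2 ^ l = x + 2 ^ l := by ring
  simp only [e1, e2, e3, e4, e5]

/-- all lattice points of the path -/
theorem box_F (l : ℕ) (x y : ℤ) : ∀ q ∈ (x, y) :: wk (x, y) (F l),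
    x ≤ q.1 ∧ q.1 ≤ x + 2 ^ l ∧ y ≤ q.2 ∧ q.2 ≤ y + 2 ^ l := by
  intro q hq
  have h := (wk_sublist (x, y) (F l)).subset hq
  rw [flatMap_F, en_F, List.mem_append] at h
  rcases h with h | h
  · exact box_Q2 0 l x y q h
  · have hb : (0 : ℤ) < 2 ^ l := by positivity
    obtain rfl := List.mem_singleton.1 h
    refine ⟨?_, ?_, ?_, ?_⟩ <;> simp only <;> omega

/-- no later point is south-west of an earlier one -/
theorem sw_F (l : ℕ) : ((0, 0) :: wk (0, 0) (F l)).Pairwise
    (fun p q => ¬ (q.1 < p.1 ∧ q.2 < p.2)) := by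
  refine List.Pairwise.sublist (wk_sublist _ _) ?_
  rw [flatMap_F, en_F, List.pairwise_append]
  refine ⟨sw_Q2 0 l 0 0, List.pairwise_singleton _ _, ?_⟩
  intro p hp q hq
  obtain rfl := List.mem_singleton.1 hq
  have := box_Q2 0 l 0 0 p hp
  simp only
  omega

theorem ac_sublist {α : Type*} {f : α → ℤ} {a b : ℕ} {L M : List α} (h : AC f a b M)
    (hs : L.Sublist M) : AC f a b L := by
  induction hs generalizing a with
  | slnil => exact h
  | cons x hs ih =>
    cases h with
    | cons h1 h2 h3 => exact (ih h3).mono_left h1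
  | cons_cons x hs ih =>
    cases h with
    | cons h1 h2 h3 => exact .cons h1 h2 (ih h3)

theorem col_F (l : ℕ) (hl : 1 ≤ l) (i k : ℤ) (hi : 0 ≤ i) (hi' : i < 2 ^ l) :
    ∃ c, Even c ∧ c ≤ 4 * l ∧ AC (colf i k) 1 c (wk (0, 0) (F l)) := by
  have h := col_Q2 0 l 0 0 i k hi (by simpa using hi') 1 odd_one
  have hc := cn_le 0 true l hl (i - 0) (k - (0 - 0))
  have ho := cn_odd 0 true l (i - 0) (k - (0 - 0))
  refine ⟨1 + cn 0 true l (i - 0) (k - (0 - 0)), ho.one_add, by omega, ?_⟩
  have h2 : AC (colf i k) (1 + cn 0 true l (i - 0) (k - (0 - 0)))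
      (1 + cn 0 true l (i - 0) (k - (0 - 0))) [en (0, 0) (F l)] := by
    refine AC.const_nonneg ho.one_add (fun z hz => ?_)
    obtain rfl := List.mem_singleton.1 hz
    rw [en_F]
    apply colf_nonneg_of
    left
    simpa using hi'
  have h3 := h.append h2
  rw [← flatMap_F] at h3
  exact ac_sublist (ac_sublist h3 (wk_sublist _ _)) (List.sublist_cons_self _ _)

theorem row_F (l : ℕ) (hl : 1 ≤ l) (j k : ℤ) (hj : 0 ≤ j) (hj' : j < 2 ^ l) :
    ∃ c, Even c ∧ c ≤ 4 * l ∧ AC (fun p => - rowf j k p) 1 c (wk (0, 0) (F l)) := by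
  have h := row_Q2 0 l 0 0 j k hj (by simpa using hj') 2 even_two
  have hc := cn_le 0 false l hl (j - 0) (k - (0 - 0))
  have ho := cn_odd 0 false l (j - 0) (k - (0 - 0))
  refine ⟨1 + cn 0 false l (j - 0) (k - (0 - 0)), ho.one_add, by omega, ?_⟩
  have h2 : AC (rowf j k) (2 + cn 0 false l (j - 0) (k - (0 - 0)))
      (2 + cn 0 false l (j - 0) (k - (0 - 0))) [en (0, 0) (F l)] := by
    refine AC.const_nonpos (even_two.add_odd ho) (fun z hz => ?_)
    obtain rfl := List.mem_singleton.1 hz
    rw [en_F]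
    apply rowf_nonpos_of
    left
    simpa using hj'
  have h3 := h.append h2
  rw [← flatMap_F] at h3
  have h4 := ac_sublist (ac_sublist h3 (wk_sublist _ _)) (List.sublist_cons_self _ _)
  apply AC.neg
  convert h4 using 1
  omega

/-! ### Counting -/

theorem cnt_append {R : Type} [DecidableEq R] (r : R) (S T : List (SStep R)) :
    cnt r (S ++ T) = cnt r S + cnt r T := by
  simp [cnt, List.countP_append]

theorem cnt_nil {R : Type} [DecidableEq R] (r : R) : cnt r [] = 0 := rfl

theorem cnt_cons {R : Type} [DecidableEq R] (r : R) (e : SStep R) (S : List (SStep R)) :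
    cnt r (e :: S) = cnt r S + (if e.1.1 = r ∨ e.1.2 = r then 1 else 0) := by
  simp [cnt, List.countP_cons]

theorem cnt_P_W (i x y : ℤ) (n : ℕ) : cnt (.P i) (tr (x, y) (List.replicate n .W)) =
    if x - n ≤ i ∧ i < x then 1 else 0 := by
  induction n generalizing x with
  | zero =>
    simp only [List.replicate_zero, tr, cnt_nil]
    split_ifs <;> first | rfl | (simp at *; omega)
  | succ n ih =>
    simp only [List.replicate_succ, tr, cnt_cons, ap, ex, ih, reduceCtorEq, false_or, Ro.P.injEq]
    push_cast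
    split_ifs <;> omega

theorem cnt_P_S (i x y : ℤ) (n : ℕ) : cnt (.P i) (tr (x, y) (List.replicate n .S)) = 0 := by
  induction n generalizing y with
  | zero => rfl
  | succ n ih =>
    simp only [List.replicate_succ, tr, cnt_cons, ap, ex, ih, reduceCtorEq, or_self, if_false]

theorem cnt_Q_W (j x y : ℤ) (n : ℕ) : cnt (.Q j) (tr (x, y) (List.replicate n .W)) = 0 := by
  induction n generalizing x with
  | zero => rfl
  | succ n ih =>
    simp only [List.replicate_succ, tr, cnt_cons, ap, ex, ih, reduceCtorEq, or_self, if_false]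

theorem cnt_Q_S (j x y : ℤ) (n : ℕ) : cnt (.Q j) (tr (x, y) (List.replicate n .S)) =
    if y - n ≤ j ∧ j < y then 1 else 0 := by
  induction n generalizing y with
  | zero =>
    simp only [List.replicate_zero, tr, cnt_nil]
    split_ifs <;> first | rfl | (simp at *; omega)
  | succ n ih =>
    simp only [List.replicate_succ, tr, cnt_cons, ap, ex, ih, reduceCtorEq, or_false, Ro.Q.injEq]
    push_cast
    split_ifs <;> omega

theorem cnt_K_W (k x y : ℤ) (n : ℕ) : cnt (.K k) (tr (x, y) (List.replicate n .W)) =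
    if y - x ≤ k ∧ k < y - x + n then 1 else 0 := by
  induction n generalizing x with
  | zero =>
    simp only [List.replicate_zero, tr, cnt_nil]
    split_ifs <;> first | rfl | (simp at *; omega)
  | succ n ih =>
    simp only [List.replicate_succ, tr, cnt_cons, ap, ex, ih, reduceCtorEq, or_false, Ro.K.injEq]
    push_cast
    split_ifs <;> omega

theorem cnt_K_S (k x y : ℤ) (n : ℕ) : cnt (.K k) (tr (x, y) (List.replicate n .S)) =
    if y - x - n ≤ k ∧ k < y - x then 1 else 0 := by
  induction n generalizing y with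
  | zero =>
    simp only [List.replicate_zero, tr, cnt_nil]
    split_ifs <;> first | rfl | (simp at *; omega)
  | succ n ih =>
    simp only [List.replicate_succ, tr, cnt_cons, ap, ex, ih, reduceCtorEq, false_or, Ro.K.injEq]
    push_cast
    split_ifs <;> omega

theorem cnt_P_F (l : ℕ) (i x y : ℤ) : (cnt (.P i) (tr (x, y) (F l)) : ℤ) =
    if x ≤ i ∧ i < x + 2 ^ l then 2 * 2 ^ l - 1 else 0 := by
  induction l generalizing x y with
  | zero =>
    simp only [F, tr, cnt_cons, cnt_nil, ex, Ro.P.injEq, reduceCtorEq, or_false]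
    push_cast
    split_ifs <;> omega
  | succ l ih =>
    have hb : (0 : ℤ) < 2 ^ l := by positivity
    rw [tr_F_succ]
    simp only [cnt_append]
    push_cast
    rw [ih, ih, ih, ih, cnt_P_W, cnt_P_S, cnt_P_W, pow_succ]
    push_cast
    split_ifs <;> omega

theorem cnt_Q_F (l : ℕ) (j x y : ℤ) : (cnt (.Q j) (tr (x, y) (F l)) : ℤ) =
    if y ≤ j ∧ j < y + 2 ^ l then 2 * 2 ^ l - 1 else 0 := by
  induction l generalizing x y with
  | zero =>
    simp only [F, tr, cnt_cons, cnt_nil, ex, Ro.Q.injEq, reduceCtorEq, false_or]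
    push_cast
    split_ifs <;> omega
  | succ l ih =>
    have hb : (0 : ℤ) < 2 ^ l := by positivity
    rw [tr_F_succ]
    simp only [cnt_append]
    push_cast
    rw [ih, ih, ih, ih, cnt_Q_W, cnt_Q_S, cnt_Q_W, pow_succ]
    push_cast
    split_ifs <;> omega

/-- the number of exchanges of a diagonal -/
def kc (b z : ℤ) : ℤ := 2 * max 0 (min (b - 1 - z) (z + b))

theorem kc_step (b z : ℤ) (hb : 0 < b) : kc (b * 2) z = 2 * kc b z + kc b (z - b) +
    kc b (z + b) + (if 0 ≤ z ∧ z < b then 1 else 0) + (if -b ≤ z ∧ z < b then 1 else 0) +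
    (if -b ≤ z ∧ z < 0 then 1 else 0) := by
  unfold kc
  rcases lt_or_ge z (-b) with h1 | h1
  · rw [if_neg (by omega), if_neg (by omega), if_neg (by omega)]
    omega
  rcases lt_or_ge z 0 with h2 | h2
  · rw [if_neg (by omega), if_pos (by omega), if_pos (by omega)]
    omega
  rcases lt_or_ge z b with h3 | h3
  · rw [if_pos (by omega), if_pos (by omega), if_neg (by omega)]
    omega
  · rw [if_neg (by omega), if_neg (by omega), if_neg (by omega)]
    omega

theorem cnt_K_F (l : ℕ) (k x y : ℤ) : (cnt (.K k) (tr (x, y) (F l)) : ℤ) =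
    kc (2 ^ l) (k - (y - x)) := by
  induction l generalizing x y with
  | zero =>
    simp only [F, tr, cnt_cons, cnt_nil, ex, reduceCtorEq, or_self, if_false, kc]
    push_cast
    omega
  | succ l ih =>
    have hb : (0 : ℤ) < 2 ^ l := by positivity
    have h1 : (cnt (.K k) (tr (x + 2 ^ l, y + 2 ^ l) (List.replicate (2 ^ l) .W)) : ℤ) =
        if 0 ≤ k - (y - x) ∧ k - (y - x) < 2 ^ l then 1 else 0 := by
      rw [cnt_K_W, Nat.cast_ite]
      push_cast
      exact if_congr (by omega) rfl rfl
    have h2 : (cnt (.K k) (tr (x + 2 ^ l, y + 2 * 2 ^ l)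
        (List.replicate (2 * 2 ^ l) .S)) : ℤ) =
        if -2 ^ l ≤ k - (y - x) ∧ k - (y - x) < 2 ^ l then 1 else 0 := by
      rw [cnt_K_S, Nat.cast_ite]
      push_cast
      exact if_congr (by omega) rfl rfl
    have h3 : (cnt (.K k) (tr (x + 2 * 2 ^ l, y + 2 ^ l) (List.replicate (2 ^ l) .W)) : ℤ) =
        if -2 ^ l ≤ k - (y - x) ∧ k - (y - x) < 0 then 1 else 0 := by
      rw [cnt_K_W, Nat.cast_ite]
      push_cast
      exact if_congr (by omega) rfl rfl
    rw [tr_F_succ, cnt_append, cnt_append, cnt_append, cnt_append, cnt_append, cnt_append,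
      Nat.cast_add, Nat.cast_add, Nat.cast_add, Nat.cast_add, Nat.cast_add, Nat.cast_add,
      ih, ih, ih, ih, h1, h2, h3, pow_succ, kc_step _ _ hb,
      show k - (y + 2 ^ l - x) = k - (y - x) - 2 ^ l by ring,
      show k - (y - (x + 2 ^ l)) = k - (y - x) + 2 ^ l by ring,
      show k - (y + 2 ^ l - (x + 2 ^ l)) = k - (y - x) by ring]
    ring

theorem countP_tr_rep (b : Mv) (hb : isD b = false) (p : ℤ × ℤ) (n : ℕ) :
    (tr p (List.replicate n b)).countP (fun e => e.2) = 0 := by
  induction n generalizing p with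
  | zero => rfl
  | succ n ih => simp [List.replicate_succ, tr, hb, ih]

theorem countP_F (l : ℕ) (x y : ℤ) : (tr (x, y) (F l)).countP (fun e => e.2) = 4 ^ l := by
  induction l generalizing x y with
  | zero => simp [F, tr, isD]
  | succ l ih =>
    rw [tr_F_succ, List.countP_append, List.countP_append, List.countP_append,
      List.countP_append, List.countP_append, List.countP_append, ih, ih, ih, ih,
      countP_tr_rep .W rfl, countP_tr_rep .S rfl, countP_tr_rep .W rfl, pow_succ]
    omega

/-! ### The last segment -/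

/-- the states of the last segment -/
def stF (m : ℤ) (t : ℕ) : Ro → ℤ
  | .P i => if i < m then 1 else 0
  | .K k => if k < -t ∨ (0 ≤ k ∧ k < t) then 1 else 0
  | .Q j => if m ≤ j then 1 else 0

/-- the last segment: the diagonals are exchanged -/
def trF : ℕ → ℕ → List (SStep Ro)
  | _, 0 => []
  | t, n + 1 => ((.K t, .K (-1 - t)), false) :: trF (t + 1) n

theorem stR_eq_stF (m : ℤ) : stR (m, m) = stF m 0 := by
  funext c
  cases c <;> simp only [stR, stF] <;> split_ifs <;> simp at * <;> omega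

theorem stp_fin (m : ℤ) (t : ℕ) : stp (stF m t) (.K t, .K (-1 - t)) = stF m (t + 1) := by
  funext c
  cases c <;> simp only [stp, stF, Ro.K.injEq, reduceCtorEq, if_false] <;> push_cast <;>
    split_ifs <;> omega

theorem valid_fin (m : ℤ) (t : ℕ) : stF m t (.K t) = 0 ∧ stF m t (.K (-1 - t)) = 1 := by
  constructor <;> simp only [stF] <;> split_ifs <;> omega

theorem posts_fin (m : ℤ) (t n : ℕ) : ∀ x ∈ posts (stF m t) ((trF t n).map Prod.fst),
    ∃ t' : ℕ, t < t' ∧ x = stF m t' := by
  induction n generalizing t with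
  | zero => intro x hx; simp [trF, posts] at hx
  | succ n ih =>
    intro x hx
    simp only [trF, List.map_cons, posts, stp_fin, List.mem_cons] at hx
    rcases hx with rfl | hx
    · exact ⟨t + 1, by omega, rfl⟩
    · obtain ⟨t', h1, h2⟩ := ih (t + 1) x hx
      exact ⟨t', by omega, h2⟩

theorem run_fin (m : ℤ) (t n : ℕ) :
    run (stF m t) ((trF t n).map Prod.fst) = stF m (t + n) := by
  induction n generalizing t with
  | zero => rfl
  | succ n ih =>
    simp only [trF, List.map_cons, run, stp_fin, ih]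
    congr 1
    omega

theorem valid_trF (m : ℤ) (t n : ℕ) : Valid (stF m t) ((trF t n).map Prod.fst) := by
  induction n generalizing t with
  | zero => trivial
  | succ n ih =>
    simp only [trF, List.map_cons, Valid, stp_fin]
    exact ⟨(valid_fin m t).1, (valid_fin m t).2, ih _⟩

theorem mem_trF {t n : ℕ} {e : SStep Ro} (h : e ∈ trF t n) :
    e.2 = false ∧ ∃ i : ℕ, t ≤ i ∧ i < t + n ∧ e.1 = (.K i, .K (-1 - i)) := by
  induction n generalizing t with
  | zero => simp [trF] at h
  | succ n ih =>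
    simp only [trF, List.mem_cons] at h
    rcases h with rfl | h
    · exact ⟨rfl, t, le_rfl, by omega, rfl⟩
    · obtain ⟨h1, i, h2, h3, h4⟩ := ih h
      exact ⟨h1, i, by omega, by omega, h4⟩

theorem cnt_trF (t n : ℕ) (r : Ro) : cnt r (trF t n) ≤ 1 := by
  induction n generalizing t with
  | zero => simp [trF, cnt_nil]
  | succ n ih =>
    simp only [trF, cnt_cons]
    by_cases h : (Ro.K t = r ∨ Ro.K (-1 - t) = r)
    · have h0 : cnt r (trF (t + 1) n) = 0 := by
        unfold cnt
        rw [List.countP_eq_zero]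
        intro e he
        obtain ⟨_, i, h2, _, h4⟩ := mem_trF he
        rw [h4]
        simp only [decide_eq_true_eq, not_or]
        rcases h with rfl | rfl
        · simp only [Ro.K.injEq]
          omega
        · simp only [Ro.K.injEq]
          omega
      rw [if_pos h]
      omega
    · rw [if_neg h]
      exact ih (t + 1)

/-- the whole seed, in terms of columns, diagonals and rows -/
def SR (l : ℕ) : List (SStep Ro) := tr (0, 0) (F l) ++ trF 0 (2 ^ l)

theorem posts_SR (l : ℕ) : posts (stR (0, 0)) ((SR l).map Prod.fst) =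
    (wk (0, 0) (F l)).map stR ++ posts (stF (2 ^ l) 0) ((trF 0 (2 ^ l)).map Prod.fst) := by
  rw [SR, List.map_append, posts_append, posts_tr, run_tr, en_F]
  simp only [zero_add, stR_eq_stF]

theorem run_SR (l : ℕ) : run (stR (0, 0)) ((SR l).map Prod.fst) = stF (2 ^ l) (2 ^ l) := by
  rw [SR, List.map_append, run_append, run_tr, en_F]
  simp only [zero_add, stR_eq_stF, run_fin]

theorem valid_SR (l : ℕ) : Valid (stR (0, 0)) ((SR l).map Prod.fst) := by
  rw [SR, List.map_append, valid_append]
  refine ⟨valid_tr _ _, ?_⟩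
  rw [run_tr, en_F]
  simp only [zero_add, stR_eq_stF]
  exact valid_trF _ _ _

/-- the roles in use -/
def InR (m : ℤ) : Ro → Prop
  | .P i => 0 ≤ i ∧ i < m
  | .K k => -m ≤ k ∧ k < m
  | .Q j => 0 ≤ j ∧ j < m

theorem inR_tr {m : ℤ} (p : ℤ × ℤ) (L : List Mv)
    (h : ∀ q ∈ p :: wk p L, 0 ≤ q.1 ∧ q.1 ≤ m ∧ 0 ≤ q.2 ∧ q.2 ≤ m) :
    ∀ e ∈ tr p L, InR m e.1.1 ∧ InR m e.1.2 := by
  induction L generalizing p with
  | nil => intro e he; simp [tr] at he
  | cons d L ih =>
    intro e he
    have h1 := h p (by simp)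
    have h2 := h (ap d p) (by simp [wk])
    simp only [tr, List.mem_cons] at he
    rcases he with rfl | he
    · cases d <;> simp only [ex, InR, ap] at * <;> omega
    · exact ih (ap d p) (fun q hq => h q (List.mem_cons_of_mem _ (by simpa [wk] using hq))) e he

theorem inR_SR (l : ℕ) : ∀ e ∈ SR l, InR (2 ^ l) e.1.1 ∧ InR (2 ^ l) e.1.2 := by
  intro e he
  rw [SR, List.mem_append] at he
  rcases he with he | he
  · refine inR_tr _ _ (fun q hq => ?_) e he
    simpa using box_F l 0 0 q hq
  · obtain ⟨_, i, h1, h2, h3⟩ := mem_trF he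
    rw [h3]
    have : (i : ℤ) < 2 ^ l := by
      have : ((i : ℕ) : ℤ) < ((2 ^ l : ℕ) : ℤ) := by exact_mod_cast (by omega : i < 2 ^ l)
      simpa using this
    simp only [InR]
    omega

theorem cnt_SR (l : ℕ) (r : Ro) : cnt r (SR l) ≤ 2 * 2 ^ l - 1 := by
  have hb : (0 : ℤ) < 2 ^ l := by positivity
  have hb' : 0 < 2 ^ l := by positivity
  rw [SR, cnt_append]
  cases r with
  | P i =>
    have h1 := cnt_P_F l i 0 0
    have h2 : cnt (.P i) (trF 0 (2 ^ l)) = 0 := by
      unfold cnt
      rw [List.countP_eq_zero]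
      intro e he
      obtain ⟨_, i, _, _, h4⟩ := mem_trF he
      rw [h4]
      simp
    rw [h2]
    have : ((cnt (.P i) (tr (0, 0) (F l)) : ℕ) : ℤ) ≤ 2 * 2 ^ l - 1 := by
      rw [h1]
      split_ifs <;> omega
    have : ((cnt (.P i) (tr (0, 0) (F l)) : ℕ) : ℤ) ≤ ((2 * 2 ^ l - 1 : ℕ) : ℤ) := by
      rw [Nat.cast_sub (by omega)]
      push_cast
      exact this
    exact_mod_cast this
  | Q j =>
    have h1 := cnt_Q_F l j 0 0
    have h2 : cnt (.Q j) (trF 0 (2 ^ l)) = 0 := by
      unfold cnt
      rw [List.countP_eq_zero]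
      intro e he
      obtain ⟨_, i, _, _, h4⟩ := mem_trF he
      rw [h4]
      simp
    rw [h2]
    have : ((cnt (.Q j) (tr (0, 0) (F l)) : ℕ) : ℤ) ≤ 2 * 2 ^ l - 1 := by
      rw [h1]
      split_ifs <;> omega
    have : ((cnt (.Q j) (tr (0, 0) (F l)) : ℕ) : ℤ) ≤ ((2 * 2 ^ l - 1 : ℕ) : ℤ) := by
      rw [Nat.cast_sub (by omega)]
      push_cast
      exact this
    exact_mod_cast this
  | K k =>
    have h1 := cnt_K_F l k 0 0
    have h2 : cnt (.K k) (trF 0 (2 ^ l)) ≤ 1 := cnt_trF _ _ _
    have : ((cnt (.K k) (tr (0, 0) (F l)) : ℕ) : ℤ) ≤ 2 * 2 ^ l - 2 := by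
      rw [h1, kc]
      omega
    have : ((cnt (.K k) (tr (0, 0) (F l)) : ℕ) : ℤ) ≤ ((2 * 2 ^ l - 2 : ℕ) : ℤ) := by
      rw [Nat.cast_sub (by omega)]
      push_cast
      exact this
    have : cnt (.K k) (tr (0, 0) (F l)) ≤ 2 * 2 ^ l - 2 := by exact_mod_cast this
    omega

theorem countP_SR (l : ℕ) : (SR l).countP (fun e => e.2) = 4 ^ l := by
  rw [SR, List.countP_append, countP_F]
  have : (trF 0 (2 ^ l)).countP (fun e => e.2) = 0 := by
    rw [List.countP_eq_zero]
    intro e he
    rw [(mem_trF he).1]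
    simp
  omega

/-! ### Sign certificates -/

section sac

variable {R : Type} [DecidableEq R]

theorem SAC.mono_left {sg : ℕ} {r r' : R} {y : R → ℤ} {a a₀ b : ℕ} {S : List (SStep R)}
    (h : SAC sg r r' y a b S) (h0 : a₀ ≤ a) : SAC sg r r' y a₀ b S := by
  cases S with
  | nil => exact h0.trans h
  | cons e S =>
    obtain ⟨a', h1, h2, h3, h4⟩ := h
    exact ⟨a', h0.trans h1, fun he => (Nat.add_le_add_right h0 sg).trans (h2 he), h3, h4⟩

theorem sac_of_ac {sg : ℕ} {r r' : R} {y : R → ℤ} {a b : ℕ} {S : List (SStep R)}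
    (hS : ∀ e ∈ S, ¬ (e.2 = true ∧ e.1 = (r, r')))
    (h : AC (fun z : R → ℤ => z r - z r') a b (posts y (S.map Prod.fst))) :
    SAC sg r r' y a b S := by
  induction S generalizing y a with
  | nil => exact h.le
  | cons e S ih =>
    simp only [List.map_cons, posts] at h
    cases h with
    | cons h1 h2 h3 =>
      exact ⟨_, h1, fun he => absurd he (hS e (by simp)), h2,
        ih (fun e he => hS e (List.mem_cons_of_mem _ he)) h3⟩

end sac

theorem sac_ne {i j : ℤ} {sg a b : ℕ} (ha : Even a) {T : List (SStep Ro)} (L : List Mv)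
    (p : ℤ × ℤ) (h : ∀ q ∈ p :: wk p L, ¬ (q.1 ≤ i ∧ q.2 ≤ j))
    (hT : SAC sg (.P i) (.Q j) (stR (en p L)) a b T) :
    SAC sg (.P i) (.Q j) (stR p) a b (tr p L ++ T) := by
  induction L generalizing p with
  | nil => exact hT
  | cons d L ih =>
    have h1 := h p (by simp)
    have h2 := h (ap d p) (by simp [wk])
    refine ⟨a, le_rfl, ?_, ?_, ?_⟩
    · rintro ⟨_, he⟩
      exfalso
      cases d <;> simp only [ex, Prod.mk.injEq, Ro.P.injEq, Ro.Q.injEq, reduceCtorEq,
        and_false] at he
      omega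
    · rw [stp_ex, ha.neg_one_pow, one_mul]
      simp only [stR]
      split_ifs <;> omega
    · rw [stp_ex]
      exact ih (ap d p) (fun q hq => h q (List.mem_cons_of_mem _ (by simpa [wk] using hq))) hT

theorem sac_sw {i j : ℤ} {sg b : ℕ} (ha : Even (1 + sg)) {T : List (SStep Ro)} (L : List Mv)
    (p : ℤ × ℤ) (h : (p :: wk p L).Pairwise (fun p q => ¬ (q.1 < p.1 ∧ q.2 < p.2)))
    (hT : SAC sg (.P i) (.Q j) (stR (en p L)) (1 + sg) b T) :
    SAC sg (.P i) (.Q j) (stR p) 1 b (tr p L ++ T) := by
  induction L generalizing p with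
  | nil => exact hT.mono_left (by omega)
  | cons d L ih =>
    have hw : (ap d p :: wk (ap d p) L).Pairwise (fun p q => ¬ (q.1 < p.1 ∧ q.2 < p.2)) := by
      simpa [wk] using (List.pairwise_cons.1 h).2
    by_cases hn : i < (ap d p).1 ∧ j < (ap d p).2
    · refine ⟨1 + sg, by omega, fun _ => le_rfl, ?_, ?_⟩
      · rw [stp_ex, ha.neg_one_pow, one_mul]
        simp only [stR]
        split_ifs <;> omega
      · rw [stp_ex]
        refine sac_ne ha L (ap d p) (fun q hq => ?_) hT
        rcases List.mem_cons.1 hq with rfl | hq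
        · omega
        · have := (List.pairwise_cons.1 hw).1 q hq
          omega
    · refine ⟨1, le_rfl, ?_, ?_, ?_⟩
      · rintro ⟨_, he⟩
        exfalso
        cases d <;> simp only [ex, Prod.mk.injEq, Ro.P.injEq, Ro.Q.injEq, reduceCtorEq,
          and_false] at he
        simp only [ap] at hn
        omega
      · rw [stp_ex]
        simp only [stR]
        split_ifs <;> omega
      · rw [stp_ex]
        exact ih (ap d p) hw hT

theorem posts_trF (m : ℤ) (t n : ℕ) :
    posts (stF m t) ((trF t n).map Prod.fst) = (List.range' (t + 1) n).map (stF m) := by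
  induction n generalizing t with
  | zero => rfl
  | succ n ih =>
    simp only [trF, List.map_cons, posts, stp_fin, List.range'_succ, ih]

theorem odd_sg {l : ℕ} (hl : 1 ≤ l) : Odd (4 * l - 1) := ⟨2 * l - 1, by omega⟩

theorem sac_PQ (l : ℕ) (hl : 1 ≤ l) (i j : ℤ) (hi : i < 2 ^ l) (hj : j < 2 ^ l) :
    SAC (4 * l - 1) (.P i) (.Q j) (stR (0, 0)) 1 (1 + (4 * l - 1)) (SR l) := by
  have ha : Even (1 + (4 * l - 1)) := (odd_sg hl).one_add
  refine sac_sw ha _ _ (sw_F l) ?_
  rw [en_F]
  simp only [zero_add, stR_eq_stF]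
  refine sac_of_ac (fun e he => ?_) ?_
  · rw [(mem_trF he).1]
    simp
  · refine AC.const_nonneg ha (fun z hz => ?_)
    obtain ⟨t, _, rfl⟩ := posts_fin _ _ _ z hz
    simp only [stF]
    split_ifs <;> omega

theorem ne_pure_tr (p : ℤ × ℤ) (L : List Mv) (r r' : Ro) (h : ∀ i j, ¬ (r = .P i ∧ r' = .Q j)) :
    ∀ e ∈ tr p L, ¬ (e.2 = true ∧ e.1 = (r, r')) := by
  induction L generalizing p with
  | nil => intro e he; simp [tr] at he
  | cons d L ih =>
    intro e he
    simp only [tr, List.mem_cons] at he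
    rcases he with rfl | he
    · rintro ⟨h1, h2⟩
      cases d
      · simp only [ex, Prod.mk.injEq] at h2
        exact h _ _ ⟨h2.1.symm, h2.2.symm⟩
      · simp [isD] at h1
      · simp [isD] at h1
    · exact ih _ e he

theorem ne_pure_SR (l : ℕ) (r r' : Ro) (h : ∀ i j, ¬ (r = .P i ∧ r' = .Q j)) :
    ∀ e ∈ SR l, ¬ (e.2 = true ∧ e.1 = (r, r')) := by
  intro e he
  rw [SR, List.mem_append] at he
  rcases he with he | he
  · exact ne_pure_tr _ _ _ _ h e he
  · rw [(mem_trF he).1]
    simp

theorem sac_PK (l : ℕ) (hl : 1 ≤ l) (i k : ℤ) (hi : 0 ≤ i) (hi' : i < 2 ^ l) :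
    SAC (4 * l - 1) (.P i) (.K k) (stR (0, 0)) 1 (1 + (4 * l - 1)) (SR l) := by
  refine sac_of_ac (ne_pure_SR _ _ _ (by simp)) ?_
  rw [posts_SR]
  obtain ⟨c, h1, h2, h3⟩ := col_F l hl i k hi hi'
  refine AC.mono_right (b := c) (AC.append (b := c) (AC.map ?_) ?_) (by omega)
  · exact h3
  · refine AC.const_nonneg h1 (fun z hz => ?_)
    obtain ⟨t, _, rfl⟩ := posts_fin _ _ _ z hz
    simp only [stF]
    split_ifs <;> omega

theorem sac_KQ (l : ℕ) (hl : 1 ≤ l) (j k : ℤ) (hj : 0 ≤ j) (hj' : j < 2 ^ l) :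
    SAC (4 * l - 1) (.K k) (.Q j) (stR (0, 0)) 1 (1 + (4 * l - 1)) (SR l) := by
  refine sac_of_ac (ne_pure_SR _ _ _ (by simp)) ?_
  rw [posts_SR]
  obtain ⟨c, h1, h2, h3⟩ := row_F l hl j k hj hj'
  refine AC.mono_right (b := c) (AC.append (b := c) (AC.map ?_) ?_) (by omega)
  · refine h3.congr (fun q _ => ?_)
    simp only [stR, rowf]
    ring
  · refine AC.const_nonneg h1 (fun z hz => ?_)
    obtain ⟨t, _, rfl⟩ := posts_fin _ _ _ z hz
    simp only [stF]
    split_ifs <;> omega

theorem sac_KK (l : ℕ) (hl : 1 ≤ l) (k k' : ℤ) (hk : 0 ≤ k) (hk' : k' < 0) :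
    SAC (4 * l - 1) (.K k) (.K k') (stR (0, 0)) 1 (1 + (4 * l - 1)) (SR l) := by
  refine sac_of_ac (ne_pure_SR _ _ _ (by simp)) ?_
  rw [posts_SR]
  refine AC.mono_right (b := 2) (AC.append (b := 1) (AC.map ?_) ?_) (by omega)
  · refine AC.const_nonpos odd_one (fun q _ => ?_)
    simp only [stR]
    split_ifs <;> omega
  · rw [posts_trF]
    apply AC.of_monotone odd_one
    rw [List.pairwise_map]
    refine List.Pairwise.imp ?_ (List.pairwise_lt_range' (s := 0 + 1) (n := 2 ^ l) (step := 1))
    intro t t' htt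
    simp only [stF]
    split_ifs <;> omega

/-! ### Transfer to roles -/

section roles

variable {m : ℕ}

/-- the column, diagonal or row of a role -/
def ofRole (m : ℕ) (r : Role 2 m) : Ro :=
  match r with
  | (false, c, i) => if c = 1 then .P (m - 1 - (i : ℕ)) else .K (m - 1 - (i : ℕ))
  | (true, c, i) => if c = 1 then .K (-1 - (i : ℕ)) else .Q (i : ℕ)

/-- an index -/
def ix (m : ℕ) (hm : 0 < m) (z : ℤ) : Fin m := ⟨z.toNat % m, Nat.mod_lt _ hm⟩

/-- the role of a column, diagonal or row -/
def toRole (m : ℕ) (hm : 0 < m) : Ro → Role 2 m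
  | .P i => (false, 1, ix m hm (m - 1 - i))
  | .K k => if 0 ≤ k then (false, 0, ix m hm (m - 1 - k)) else (true, 1, ix m hm (-1 - k))
  | .Q j => (true, 0, ix m hm j)

theorem ix_coe (hm : 0 < m) (i : Fin m) {z : ℤ} (hz : z = (i : ℕ)) : ix m hm z = i := by
  apply Fin.ext
  simp only [ix, hz, Int.toNat_natCast]
  exact Nat.mod_eq_of_lt i.2

theorem coe_ix (hm : 0 < m) {z : ℤ} (h0 : 0 ≤ z) (h1 : z < m) : ((ix m hm z : ℕ) : ℤ) = z := by
  simp only [ix]
  have h2 : z.toNat < m := by omega
  rw [Nat.mod_eq_of_lt h2]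
  omega

theorem toRole_ofRole (hm : 0 < m) (r : Role 2 m) : toRole m hm (ofRole m r) = r := by
  obtain ⟨b, c, i⟩ := r
  have hi := i.2
  have hc : c = 0 ∨ c = 1 := by omega
  cases b <;> rcases hc with rfl | rfl
  · simp only [ofRole, if_false, toRole, zero_ne_one]
    rw [if_pos (by omega)]
    rw [ix_coe hm i (by ring)]
  · simp only [ofRole, if_true, toRole]
    rw [ix_coe hm i (by ring)]
  · simp only [ofRole, if_false, toRole, zero_ne_one]
    rw [ix_coe hm i rfl]
  · simp only [ofRole, if_true, toRole]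
    rw [if_neg (by omega)]
    rw [ix_coe hm i (by ring)]

theorem ofRole_toRole (hm : 0 < m) {o : Ro} (h : InR m o) : ofRole m (toRole m hm o) = o := by
  cases o with
  | P i =>
    simp only [InR] at h
    simp only [toRole, ofRole, if_true, Ro.P.injEq]
    rw [coe_ix hm (by omega) (by omega)]
    ring
  | K k =>
    simp only [InR] at h
    simp only [toRole]
    split_ifs with h0
    · simp only [ofRole, if_false, zero_ne_one, Ro.K.injEq]
      rw [coe_ix hm (by omega) (by omega)]
      ring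
    · simp only [ofRole, if_true, Ro.K.injEq]
      rw [coe_ix hm (by omega) (by omega)]
      ring
  | Q j =>
    simp only [InR] at h
    simp only [toRole, ofRole, if_false, zero_ne_one, Ro.Q.injEq]
    rw [coe_ix hm (by omega) (by omega)]

/-- transfer of a step -/
def mp (m : ℕ) (hm : 0 < m) (e : SStep Ro) : SStep (Role 2 m) :=
  ((toRole m hm e.1.1, toRole m hm e.1.2), e.2)

theorem eq_toRole (hm : 0 < m) {o : Ro} (h : InR m o) (r : Role 2 m) :
    toRole m hm o = r ↔ o = ofRole m r := by
  constructor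
  · rintro rfl
    rw [ofRole_toRole hm h]
  · rintro rfl
    rw [toRole_ofRole]

theorem stp_mp (hm : 0 < m) (x : Ro → ℤ) {e : SStep Ro} (h : InR m e.1.1 ∧ InR m e.1.2) :
    stp (fun r => x (ofRole m r)) (mp m hm e).1 = fun r => stp x e.1 (ofRole m r) := by
  funext r
  simp only [stp, mp]
  have h1 := eq_toRole hm h.1 r
  have h2 := eq_toRole hm h.2 r
  have e1 : (r = toRole m hm e.1.1) = (ofRole m r = e.1.1) :=
    propext ⟨fun h => (h1.1 h.symm).symm, fun h => (h1.2 h.symm).symm⟩
  have e2 : (r = toRole m hm e.1.2) = (ofRole m r = e.1.2) :=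
    propext ⟨fun h => (h2.1 h.symm).symm, fun h => (h2.2 h.symm).symm⟩
  simp only [e1, e2]

theorem posts_mp (hm : 0 < m) (x : Ro → ℤ) (S : List (SStep Ro))
    (h : ∀ e ∈ S, InR m e.1.1 ∧ InR m e.1.2) :
    posts (fun r => x (ofRole m r)) ((S.map (mp m hm)).map Prod.fst) =
      (posts x (S.map Prod.fst)).map (fun y r => y (ofRole m r)) := by
  induction S generalizing x with
  | nil => rfl
  | cons e S ih =>
    simp only [List.map_cons, posts]
    rw [stp_mp hm x (h e (by simp))]
    rw [ih _ (fun e he => h e (List.mem_cons_of_mem _ he))]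

theorem run_mp (hm : 0 < m) (x : Ro → ℤ) (S : List (SStep Ro))
    (h : ∀ e ∈ S, InR m e.1.1 ∧ InR m e.1.2) :
    run (fun r => x (ofRole m r)) ((S.map (mp m hm)).map Prod.fst) =
      fun r => run x (S.map Prod.fst) (ofRole m r) := by
  induction S generalizing x with
  | nil => rfl
  | cons e S ih =>
    simp only [List.map_cons, run]
    rw [stp_mp hm x (h e (by simp))]
    rw [ih _ (fun e he => h e (List.mem_cons_of_mem _ he))]

theorem valid_mp (hm : 0 < m) (x : Ro → ℤ) (S : List (SStep Ro))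
    (h : ∀ e ∈ S, InR m e.1.1 ∧ InR m e.1.2) (hv : Valid x (S.map Prod.fst)) :
    Valid (fun r => x (ofRole m r)) ((S.map (mp m hm)).map Prod.fst) := by
  induction S generalizing x with
  | nil => trivial
  | cons e S ih =>
    simp only [List.map_cons, Valid] at hv ⊢
    rw [stp_mp hm x (h e (by simp))]
    refine ⟨?_, ?_, ih _ (fun e he => h e (List.mem_cons_of_mem _ he)) hv.2.2⟩
    · simp only [mp]
      rw [ofRole_toRole hm (h e (by simp)).1]
      exact hv.1
    · simp only [mp]
      rw [ofRole_toRole hm (h e (by simp)).2]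
      exact hv.2.1

theorem cnt_mp (hm : 0 < m) (r : Role 2 m) (S : List (SStep Ro))
    (h : ∀ e ∈ S, InR m e.1.1 ∧ InR m e.1.2) :
    cnt r (S.map (mp m hm)) = cnt (ofRole m r) S := by
  induction S with
  | nil => rfl
  | cons e S ih =>
    rw [List.map_cons, cnt_cons, cnt_cons, ih (fun e he => h e (List.mem_cons_of_mem _ he))]
    have h1 := eq_toRole hm (h e (by simp)).1 r
    have h2 := eq_toRole hm (h e (by simp)).2 r
    simp only [mp, h1, h2]

theorem sac_mp (hm : 0 < m) {sg a b : ℕ} (r r' : Role 2 m) (x : Ro → ℤ) (S : List (SStep Ro))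
    (h : ∀ e ∈ S, InR m e.1.1 ∧ InR m e.1.2)
    (hS : SAC sg (ofRole m r) (ofRole m r') x a b S) :
    SAC sg r r' (fun r => x (ofRole m r)) a b (S.map (mp m hm)) := by
  induction S generalizing x a with
  | nil => exact hS
  | cons e S ih =>
    obtain ⟨a', h1, h2, h3, h4⟩ := hS
    have he := h e (by simp)
    have hh : stp (fun r => x (ofRole m r)) (mp m hm e).1 = fun r => stp x e.1 (ofRole m r) :=
      stp_mp hm x he
    refine ⟨a', h1, ?_, ?_, ?_⟩
    · rintro ⟨k1, k2⟩
      refine h2 ⟨k1, ?_⟩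
      simp only [mp, Prod.mk.injEq] at k2
      exact Prod.ext ((eq_toRole hm he.1 r).1 k2.1) ((eq_toRole hm he.2 r').1 k2.2)
    · rw [hh]
      exact h3
    · rw [hh]
      exact ih _ (fun e he => h e (List.mem_cons_of_mem _ he)) h4

end roles

/-- the fractal seed -/
def seedF (l : ℕ) : List (SStep (Role 2 (2 ^ l))) :=
  (SR l).map (mp (2 ^ l) (by positivity))

theorem y0_eq (m : ℕ) : (y0 : Role 2 m → ℤ) = fun r => stR (0, 0) (ofRole m r) := by
  funext r
  obtain ⟨b, c, i⟩ := r
  have hi := i.2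
  cases b
  · simp only [y0, ofRole, Bool.false_eq_true, if_false]
    split_ifs <;> simp only [stR] <;> split_ifs <;> omega
  · simp only [y0, ofRole, if_true]
    split_ifs <;> simp only [stR] <;> split_ifs <;> omega

theorem countP_seedF (l : ℕ) : (seedF l).countP (fun e => e.2) = 4 ^ l := by
  rw [seedF, List.countP_map]
  exact countP_SR l

theorem mem_posts_SR {l : ℕ} {x : Ro → ℤ} (h : x ∈ posts (stR (0, 0)) ((SR l).map Prod.fst)) :
    (∃ q, x = stR q) ∨ ∃ t : ℕ, x = stF (2 ^ l) t := by
  rw [posts_SR, List.mem_append] at h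
  rcases h with h | h
  · obtain ⟨q, _, rfl⟩ := List.mem_map.1 h
    exact Or.inl ⟨q, rfl⟩
  · obtain ⟨t, _, rfl⟩ := posts_fin _ _ _ x h
    exact Or.inr ⟨t, rfl⟩

theorem seed_seedF (l : ℕ) (hl : 1 ≤ l) : Seed 2 (2 ^ l) (2 * 2 ^ l - 1) (4 * l - 1) (seedF l) where
  valid := by
    rw [y0_eq, seedF]
    refine valid_mp _ _ _ ?_ (valid_SR l)
    have := inR_SR l
    push_cast
    exact this
  last := by
    intro r
    rw [y0_eq, seedF, run_mp _ _ _ (by have := inR_SR l; push_cast; exact this), run_SR]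
    obtain ⟨b, c, i⟩ := r
    have hi : ((i : ℕ) : ℤ) < 2 ^ l := by
      have := i.2
      exact_mod_cast this
    cases b
    · simp only [ofRole]
      push_cast
      split_ifs <;> simp only [stR, stF] <;> push_cast <;> split_ifs <;> omega
    · simp only [ofRole]
      push_cast
      split_ifs <;> simp only [stR, stF] <;> push_cast <;> split_ifs <;> omega
  cnt_le := by
    intro r
    rw [seedF, cnt_mp _ _ _ (by have := inR_SR l; push_cast; exact this)]
    exact cnt_SR l _
  pure := by
    intro e he h2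
    rw [seedF, List.mem_map] at he
    obtain ⟨e', he', rfl⟩ := he
    rw [SR, List.mem_append] at he'
    rcases he' with h | h
    · have key : ∀ (p : ℤ × ℤ) (L : List Mv), ∀ e ∈ tr p L, e.2 = true →
          ∃ i j, e.1 = (.P i, .Q j) := by
        intro p L
        induction L generalizing p with
        | nil => intro e he; simp [tr] at he
        | cons d L ih =>
          intro e he h2
          simp only [tr, List.mem_cons] at he
          rcases he with rfl | he
          · cases d
            · exact ⟨_, _, rfl⟩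
            · simp [isD] at h2
            · simp [isD] at h2
          · exact ih _ e he h2
      obtain ⟨i, j, hij⟩ := key _ _ e' h h2
      left
      simp only [mp, hij, toRole, and_self]
    · rw [mp, (mem_trF h).1] at h2
      simp at h2
  sac := by
    intro r r' hp
    rw [y0_eq, seedF]
    refine sac_mp _ _ _ _ _ (by have := inR_SR l; push_cast; exact this) ?_
    obtain ⟨b, c, i⟩ := r
    obtain ⟨b', c', i'⟩ := r'
    have hi : ((i : ℕ) : ℤ) < 2 ^ l := by
      have := i.2
      exact_mod_cast this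
    have hi' : ((i' : ℕ) : ℤ) < 2 ^ l := by
      have := i'.2
      exact_mod_cast this
    have hc : c = 0 ∨ c = 1 := by omega
    have hc' : c' = 0 ∨ c' = 1 := by omega
    simp only [Prec] at hp
    rcases hp with ⟨rfl, rfl⟩ | ⟨rfl, h⟩
    · rcases hc with rfl | rfl <;> rcases hc' with rfl | rfl <;>
        simp only [ofRole, if_true, if_false, zero_ne_one] <;> push_cast
      · exact sac_KQ l hl _ _ (by omega) (by omega)
      · exact sac_KK l hl _ _ (by omega) (by omega)
      · exact sac_PQ l hl _ _ (by omega) (by omega)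
      · exact sac_PK l hl _ _ (by omega) (by omega)
    · have h1 : c = 1 ∧ c' = 0 := by
        rcases hc with rfl | rfl <;> rcases hc' with rfl | rfl <;> simp at h ⊢
      obtain ⟨rfl, rfl⟩ := h1
      cases b <;> simp only [ofRole, if_true, if_false, zero_ne_one] <;> push_cast
      · exact sac_PK l hl _ _ (by omega) (by omega)
      · exact sac_KQ l hl _ _ (by omega) (by omega)
  par := by
    intro y hy b k i j hij
    rw [y0_eq, seedF, posts_mp _ _ _ (by have := inR_SR l; push_cast; exact this),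
      List.mem_map] at hy
    obtain ⟨x, hx, rfl⟩ := hy
    have hij' : ((i : ℕ) : ℤ) ≤ (j : ℕ) := by exact_mod_cast hij
    rcases mem_posts_SR hx with ⟨q, rfl⟩ | ⟨t, rfl⟩
    · cases b <;> simp only [ofRole] <;> split_ifs <;> simp only [stR] <;> split_ifs <;> omega
    · cases b <;> simp only [ofRole] <;> split_ifs <;> simp only [stF] <;> split_ifs <;> omega

end LevelRec
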