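import Pool.Agent.LevelRec.Rec
import Pool.Agent.LevelRec.Expand

/-!
# The recursion: from blocks to groups
-/

namespace LevelRec

open LevelLower

namespace Prm

variable {p : Prm}

theorem W_pos (hX : 0 < p.X) (hm : 0 < p.m) (k : ℕ) : 0 < p.W k := by
  unfold W
  have : 0 < p.X * p.m := Nat.mul_pos hX hm
  have : (0 : ℤ) < ((p.X * p.m : ℕ) : ℤ) := by exact_mod_cast this
  positivity

/-- the sub-block of a group that belongs to a role -/
noncomputable def sub (p : Prm) (b : Bool) (P : ℕ → Fin p.g) (k : ℕ) (mu : ℤ) (t : ℕ)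
    (κ : Fin p.g) (i : Fin p.m) : Finset (Cur p.g) :=
  p.blk b (Function.update P k κ) k (mu + i * p.W k - t * p.al k κ) t

theorem mem_sub (hX : 0 < p.X) (hm : 0 < p.m) {b : Bool} {P : ℕ → Fin p.g} {k : ℕ} {mu : ℤ}
    {t : ℕ} {κ : Fin p.g} {i : Fin p.m} {c : Cur p.g} :
    c ∈ p.sub b P k mu t κ i ↔ c ∈ p.grp b P k mu t ∧ c.ka k = κ ∧
      mu + i * p.W k ≤ p.Z (k + 1) c t ∧ p.Z (k + 1) c t < mu + (i + 1) * p.W k := by
  have hW := W_pos hX hm k
  have hi : (i : ℤ) + 1 ≤ p.m := by exact_mod_cast i.2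
  have h1 : 0 ≤ (i : ℤ) * p.W k := mul_nonneg (Int.natCast_nonneg _) hW.le
  have h2 : ((i : ℤ) + 1) * p.W k ≤ p.m * p.W k := mul_le_mul_of_nonneg_right hi hW.le
  have e1 : ((i : ℤ) + 1) * p.W k = i * p.W k + p.W k := by ring
  unfold sub
  rw [mem_blk, mem_grp]
  constructor
  · rintro ⟨a1, a2, a3, a4⟩
    have a5 : c.ka k = κ := by rw [a2 k le_rfl, Function.update_self]
    rw [Z_succ, a5]
    refine ⟨⟨a1, fun j hj => ?_, by omega, by omega⟩, rfl, by omega, by omega⟩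
    rw [a2 j (by omega), Function.update_of_ne (by omega)]
  · rintro ⟨⟨a1, a2, -, -⟩, a5, a6, a7⟩
    rw [Z_succ, a5] at a6 a7
    refine ⟨a1, fun j hj => ?_, by omega, by omega⟩
    rcases Nat.eq_or_lt_of_le hj with h | h
    · subst h
      rw [a5, Function.update_self]
    · rw [a2 j h, Function.update_of_ne (by omega)]

theorem exists_sub (hX : 0 < p.X) (hm : 0 < p.m) {b : Bool} {P : ℕ → Fin p.g} {k : ℕ} {mu : ℤ}
    {t : ℕ} {c : Cur p.g} (hc : c ∈ p.grp b P k mu t) :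
    ∃ i, c ∈ p.sub b P k mu t (c.ka k) i := by
  have hW := W_pos hX hm k
  have h := mem_grp _ |>.1 hc
  set z := p.Z (k + 1) c t - mu with hz
  have hz0 : 0 ≤ z := by omega
  have hz1 : z < p.m * p.W k := by omega
  have hq0 : 0 ≤ z / p.W k := Int.ediv_nonneg hz0 hW.le
  have hq1 : z / p.W k < p.m := Int.ediv_lt_of_lt_mul hW hz1
  have e1 := Int.mul_ediv_add_emod z (p.W k)
  have e2 := Int.emod_nonneg z hW.ne'
  have e3 := Int.emod_lt_of_pos z hW
  refine ⟨⟨(z / p.W k).toNat, by omega⟩, (mem_sub hX hm).2 ⟨hc, rfl, ?_, ?_⟩⟩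
  · dsimp only
    rw [Int.toNat_of_nonneg hq0]
    have : z / p.W k * p.W k = p.W k * (z / p.W k) := mul_comm _ _
    omega
  · dsimp only
    rw [Int.toNat_of_nonneg hq0]
    have : (z / p.W k + 1) * p.W k = p.W k * (z / p.W k) + p.W k := by ring
    omega

/-- the data of two groups, one for each side -/
structure Sd (g : ℕ) where
  b : Bool → Bool
  P : Bool → ℕ → Fin g
  mu : Bool → ℤ
  t : Bool → ℕ

/-- the group of a side -/
noncomputable def Gs (p : Prm) (A : Sd p.g) (k : ℕ) (s : Bool) : Finset (Cur p.g) :=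
  p.grp (A.b s) (A.P s) k (A.mu s) (A.t s)

/-- the block of a role -/
noncomputable def Bs (p : Prm) (A : Sd p.g) (k : ℕ) (r : Role p.g p.m) : Finset (Cur p.g) :=
  p.sub (A.b r.1) (A.P r.1) k (A.mu r.1) (A.t r.1) r.2.1 r.2.2

/-- the phase functions of a role -/
def GG (p : Prm) (A : Sd p.g) (k : ℕ) (r : Role p.g p.m) (u v : Cur p.g) (ψ : ℕ → ℕ) : Prop :=
  ∃ ψ', p.Good k u v ψ' ∧ ∀ n, ψ n = ψ' (p.D * A.t r.1 + n)

/-- parallel curves -/
def QQ (p : Prm) (_ : Role p.g p.m) (u v : Cur p.g) : Prop := u.ka = v.ka ∧ u.rh ≤ v.rh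

section step

variable {A : Sd p.g} {k : ℕ}

theorem mem_Bs (hX : 0 < p.X) (hm : 0 < p.m) (s : Bool) (κ : Fin p.g) (i : Fin p.m)
    (c : Cur p.g) : c ∈ p.Bs A k (s, κ, i) ↔ c ∈ p.Gs A k s ∧ c.ka k = κ ∧
      A.mu s + i * p.W k ≤ p.Z (k + 1) c (A.t s) ∧
      p.Z (k + 1) c (A.t s) < A.mu s + (i + 1) * p.W k := mem_sub hX hm

theorem sd_Gs {s : Bool} {c : Cur p.g} (hc : c ∈ p.Gs A k s) : c.sd = A.b s :=
  ((mem_grp _).1 hc).1

theorem range_Gs {s : Bool} {c : Cur p.g} (hc : c ∈ p.Gs A k s) :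
    A.mu s ≤ p.Z (k + 1) c (A.t s) ∧ p.Z (k + 1) c (A.t s) < A.mu s + p.m * p.W k :=
  ((mem_grp _).1 hc).2.2

theorem cov_Gs (hX : 0 < p.X) (hm : 0 < p.m) {s : Bool} {c : Cur p.g} (hc : c ∈ p.Gs A k s) :
    ∃ i, c ∈ p.Bs A k (s, c.ka k, i) := by
  unfold Gs at hc
  obtain ⟨i, hi⟩ := exists_sub hX hm hc
  exact ⟨i, by unfold Bs; exact hi⟩

theorem mem_Gs_of_Bs (hX : 0 < p.X) (hm : 0 < p.m) {r : Role p.g p.m} {c : Cur p.g}
    (hc : c ∈ p.Bs A k r) : c ∈ p.Gs A k r.1 := ((mem_Bs hX hm r.1 r.2.1 r.2.2 c).1 hc).1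

theorem Bs_disjoint (hX : 0 < p.X) (hm : 0 < p.m) (hd : Disjoint (p.Gs A k false) (p.Gs A k true))
    (r r' : Role p.g p.m) (hr : r ≠ r') : Disjoint (p.Bs A k r) (p.Bs A k r') := by
  have hW := W_pos hX hm k
  rw [Finset.disjoint_left]
  intro c h1 h2
  obtain ⟨s, κ, i⟩ := r
  obtain ⟨s', κ', i'⟩ := r'
  obtain ⟨a1, a2, a3, a4⟩ := (mem_Bs hX hm s κ i c).1 h1
  obtain ⟨b1, b2, b3, b4⟩ := (mem_Bs hX hm s' κ' i' c).1 h2
  by_cases hs : s = s'
  · subst hs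
    have hκ : κ = κ' := a2.symm.trans b2
    subst hκ
    have hi : (i : ℕ) ≠ i' := fun h => hr (by rw [Fin.ext h])
    rcases lt_or_gt_of_ne hi with h | h
    · have : ((i : ℤ) + 1) * p.W k ≤ i' * p.W k :=
        mul_le_mul_of_nonneg_right (by exact_mod_cast h) hW.le
      linarith
    · have : ((i' : ℤ) + 1) * p.W k ≤ i * p.W k :=
        mul_le_mul_of_nonneg_right (by exact_mod_cast h) hW.le
      linarith
  · cases s <;> cases s'
    · exact hs rfl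
    · exact Finset.disjoint_left.1 hd a1 b1
    · exact Finset.disjoint_left.1 hd b1 a1
    · exact hs rfl

theorem GG_mono (r : Role p.g p.m) (u v : Cur p.g) (ψ : ℕ → ℕ) (h : p.GG A k r u v ψ) :
    Monotone ψ := by
  obtain ⟨ψ', h1, h2⟩ := h
  intro m n hmn
  rw [h2, h2]
  exact h1.mono (by omega)

theorem conv_spec {q q' : Role p.g p.m} {n n' : ℕ} {L : List (Cur p.g × Cur p.g)}
    (hL : p.Spec k (p.D * A.t q.1 + n) (p.D * A.t q'.1 + n') (p.Bs A k q) (p.Bs A k q') L) :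
    (∀ u ∈ p.Bs A k q, ∀ v ∈ p.Bs A k q,
      (∀ ψ, p.GG A k q u v ψ → Crt (p.Bs A k q) (p.Bs A k q') L u v (ψ n) (ψ (n + 1))) ∧
        (p.QQ q u v → Le (p.Bs A k q) (p.Bs A k q') L u v)) ∧
    (∀ u ∈ p.Bs A k q', ∀ v ∈ p.Bs A k q',
      (∀ ψ, p.GG A k q' u v ψ → Crt (p.Bs A k q) (p.Bs A k q') L u v (ψ n') (ψ (n' + 1))) ∧
        (p.QQ q' u v → Le (p.Bs A k q) (p.Bs A k q') L u v)) := by
  refine ⟨fun u hu v hv => ⟨?_, fun h => (hL.ppU u hu v hv).2 h.1 h.2⟩,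
    fun u hu v hv => ⟨?_, fun h => (hL.ppW u hu v hv).2 h.1 h.2⟩⟩
  · rintro ψ ⟨ψ', h1, h2⟩
    rw [h2, h2]
    exact (hL.ppU u hu v hv).1 ψ' h1
  · rintro ψ ⟨ψ', h1, h2⟩
    rw [h2, h2]
    exact (hL.ppW u hu v hv).1 ψ' h1

/-- the conclusion of `expand` -/
def Expanded (p : Prm) (A : Sd p.g) (k : ℕ) (S : List (SStep (Role p.g p.m)))
    (L : List (Cur p.g × Cur p.g)) : Prop :=
  ∀ x : Cur p.g → ℤ, (∀ r, ∀ c ∈ p.Bs A k r, x c = y0 r) →
    Valid x L ∧ (∀ r, ∀ c ∈ p.Bs A k r, run x L c = run y0 (S.map Prod.fst) r) ∧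
    (∀ r, ∀ u ∈ p.Bs A k r, ∀ v ∈ p.Bs A k r,
      (∀ ψ, p.GG A k r u v ψ → AC (fun z : Cur p.g → ℤ => z u - z v) (ψ 0) (ψ (0 + cnt r S))
        (posts x L)) ∧
      (p.QQ r u v → ∀ z ∈ posts x L, z u ≤ z v)) ∧
    (∀ r r', r ≠ r' → ∀ u ∈ p.Bs A k r, ∀ v ∈ p.Bs A k r',
      (∀ a b, 0 ≤ (-1) ^ a * (y0 r - y0 r') →
        (∀ e ∈ S, e.2 = true → e.1 = (r', r) → False) → SAC p.sg r r' y0 a b S →
        AC (fun z : Cur p.g → ℤ => z u - z v) a b (posts x L)) ∧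
      (y0 r ≤ y0 r' → (∀ z ∈ posts y0 (S.map Prod.fst), z r ≤ z r') →
        ∀ z ∈ posts x L, z u ≤ z v))

theorem exists_expanded (hc : p.c0 < p.D) (hsg : Odd p.sg) (hX : 0 < p.X) (hm : 0 < p.m)
    (hal : ∀ k, ∑ i, p.al k i = 0) {S : List (SStep (Role p.g p.m))}
    (hS : Seed p.g p.m p.D p.sg S) {E : ℕ}
    (hEX : ∀ b P lam T t b' P' lam' T' t', p.D * T ≤ t → t < p.D * (T + 1) → p.D * T' ≤ t' →
      t' < p.D * (T' + 1) → Disjoint (p.blk b P k lam T) (p.blk b' P' k lam' T') →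
      ∃ L, p.Spec k t t' (p.blk b P k lam T) (p.blk b' P' k lam' T') L ∧ E ≤ L.length)
    (hd : Disjoint (p.Gs A k false) (p.Gs A k true)) :
    ∃ L : List (Cur p.g × Cur p.g), (∀ e ∈ L, (∃ r, e.1 ∈ p.Bs A k r) ∧
      ∃ r, e.2 ∈ p.Bs A k r) ∧ S.countP (fun e => e.2) * E ≤ L.length ∧
      Expanded p A k S L := by
  have hBd := Bs_disjoint (A := A) (k := k) hX hm hd
  refine expand (B := p.Bs A k) (G := p.GG A k) (Q := p.QQ) (D := p.D) hBd GG_mono hsg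
    ?_ ?_ S y0
    (fun r => by unfold y0; split_ifs <;> simp) hS.valid (fun _ => 0)
    (fun r => by rw [Nat.zero_add]; exact hS.cnt_le r)
  · intro q q' hq n n' hn hn'
    have e1 : p.D * A.t q.1 + n < p.D * (A.t q.1 + 1) := by rw [Nat.mul_add]; omega
    have e2 : p.D * A.t q'.1 + n' < p.D * (A.t q'.1 + 1) := by rw [Nat.mul_add]; omega
    obtain ⟨L, h1, h2⟩ := hEX (A.b q.1) (Function.update (A.P q.1) k q.2.1)
      (A.mu q.1 + q.2.2 * p.W k - A.t q.1 * p.al k q.2.1) (A.t q.1) (p.D * A.t q.1 + n)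
      (A.b q'.1) (Function.update (A.P q'.1) k q'.2.1)
      (A.mu q'.1 + q'.2.2 * p.W k - A.t q'.1 * p.al k q'.2.1) (A.t q'.1)
      (p.D * A.t q'.1 + n') (Nat.le_add_right _ _) e1 (Nat.le_add_right _ _) e2 (hBd q q' hq)
    exact ⟨L, h1.xt, h2, h1.cross, conv_spec h1⟩
  · intro q q' hq n n' hn hn'
    have hcard : (p.Bs A k q).card = (p.Bs A k q').card := by
      have h1 := p.card_blk hal (A.b q.1) (Function.update (A.P q.1) k q.2.1) k
        (A.mu q.1 + q.2.2 * p.W k - A.t q.1 * p.al k q.2.1) (A.t q.1)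
      have h2 := p.card_blk hal (A.b q'.1) (Function.update (A.P q'.1) k q'.2.1) k
        (A.mu q'.1 + q'.2.2 * p.W k - A.t q'.1 * p.al k q'.2.1) (A.t q'.1)
      have h3 := h1.trans h2.symm
      exact_mod_cast h3
    have hsides : ∀ q, ∀ u ∈ p.Bs A k q, ∀ v ∈ p.Bs A k q, u.sd = v.sd := fun q u hu v hv =>
      (sd_Gs (mem_Gs_of_Bs hX hm hu)).trans (sd_Gs (mem_Gs_of_Bs hX hm hv)).symm
    obtain ⟨L, h1, -, h2⟩ := Spec.single (p := p) hc hsg k (p.D * A.t q.1 + n)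
      (p.D * A.t q'.1 + n') (hBd q q' hq) hcard (hsides q) (hsides q')
    exact ⟨L, h1.xt, h2, conv_spec h1⟩

theorem ini_Bs (hX : 0 < p.X) (hm : 0 < p.m) {x : Cur p.g → ℤ}
    (hx : Ini (p.Gs A k false) (p.Gs A k true) x) : ∀ r, ∀ c ∈ p.Bs A k r, x c = y0 r := by
  rintro ⟨s, κ, i⟩ c hcB
  have h1 := mem_Gs_of_Bs hX hm hcB
  cases s
  · rw [hx.1 c h1]
    simp [y0]
  · rw [hx.2 c h1]
    simp [y0]

theorem xt_step (hX : 0 < p.X) (hm : 0 < p.m) {S : List (SStep (Role p.g p.m))}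
    (hS : Seed p.g p.m p.D p.sg S) {L : List (Cur p.g × Cur p.g)}
    (hsupp : ∀ e ∈ L, (∃ r, e.1 ∈ p.Bs A k r) ∧ ∃ r, e.2 ∈ p.Bs A k r)
    (hL : Expanded p A k S L) : XT (p.Gs A k false) (p.Gs A k true) L := by
  refine ⟨fun e he => ?_, fun x hx => ?_⟩
  · have hh : ∀ c : Cur p.g, (∃ r, c ∈ p.Bs A k r) → c ∈ p.Gs A k false ∨ c ∈ p.Gs A k true := by
      rintro c ⟨⟨s, κ, i⟩, hcB⟩
      have h1 := mem_Gs_of_Bs hX hm hcB
      cases s
      · exact Or.inl h1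
      · exact Or.inr h1
    exact ⟨hh _ (hsupp e he).1, hh _ (hsupp e he).2⟩
  · obtain ⟨h1, h2, -⟩ := hL x (ini_Bs hX hm hx)
    refine ⟨h1, fun c hcW => ?_, fun c hcU => ?_⟩
    · obtain ⟨i, hi⟩ := cov_Gs hX hm hcW
      rw [h2 _ c hi, hS.last]
      simp [y0]
    · obtain ⟨i, hi⟩ := cov_Gs hX hm hcU
      rw [h2 _ c hi, hS.last]
      simp [y0]

theorem not_prec_pure {S : List (SStep (Role p.g p.m))} (hS : Seed p.g p.m p.D p.sg S)
    {r r' : Role p.g p.m} (hpr : Prec r r') : ∀ e ∈ S, e.2 = true → e.1 = (r', r) → False := by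
  intro e he h1 h2
  have := hS.pure e he h1
  rw [h2] at this
  rcases this with h | h <;> rcases hpr with h' | h'
  · rw [h'.1] at h
    simp at h
  · rw [h'.1, h.1] at h
    simp at h
  · rw [h'.1, h'.2] at h
    simp at h
  · exact absurd h.2 (not_lt.2 h'.2.le)

/-- a pair of different roles -/
theorem role_pair (hX : 0 < p.X) (hm : 0 < p.m) {S : List (SStep (Role p.g p.m))}
    (hS : Seed p.g p.m p.D p.sg S) {L : List (Cur p.g × Cur p.g)} (hL : Expanded p A k S L)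
    {r r' : Role p.g p.m} (hpr : Prec r r') (hne : r ≠ r') {u v : Cur p.g}
    (hu : u ∈ p.Bs A k r) (hv : v ∈ p.Bs A k r') {a : ℕ} (ha : Odd a) :
    Crt (p.Gs A k false) (p.Gs A k true) L u v a (a + p.sg) := by
  intro x hx
  obtain ⟨-, -, -, h4⟩ := hL x (ini_Bs hX hm hx)
  refine ac_odd ((h4 r r' hne u hu v hv).1 1 (1 + p.sg) ?_ (not_prec_pure hS hpr)
    (hS.sac _ _ hpr)) ha
  rcases hpr with h | h
  · simp [y0, h.1, h.2]
  · simp [y0, h.1]

/-- a pair of parallel roles -/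
theorem par_pair (hX : 0 < p.X) (hm : 0 < p.m) {S : List (SStep (Role p.g p.m))}
    (hS : Seed p.g p.m p.D p.sg S) {L : List (Cur p.g × Cur p.g)} (hL : Expanded p A k S L)
    {s : Bool} {κ : Fin p.g} {i j : Fin p.m} (hij : i < j) {u v : Cur p.g}
    (hu : u ∈ p.Bs A k (s, κ, i)) (hv : v ∈ p.Bs A k (s, κ, j)) :
    Le (p.Gs A k false) (p.Gs A k true) L u v := by
  intro x hx
  obtain ⟨-, -, -, h4⟩ := hL x (ini_Bs hX hm hx)
  have hne : ((s, κ, i) : Role p.g p.m) ≠ (s, κ, j) := by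
    intro h
    simp only [Prod.mk.injEq, true_and] at h
    exact absurd h hij.ne
  exact (h4 _ _ hne u hu v hv).2 le_rfl (fun z hz => hS.par z hz s κ i j hij.le)

/-- a pair of the same role -/
theorem own_pair (hX : 0 < p.X) (hm : 0 < p.m) {S : List (SStep (Role p.g p.m))}
    (hS : Seed p.g p.m p.D p.sg S) {L : List (Cur p.g × Cur p.g)} (hL : Expanded p A k S L)
    {s : Bool} {κ : Fin p.g} {i : Fin p.m} {u v : Cur p.g} (hu : u ∈ p.Bs A k (s, κ, i))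
    (hv : v ∈ p.Bs A k (s, κ, i)) (hk : u.ka k = v.ka k) :
    p.PP (k + 1) (A.t s) (p.Gs A k false) (p.Gs A k true) L u v := by
  refine ⟨?_, ?_⟩
  · rintro ψ (⟨h, _⟩ | ⟨_, ψ', h, h'⟩)
    · exact absurd h (by rw [hk]; exact lt_irrefl _)
    · intro x hx
      obtain ⟨-, -, h3, -⟩ := hL x (ini_Bs hX hm hx)
      have h5 := (h3 _ u hu v hv).1 (fun n => ψ' (p.D * A.t s + n)) ⟨ψ', h, fun n => rfl⟩
      rw [h', h']
      refine (h5.mono_left (h.mono ?_)).mono_right (h.mono ?_)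
      · omega
      · have := hS.cnt_le (s, κ, i)
        rw [Nat.mul_add, Nat.mul_one, Nat.zero_add]
        omega
  · intro h1 h2 x hx
    obtain ⟨-, -, h3, -⟩ := hL x (ini_Bs hX hm hx)
    exact (h3 _ u hu v hv).2 ⟨h1, h2⟩

/-- all pairs of one side -/
theorem side_pair (hc : p.c0 < p.D) (hX : 0 < p.X) (hm : 0 < p.m)
    {S : List (SStep (Role p.g p.m))}
    (hS : Seed p.g p.m p.D p.sg S) {L : List (Cur p.g × Cur p.g)} (hL : Expanded p A k S L)
    {s : Bool} {u v : Cur p.g} (hu : u ∈ p.Gs A k s) (hv : v ∈ p.Gs A k s) :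
    p.PP (k + 1) (A.t s) (p.Gs A k false) (p.Gs A k true) L u v := by
  have hW := W_pos hX hm k
  obtain ⟨i, hi⟩ := cov_Gs hX hm hu
  obtain ⟨j, hj⟩ := cov_Gs hX hm hv
  have hsuv : u.sd = v.sd := (sd_Gs hu).trans (sd_Gs hv).symm
  rcases lt_trichotomy (u.ka k) (v.ka k) with hk | hk | hk
  · refine ⟨?_, fun h _ => absurd (congrFun h k) hk.ne⟩
    rintro ψ (⟨h, _⟩ | ⟨h, _⟩)
    · exact absurd h (not_lt.2 hk.le)
    · exact absurd h hk.ne
  · obtain ⟨-, -, a3, a4⟩ := (mem_Bs hX hm _ _ _ u).1 hi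
    obtain ⟨-, -, b3, b4⟩ := (mem_Bs hX hm _ _ _ v).1 hj
    rw [← hk] at hj
    rcases lt_trichotomy i j with h | h | h
    · refine PP.of_le hc ?_ (par_pair hX hm hS hL h hi hj)
      have : ((i : ℤ) + 1) * p.W k ≤ j * p.W k :=
        mul_le_mul_of_nonneg_right (by exact_mod_cast h) hW.le
      linarith
    · subst h
      exact own_pair hX hm hS hL hi hj hk
    · refine PP.of_ge hc hsuv ?_ (par_pair hX hm hS hL h hj hi)
      have : ((j : ℤ) + 1) * p.W k ≤ i * p.W k :=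
        mul_le_mul_of_nonneg_right (by exact_mod_cast h) hW.le
      linarith
  · refine ⟨?_, fun h _ => absurd (congrFun h k) hk.ne'⟩
    rintro ψ (⟨_, h⟩ | ⟨h, _⟩)
    · have m1 := range_Gs hu
      have m2 := range_Gs hv
      have hab : |p.Z (k + 1) u (A.t s) - p.Z (k + 1) v (A.t s)| < p.m * p.W k := by
        rw [abs_lt]
        constructor <;> linarith [m1.1, m1.2, m2.1, m2.2]
      obtain ⟨t1, t2⟩ := h.top (A.t s) hab
      intro x hx
      have hne : ((s, u.ka k, i) : Role p.g p.m) ≠ (s, v.ka k, j) := by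
        intro h
        simp only [Prod.mk.injEq, true_and] at h
        exact absurd h.1 hk.ne'
      have hpr : Prec ((s, u.ka k, i) : Role p.g p.m) (s, v.ka k, j) := Or.inr ⟨rfl, hk⟩
      exact (role_pair hX hm hS hL hpr hne hi hj t1 x hx).mono_right t2
    · exact absurd h hk.ne'

/-- from blocks to groups -/
theorem es_step' (hc : p.c0 < p.D) (hsg : Odd p.sg) (hX : 0 < p.X) (hm : 0 < p.m)
    (hal : ∀ k, ∑ i, p.al k i = 0) {S : List (SStep (Role p.g p.m))}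
    (hS : Seed p.g p.m p.D p.sg S) {E : ℕ}
    (hEX : ∀ b P lam T t b' P' lam' T' t', p.D * T ≤ t → t < p.D * (T + 1) → p.D * T' ≤ t' →
      t' < p.D * (T' + 1) → Disjoint (p.blk b P k lam T) (p.blk b' P' k lam' T') →
      ∃ L, p.Spec k t t' (p.blk b P k lam T) (p.blk b' P' k lam' T') L ∧ E ≤ L.length)
    (hd : Disjoint (p.Gs A k false) (p.Gs A k true)) :
    ∃ L, p.Spec (k + 1) (A.t false) (A.t true) (p.Gs A k false) (p.Gs A k true) L ∧
      S.countP (fun e => e.2) * E ≤ L.length := by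
  obtain ⟨L, h1, h2, h3⟩ := exists_expanded hc hsg hX hm hal hS hEX hd
  refine ⟨L, ⟨xt_step hX hm hS h1 h3, ?_, ?_, ?_⟩, h2⟩
  · intro u hu v hv a ha
    obtain ⟨i, hi⟩ := cov_Gs hX hm hu
    obtain ⟨j, hj⟩ := cov_Gs hX hm hv
    have hne : ((false, u.ka k, i) : Role p.g p.m) ≠ (true, v.ka k, j) := by
      intro h
      simp only [Prod.mk.injEq, Bool.false_eq_true, false_and] at h
    have hpr : Prec ((false, u.ka k, i) : Role p.g p.m) (true, v.ka k, j) := Or.inl ⟨rfl, rfl⟩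
    exact role_pair hX hm hS h3 hpr hne hi hj ha
  · intro u hu v hv
    exact side_pair hc hX hm hS h3 hu hv
  · intro u hu v hv
    exact side_pair hc hX hm hS h3 hu hv

end step

/-- from blocks to groups -/
theorem es_step (hc : p.c0 < p.D) (hsg : Odd p.sg) (hX : 0 < p.X) (hm : 0 < p.m)
    (hal : ∀ k, ∑ i, p.al k i = 0) {S : List (SStep (Role p.g p.m))}
    (hS : Seed p.g p.m p.D p.sg S) {k E : ℕ}
    (hEX : ∀ b P lam T t b' P' lam' T' t', p.D * T ≤ t → t < p.D * (T + 1) → p.D * T' ≤ t' →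
      t' < p.D * (T' + 1) → Disjoint (p.blk b P k lam T) (p.blk b' P' k lam' T') →
      ∃ L, p.Spec k t t' (p.blk b P k lam T) (p.blk b' P' k lam' T') L ∧ E ≤ L.length)
    (b : Bool) (P : ℕ → Fin p.g) (mu : ℤ) (t : ℕ) (b' : Bool) (P' : ℕ → Fin p.g) (mu' : ℤ)
    (t' : ℕ) (hd : Disjoint (p.grp b P k mu t) (p.grp b' P' k mu' t')) :
    ∃ L, p.Spec (k + 1) t t' (p.grp b P k mu t) (p.grp b' P' k mu' t') L ∧
      S.countP (fun e => e.2) * E ≤ L.length :=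
  es_step' (A := ⟨fun s => bif s then b' else b, fun s => bif s then P' else P,
    fun s => bif s then mu' else mu, fun s => bif s then t' else t⟩) hc hsg hX hm hal hS hEX hd

end Prm

end LevelRec
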