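import Pool.Agent.LevelRec.Defs

/-!
# Traces: concatenation and single exchanges
-/

namespace LevelRec

open LevelLower

section trace

variable {V : Type} [DecidableEq V]

theorem posts_append (x : V → ℤ) (L M : List (V × V)) :
    posts x (L ++ M) = posts x L ++ posts (run x L) M := by
  induction L generalizing x with
  | nil => rfl
  | cons e L ih => simp only [List.cons_append, posts, run, ih]

theorem run_append (x : V → ℤ) (L M : List (V × V)) : run x (L ++ M) = run (run x L) M := by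
  induction L generalizing x with
  | nil => rfl
  | cons e L ih => simp only [List.cons_append, run, ih]

theorem valid_append (x : V → ℤ) (L M : List (V × V)) :
    Valid x (L ++ M) ↔ Valid x L ∧ Valid (run x L) M := by
  induction L generalizing x with
  | nil => simp [Valid, run]
  | cons e L ih => simp only [List.cons_append, Valid, run, ih, and_assoc]

theorem length_posts (x : V → ℤ) (L : List (V × V)) : (posts x L).length = L.length := by
  induction L generalizing x with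
  | nil => rfl
  | cons e L ih => simp [posts, ih]

theorem stp_ne {x : V → ℤ} {e : V × V} {c : V} (h1 : c ≠ e.1) (h2 : c ≠ e.2) :
    stp x e c = x c := by
  simp [stp, h1, h2]

theorem stp_up (x : V → ℤ) (e : V × V) : stp x e e.1 = 1 := by
  simp [stp]

theorem stp_down (x : V → ℤ) {e : V × V} (h : e.2 ≠ e.1) : stp x e e.2 = 0 := by
  simp [stp, h]

theorem posts_const {x : V → ℤ} {L : List (V × V)} {c : V}
    (h : ∀ e ∈ L, c ≠ e.1 ∧ c ≠ e.2) : ∀ y ∈ posts x L, y c = x c := by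
  induction L generalizing x with
  | nil => simp [posts]
  | cons e L ih =>
    intro y hy
    have he := h e (by simp)
    have hs := stp_ne (x := x) he.1 he.2
    simp only [posts, List.mem_cons] at hy
    rcases hy with rfl | hy
    · exact hs
    · rw [ih (fun e he => h e (by simp [he])) y hy, hs]

theorem run_const {x : V → ℤ} {L : List (V × V)} {c : V}
    (h : ∀ e ∈ L, c ≠ e.1 ∧ c ≠ e.2) : run x L c = x c := by
  induction L generalizing x with
  | nil => rfl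
  | cons e L ih =>
    have he := h e (by simp)
    simp only [run]
    rw [ih (fun e he => h e (by simp [he])), stp_ne he.1 he.2]

theorem stp_01 {x : V → ℤ} {e : V × V} {c : V} (h : x c = 0 ∨ x c = 1) :
    stp x e c = 0 ∨ stp x e c = 1 := by
  unfold stp
  split_ifs
  · exact Or.inr rfl
  · exact Or.inl rfl
  · exact h

theorem posts_01 {x : V → ℤ} {L : List (V × V)} {c : V} (h : x c = 0 ∨ x c = 1) :
    ∀ y ∈ posts x L, y c = 0 ∨ y c = 1 := by
  induction L generalizing x with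
  | nil => simp [posts]
  | cons e L ih =>
    intro y hy
    simp only [posts, List.mem_cons] at hy
    rcases hy with rfl | hy
    · exact stp_01 h
    · exact ih (stp_01 h) y hy

theorem run_01 {x : V → ℤ} {L : List (V × V)} {c : V} (h : x c = 0 ∨ x c = 1) :
    run x L c = 0 ∨ run x L c = 1 := by
  induction L generalizing x with
  | nil => exact h
  | cons e L ih => exact ih (stp_01 h)

/-- the last state is a post-state, unless the trace is empty -/
theorem run_mem_posts {x : V → ℤ} {L : List (V × V)} (h : L ≠ []) : run x L ∈ posts x L := by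
  induction L generalizing x with
  | nil => exact absurd rfl h
  | cons e L ih =>
    rcases L.eq_nil_or_concat with rfl | _
    · simp [posts, run]
    · by_cases hL : L = []
      · subst hL
        simp [posts, run]
      · simp only [posts, run, List.mem_cons]
        exact Or.inr (ih hL)

/-! ### certificates -/

theorem ac_nonneg {α : Type} {f : α → ℤ} {a b : ℕ} {L : List α}
    (h : ∃ p, Even p ∧ a ≤ p ∧ p ≤ b) (hL : ∀ y ∈ L, 0 ≤ f y) : AC f a b L := by
  obtain ⟨p, hp, h1, h2⟩ := h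
  refine AC.const h1 h2 (fun y hy => ?_)
  rw [hp.neg_one_pow, one_mul]
  exact hL y hy

theorem ac_nonpos {α : Type} {f : α → ℤ} {a b : ℕ} {L : List α}
    (h : ∃ p, Odd p ∧ a ≤ p ∧ p ≤ b) (hL : ∀ y ∈ L, f y ≤ 0) : AC f a b L := by
  obtain ⟨p, hp, h1, h2⟩ := h
  refine AC.const h1 h2 (fun y hy => ?_)
  rw [hp.neg_one_pow]
  have := hL y hy
  omega

theorem ac_zero {α : Type} {f : α → ℤ} {a b : ℕ} {L : List α} (h : a ≤ b)
    (hL : ∀ y ∈ L, f y = 0) : AC f a b L :=
  AC.const le_rfl h (fun y hy => by rw [hL y hy]; simp)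

theorem ac_shift {α : Type} {f : α → ℤ} {a b : ℕ} {L : List α} (h : AC f a b L) {j : ℕ}
    (hj : Even j) : AC f (a + j) (b + j) L := by
  induction h with
  | nil h => exact .nil (by omega)
  | @cons a a' b x L h hx hL ih =>
    refine .cons (a' := a' + j) (by omega) ?_ ih
    rw [pow_add, hj.neg_one_pow, mul_one]
    exact hx

theorem ac_odd {α : Type} {f : α → ℤ} {s a : ℕ} {L : List α} (h : AC f 1 (1 + s) L)
    (ha : Odd a) : AC f a (a + s) L := by
  obtain ⟨j, rfl⟩ := ha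
  have := ac_shift h (j := 2 * j) ⟨j, by ring⟩
  rwa [show 1 + 2 * j = 2 * j + 1 by ring, show 1 + s + 2 * j = 2 * j + 1 + s by ring] at this

/-! ### concatenation -/

variable {U₁ W₁ U₂ W₂ : Finset V} {L₁ L₂ : List (V × V)}

theorem XT.not_mem {U W : Finset V} {L : List (V × V)} (h : XT U W L) {c : V} (hU : c ∉ U)
    (hW : c ∉ W) : ∀ e ∈ L, c ≠ e.1 ∧ c ≠ e.2 := by
  intro e he
  have := h.supp e he
  constructor
  · rintro rfl
    rcases this.1 with h | h
    · exact hU h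
    · exact hW h
  · rintro rfl
    rcases this.2 with h | h
    · exact hU h
    · exact hW h

theorem Ini.left {x : V → ℤ} (h : Ini (U₁ ∪ U₂) (W₁ ∪ W₂) x) : Ini U₁ W₁ x :=
  ⟨fun c hc => h.1 c (Finset.mem_union_left _ hc), fun c hc => h.2 c (Finset.mem_union_left _ hc)⟩

theorem merge_facts (h₁ : XT U₁ W₁ L₁) (h₂ : XT U₂ W₂ L₂) (hd : Disjoint (U₁ ∪ W₁) (U₂ ∪ W₂))
    {x : V → ℤ} (hx : Ini (U₁ ∪ U₂) (W₁ ∪ W₂) x) :
    Ini U₂ W₂ (run x L₁) ∧
    (∀ c ∈ U₁, ∀ y ∈ posts (run x L₁) L₂, y c = 1) ∧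
    (∀ c ∈ W₁, ∀ y ∈ posts (run x L₁) L₂, y c = 0) ∧
    (∀ c ∈ U₂, ∀ y ∈ posts x L₁, y c = 0) ∧ (∀ c ∈ W₂, ∀ y ∈ posts x L₁, y c = 1) := by
  have hn : ∀ c, c ∈ U₁ ∪ W₁ → c ∈ U₂ ∪ W₂ → False := fun c h h' =>
    Finset.disjoint_left.1 hd h h'
  simp only [Finset.mem_union] at hn
  have n1 : ∀ c, c ∈ U₂ ∨ c ∈ W₂ → ∀ e ∈ L₁, c ≠ e.1 ∧ c ≠ e.2 := fun c hc =>
    h₁.not_mem (fun h => hn c (Or.inl h) hc) (fun h => hn c (Or.inr h) hc)
  have n2 : ∀ c, c ∈ U₁ ∨ c ∈ W₁ → ∀ e ∈ L₂, c ≠ e.1 ∧ c ≠ e.2 := fun c hc =>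
    h₂.not_mem (fun h => hn c hc (Or.inl h)) (fun h => hn c hc (Or.inr h))
  have hr := (h₁.ok x hx.left).2
  refine ⟨⟨fun c hc => ?_, fun c hc => ?_⟩, fun c hc y hy => ?_, fun c hc y hy => ?_,
    fun c hc y hy => ?_, fun c hc y hy => ?_⟩
  · rw [run_const (n1 c (Or.inl hc))]
    exact hx.1 c (Finset.mem_union_right _ hc)
  · rw [run_const (n1 c (Or.inr hc))]
    exact hx.2 c (Finset.mem_union_right _ hc)
  · rw [posts_const (n2 c (Or.inl hc)) y hy]
    exact hr.2 c hc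
  · rw [posts_const (n2 c (Or.inr hc)) y hy]
    exact hr.1 c hc
  · rw [posts_const (n1 c (Or.inl hc)) y hy]
    exact hx.1 c (Finset.mem_union_right _ hc)
  · rw [posts_const (n1 c (Or.inr hc)) y hy]
    exact hx.2 c (Finset.mem_union_right _ hc)

theorem XT.merge (h₁ : XT U₁ W₁ L₁) (h₂ : XT U₂ W₂ L₂) (hd : Disjoint (U₁ ∪ W₁) (U₂ ∪ W₂)) :
    XT (U₁ ∪ U₂) (W₁ ∪ W₂) (L₁ ++ L₂) := by
  refine ⟨fun e he => ?_, fun x hx => ?_⟩
  · simp only [Finset.mem_union]
    rcases List.mem_append.1 he with he | he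
    · have := h₁.supp e he
      tauto
    · have := h₂.supp e he
      tauto
  · have hn : ∀ c, c ∈ U₁ ∪ W₁ → c ∈ U₂ ∪ W₂ → False := fun c h h' =>
      Finset.disjoint_left.1 hd h h'
    simp only [Finset.mem_union] at hn
    have n2 : ∀ c, c ∈ U₁ ∨ c ∈ W₁ → ∀ e ∈ L₂, c ≠ e.1 ∧ c ≠ e.2 := fun c hc =>
      h₂.not_mem (fun h => hn c hc (Or.inl h)) (fun h => hn c hc (Or.inr h))
    obtain ⟨f1, -⟩ := merge_facts h₁ h₂ hd hx
    have a1 := h₁.ok x hx.left
    have a2 := h₂.ok _ f1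
    refine ⟨(valid_append _ _ _).2 ⟨a1.1, a2.1⟩, ?_, ?_⟩
    · intro c hc
      rw [run_append]
      rcases Finset.mem_union.1 hc with hc | hc
      · rw [run_const (n2 c (Or.inr hc))]
        exact a1.2.1 c hc
      · exact a2.2.1 c hc
    · intro c hc
      rw [run_append]
      rcases Finset.mem_union.1 hc with hc | hc
      · rw [run_const (n2 c (Or.inl hc))]
        exact a1.2.2 c hc
      · exact a2.2.2 c hc

section merge

variable (h₁ : XT U₁ W₁ L₁) (h₂ : XT U₂ W₂ L₂) (hd : Disjoint (U₁ ∪ W₁) (U₂ ∪ W₂))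

include h₁ h₂ hd

theorem crt_U1U1 {u v : V} {a b : ℕ} (hu : u ∈ U₁) (hv : v ∈ U₁) (h : Crt U₁ W₁ L₁ u v a b) :
    Crt (U₁ ∪ U₂) (W₁ ∪ W₂) (L₁ ++ L₂) u v a b := by
  intro x hx
  obtain ⟨f1, f2, f3, f4, f5⟩ := merge_facts h₁ h₂ hd hx
  rw [posts_append]
  refine (h x hx.left).append (ac_zero le_rfl (fun y hy => ?_))
  rw [f2 u hu y hy, f2 v hv y hy]
  norm_num

theorem crt_W1W1 {u v : V} {a b : ℕ} (hu : u ∈ W₁) (hv : v ∈ W₁) (h : Crt U₁ W₁ L₁ u v a b) :
    Crt (U₁ ∪ U₂) (W₁ ∪ W₂) (L₁ ++ L₂) u v a b := by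
  intro x hx
  obtain ⟨f1, f2, f3, f4, f5⟩ := merge_facts h₁ h₂ hd hx
  rw [posts_append]
  refine (h x hx.left).append (ac_zero le_rfl (fun y hy => ?_))
  rw [f3 u hu y hy, f3 v hv y hy]
  norm_num

theorem crt_U2U2 {u v : V} {a b : ℕ} (hu : u ∈ U₂) (hv : v ∈ U₂) (h : Crt U₂ W₂ L₂ u v a b) :
    Crt (U₁ ∪ U₂) (W₁ ∪ W₂) (L₁ ++ L₂) u v a b := by
  intro x hx
  obtain ⟨f1, f2, f3, f4, f5⟩ := merge_facts h₁ h₂ hd hx
  rw [posts_append]
  refine AC.append (ac_zero le_rfl (fun y hy => ?_)) (h _ f1)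
  rw [f4 u hu y hy, f4 v hv y hy]
  norm_num

theorem crt_W2W2 {u v : V} {a b : ℕ} (hu : u ∈ W₂) (hv : v ∈ W₂) (h : Crt U₂ W₂ L₂ u v a b) :
    Crt (U₁ ∪ U₂) (W₁ ∪ W₂) (L₁ ++ L₂) u v a b := by
  intro x hx
  obtain ⟨f1, f2, f3, f4, f5⟩ := merge_facts h₁ h₂ hd hx
  rw [posts_append]
  refine AC.append (ac_zero le_rfl (fun y hy => ?_)) (h _ f1)
  rw [f5 u hu y hy, f5 v hv y hy]
  norm_num

theorem le_U1U1 {u v : V} (hu : u ∈ U₁) (hv : v ∈ U₁) (h : Le U₁ W₁ L₁ u v) :
    Le (U₁ ∪ U₂) (W₁ ∪ W₂) (L₁ ++ L₂) u v := by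
  intro x hx y hy
  obtain ⟨f1, f2, f3, f4, f5⟩ := merge_facts h₁ h₂ hd hx
  rw [posts_append, List.mem_append] at hy
  rcases hy with hy | hy
  · exact h x hx.left y hy
  · rw [f2 u hu y hy, f2 v hv y hy]

theorem le_W1W1 {u v : V} (hu : u ∈ W₁) (hv : v ∈ W₁) (h : Le U₁ W₁ L₁ u v) :
    Le (U₁ ∪ U₂) (W₁ ∪ W₂) (L₁ ++ L₂) u v := by
  intro x hx y hy
  obtain ⟨f1, f2, f3, f4, f5⟩ := merge_facts h₁ h₂ hd hx
  rw [posts_append, List.mem_append] at hy
  rcases hy with hy | hy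
  · exact h x hx.left y hy
  · rw [f3 u hu y hy, f3 v hv y hy]

theorem le_U2U2 {u v : V} (hu : u ∈ U₂) (hv : v ∈ U₂) (h : Le U₂ W₂ L₂ u v) :
    Le (U₁ ∪ U₂) (W₁ ∪ W₂) (L₁ ++ L₂) u v := by
  intro x hx y hy
  obtain ⟨f1, f2, f3, f4, f5⟩ := merge_facts h₁ h₂ hd hx
  rw [posts_append, List.mem_append] at hy
  rcases hy with hy | hy
  · rw [f4 u hu y hy, f4 v hv y hy]
  · exact h _ f1 y hy

theorem le_W2W2 {u v : V} (hu : u ∈ W₂) (hv : v ∈ W₂) (h : Le U₂ W₂ L₂ u v) :
    Le (U₁ ∪ U₂) (W₁ ∪ W₂) (L₁ ++ L₂) u v := by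
  intro x hx y hy
  obtain ⟨f1, f2, f3, f4, f5⟩ := merge_facts h₁ h₂ hd hx
  rw [posts_append, List.mem_append] at hy
  rcases hy with hy | hy
  · rw [f5 u hu y hy, f5 v hv y hy]
  · exact h _ f1 y hy

theorem le_U2U1 {u v : V} (hu : u ∈ U₂) (hv : v ∈ U₁) :
    Le (U₁ ∪ U₂) (W₁ ∪ W₂) (L₁ ++ L₂) u v := by
  intro x hx y hy
  obtain ⟨f1, f2, f3, f4, f5⟩ := merge_facts h₁ h₂ hd hx
  rw [posts_append, List.mem_append] at hy
  rcases hy with hy | hy
  · rw [f4 u hu y hy]
    have := posts_01 (L := L₁) (c := v) (Or.inl (hx.left.1 v hv)) y hy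
    omega
  · rw [f2 v hv y hy]
    have := posts_01 (L := L₂) (c := u) (Or.inl (f1.1 u hu)) y hy
    omega

theorem le_W1W2 {u v : V} (hu : u ∈ W₁) (hv : v ∈ W₂) :
    Le (U₁ ∪ U₂) (W₁ ∪ W₂) (L₁ ++ L₂) u v := by
  intro x hx y hy
  obtain ⟨f1, f2, f3, f4, f5⟩ := merge_facts h₁ h₂ hd hx
  rw [posts_append, List.mem_append] at hy
  rcases hy with hy | hy
  · rw [f5 v hv y hy]
    have := posts_01 (L := L₁) (c := u) (Or.inr (hx.left.2 u hu)) y hy
    omega
  · rw [f3 u hu y hy]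
    have := posts_01 (L := L₂) (c := v) (Or.inr (f1.2 v hv)) y hy
    omega

/-- cross pairs -/
theorem cross_merge {s : ℕ} (hs : Odd s)
    (c₁ : ∀ u ∈ U₁, ∀ v ∈ W₁, ∀ a, Odd a → Crt U₁ W₁ L₁ u v a (a + s))
    (c₂ : ∀ u ∈ U₂, ∀ v ∈ W₂, ∀ a, Odd a → Crt U₂ W₂ L₂ u v a (a + s)) :
    ∀ u ∈ U₁ ∪ U₂, ∀ v ∈ W₁ ∪ W₂, ∀ a, Odd a →
      Crt (U₁ ∪ U₂) (W₁ ∪ W₂) (L₁ ++ L₂) u v a (a + s) := by
  intro u hu v hv a ha x hx
  obtain ⟨f1, f2, f3, f4, f5⟩ := merge_facts h₁ h₂ hd hx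
  have hev : Even (a + s) := ha.add_odd hs
  have hs1 : 1 ≤ s := hs.pos
  rw [posts_append]
  rcases Finset.mem_union.1 hu with hu | hu <;> rcases Finset.mem_union.1 hv with hv | hv
  · refine (c₁ u hu v hv a ha x hx.left).append (ac_nonneg ⟨_, hev, le_rfl, le_rfl⟩ ?_)
    intro y hy
    rw [f2 u hu y hy, f3 v hv y hy]
    norm_num
  · refine AC.append (b := a) (ac_nonpos ⟨a, ha, le_rfl, le_rfl⟩ ?_)
      (ac_nonneg ⟨a + s, hev, by omega, le_rfl⟩ ?_)
    · intro y hy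
      rw [f5 v hv y hy]
      have := posts_01 (L := L₁) (c := u) (Or.inl (hx.left.1 u hu)) y hy
      omega
    · intro y hy
      rw [f2 u hu y hy]
      have := posts_01 (L := L₂) (c := v) (Or.inr (f1.2 v hv)) y hy
      omega
  · refine AC.append (b := a) (ac_nonpos ⟨a, ha, le_rfl, le_rfl⟩ ?_)
      (ac_nonneg ⟨a + s, hev, by omega, le_rfl⟩ ?_)
    · intro y hy
      rw [f4 u hu y hy]
      have := posts_01 (L := L₁) (c := v) (Or.inr (hx.left.2 v hv)) y hy
      omega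
    · intro y hy
      rw [f3 v hv y hy]
      have := posts_01 (L := L₂) (c := u) (Or.inl (f1.1 u hu)) y hy
      omega
  · refine AC.append (b := a) (ac_nonpos ⟨a, ha, le_rfl, le_rfl⟩ ?_) (c₂ u hu v hv a ha _ f1)
    intro y hy
    rw [f4 u hu y hy, f5 v hv y hy]
    norm_num

end merge

/-! ### single exchanges -/

theorem xt_nil : XT (∅ : Finset V) ∅ [] :=
  ⟨fun e he => by simp at he, fun x _ => ⟨trivial, fun c hc => by simp at hc,
    fun c hc => by simp at hc⟩⟩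

theorem xt_single {a b : V} (h : a ≠ b) : XT {a} {b} [(a, b)] := by
  refine ⟨fun e he => ?_, fun x hx => ⟨⟨hx.1 a (by simp), hx.2 b (by simp), trivial⟩, ?_, ?_⟩⟩
  · simp only [List.mem_singleton] at he
    subst he
    simp
  · intro c hc
    rw [Finset.mem_singleton.1 hc]
    exact stp_down x (e := (a, b)) h.symm
  · intro c hc
    rw [Finset.mem_singleton.1 hc]
    exact stp_up x (a, b)

theorem exists_single (A B : Finset V) (hAB : Disjoint A B) (hc : A.card = B.card)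
    (zA zB : V → ℤ) : ∃ L, XT A B L ∧ L.length = A.card ∧
      (∀ u ∈ A, ∀ v ∈ B, ∀ a, Odd a → Crt A B L u v a (a + 1)) ∧
      (∀ u ∈ A, ∀ v ∈ A, (zA u ≤ zA v ∧ Le A B L u v) ∨ (zA v ≤ zA u ∧ Le A B L v u)) ∧
      (∀ u ∈ B, ∀ v ∈ B, (zB u ≤ zB v ∧ Le A B L u v) ∨ (zB v ≤ zB u ∧ Le A B L v u)) := by
  induction hn : A.card generalizing A B with
  | zero =>
    have hA : A = ∅ := Finset.card_eq_zero.1 hn
    have hB : B = ∅ := Finset.card_eq_zero.1 (hc.symm.trans hn)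
    subst hA
    subst hB
    exact ⟨[], xt_nil, rfl, by simp, by simp, by simp⟩
  | succ n ih =>
    have hA : A.Nonempty := Finset.card_pos.1 (by omega)
    have hB : B.Nonempty := Finset.card_pos.1 (by omega)
    obtain ⟨a, ha, ha'⟩ := A.exists_max_image zA hA
    obtain ⟨b, hb, hb'⟩ := B.exists_min_image zB hB
    have hab : a ≠ b := fun h => Finset.disjoint_left.1 hAB ha (h ▸ hb)
    have h1 := xt_single hab
    obtain ⟨L, h2, h3, h4, h5, h6⟩ := ih (A.erase a) (B.erase b)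
      (hAB.mono (Finset.erase_subset _ _) (Finset.erase_subset _ _))
      (by rw [Finset.card_erase_of_mem ha, Finset.card_erase_of_mem hb, hc])
      (by rw [Finset.card_erase_of_mem ha]; omega)
    have eA : ({a} : Finset V) ∪ A.erase a = A := by
      ext c
      simp only [Finset.mem_union, Finset.mem_singleton, Finset.mem_erase]
      by_cases h : c = a
      · subst h
        simp [ha]
      · simp [h]
    have eB : ({b} : Finset V) ∪ B.erase b = B := by
      ext c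
      simp only [Finset.mem_union, Finset.mem_singleton, Finset.mem_erase]
      by_cases h : c = b
      · subst h
        simp [hb]
      · simp [h]
    have hd : Disjoint (({a} : Finset V) ∪ {b}) (A.erase a ∪ B.erase b) := by
      rw [Finset.disjoint_left]
      intro c hc1 hc2
      simp only [Finset.mem_union, Finset.mem_singleton, Finset.mem_erase] at hc1 hc2
      rcases hc1 with rfl | rfl
      · rcases hc2 with h | h
        · exact h.1 rfl
        · exact Finset.disjoint_left.1 hAB ha h.2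
      · rcases hc2 with h | h
        · exact Finset.disjoint_left.1 hAB h.2 hb
        · exact h.1 rfl
    have hm := h1.merge h2 hd
    have g1 : ∀ u ∈ ({a} : Finset V), ∀ v ∈ ({b} : Finset V), ∀ a', Odd a' →
        Crt {a} {b} [(a, b)] u v a' (a' + 1) := by
      intro u hu v hv a' ha' x hx
      rw [Finset.mem_singleton.1 hu, Finset.mem_singleton.1 hv]
      refine ac_nonneg ⟨a' + 1, ha'.add_one, by omega, le_rfl⟩ ?_
      intro y hy
      simp only [posts, List.mem_singleton] at hy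
      subst hy
      have e1 := stp_up x (a, b)
      have e2 := stp_down x (e := (a, b)) hab.symm
      simp only at e1 e2
      rw [e1, e2]
      norm_num
    have g2 := cross_merge h1 h2 hd odd_one g1 h4
    have g3 : ∀ u ∈ ({a} : Finset V) ∪ A.erase a, ∀ v ∈ ({a} : Finset V) ∪ A.erase a,
        (zA u ≤ zA v ∧ Le ({a} ∪ A.erase a) ({b} ∪ B.erase b) ([(a, b)] ++ L) u v) ∨
        (zA v ≤ zA u ∧ Le ({a} ∪ A.erase a) ({b} ∪ B.erase b) ([(a, b)] ++ L) v u) := by
      intro u hu v hv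
      rcases Finset.mem_union.1 hu with hu | hu <;> rcases Finset.mem_union.1 hv with hv | hv
      · rw [Finset.mem_singleton.1 hu, Finset.mem_singleton.1 hv]
        exact Or.inl ⟨le_rfl, fun x _ y _ => le_rfl⟩
      · right
        have hu' := Finset.mem_singleton.1 hu
        refine ⟨?_, le_U2U1 h1 h2 hd hv hu⟩
        rw [hu']
        exact ha' v (Finset.mem_of_mem_erase hv)
      · left
        have hv' := Finset.mem_singleton.1 hv
        refine ⟨?_, le_U2U1 h1 h2 hd hu hv⟩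
        rw [hv']
        exact ha' u (Finset.mem_of_mem_erase hu)
      · rcases h5 u hu v hv with h | h
        · exact Or.inl ⟨h.1, le_U2U2 h1 h2 hd hu hv h.2⟩
        · exact Or.inr ⟨h.1, le_U2U2 h1 h2 hd hv hu h.2⟩
    have g4 : ∀ u ∈ ({b} : Finset V) ∪ B.erase b, ∀ v ∈ ({b} : Finset V) ∪ B.erase b,
        (zB u ≤ zB v ∧ Le ({a} ∪ A.erase a) ({b} ∪ B.erase b) ([(a, b)] ++ L) u v) ∨
        (zB v ≤ zB u ∧ Le ({a} ∪ A.erase a) ({b} ∪ B.erase b) ([(a, b)] ++ L) v u) := by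
      intro u hu v hv
      rcases Finset.mem_union.1 hu with hu | hu <;> rcases Finset.mem_union.1 hv with hv | hv
      · rw [Finset.mem_singleton.1 hu, Finset.mem_singleton.1 hv]
        exact Or.inl ⟨le_rfl, fun x _ y _ => le_rfl⟩
      · left
        have hu' := Finset.mem_singleton.1 hu
        refine ⟨?_, le_W1W2 h1 h2 hd hu hv⟩
        rw [hu']
        exact hb' v (Finset.mem_of_mem_erase hv)
      · right
        have hv' := Finset.mem_singleton.1 hv
        refine ⟨?_, le_W1W2 h1 h2 hd hv hu⟩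
        rw [hv']
        exact hb' u (Finset.mem_of_mem_erase hu)
      · rcases h6 u hu v hv with h | h
        · exact Or.inl ⟨h.1, le_W2W2 h1 h2 hd hu hv h.2⟩
        · exact Or.inr ⟨h.1, le_W2W2 h1 h2 hd hv hu h.2⟩
    rw [eA, eB] at hm g2 g3 g4
    refine ⟨[(a, b)] ++ L, hm, ?_, g2, g3, g4⟩
    simp only [List.cons_append, List.nil_append, List.length_cons, h3]

end trace

end LevelRec
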